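import Pool.Agent.TWP.Eng2
namespace TWP.C
/-- radii (numerators over 4096) and tables of the middle charts -/
def rad2 : List ℕ := [3072, 2781, 2517, 2279, 2063, 1868, 1691, 1530, 1385, 1254, 1135, 1028, 930, 842, 762, 690, 625, 566, 512]
def tab2 : K.Tab := [(4096, 5576), (3805, 6147), (3541, 6816), (3303, 7512), (3087, 8319), (2892, 9167), (2715, 10080), (2554, 11190), (2409, 12384), (2278, 13635), (2159, 15158), (2052, 16561), (1954, 18435), (1866, 20284), (1786, 22530), (1714, 24952), (1649, 27493), (1590, 30056), (1536, 0)]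
def rad1 : List ℕ := [3072, 2803, 2558, 2334, 2130, 1944, 1774, 1618, 1477, 1348, 1230, 1122, 1024]
def tab1 : K.Tab := [(4096, 6007), (3827, 6595), (3582, 7214), (3358, 7921), (3154, 8687), (2968, 9505), (2798, 10360), (2642, 11458), (2501, 12525), (2372, 13694), (2254, 14964), (2146, 16487), (2048, 0)]
end TWP.C
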