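import Pool.Agent.TWP.C.Tab
namespace TWP.C
def aL0 : K.PL := [-31097577846933982237417359885991864733628303795, -5294123692500953371471012722874050247006767376, -901440608047795460442325870837756713713022036, -153525675936280477653574904923806213994121436, -26154793121701683811452706657844192774366527, -4457318163258787880331172603360749978250620, -759930729606858727528445716735559660016146, -129621981131799102219291693403361510222524, -22121480561856987202294506511106908548156, -3777527602258255341949567584814640559929, -645485586277851517194156231676659840092, -110377103189828881576173115380746109756, -18889206741423319666913026724735862234, -3235342155288734035605615577350596264, -554662494712697892864655971091344925, -95185485954469975120368918050694588, -16352280202482384613443965617391672, -2812451570132528470576880692528587, -484312546125099657955347727011522, -83509629895324010845916687445943, -14419672889179786342371514037582, -2493571757030288626690716017070, -431894315619485710161167544948, -74931760795960587515510306443, -13023665541145480039018607312, -2267921155068176427980795577, -395732267275568980810700828, -69200335001871423628205266, -12128467132015529970932325, -2130865393804752521683088, -375339140975417370041674, -66294744924718424997983, -11743461560759703181576, -2086673148435876053142, -371996690445908363009, -66548959215418552716, -11949751747334305958, -2154255363981858944, -390004358952313134, -70924855773667386, -12960306859106508, -2380508581627423, -439638548967394,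 -81687549889501, -15265150552547, -2878669777609, -542506333132, -105947673736, -18988745708, -4611290163, -339222860, -414883090, 124931677, -97710484, 51336657, -30133531, 16593780, -9158254, 4941280, -2633336]
def aQ0 : K.PL := [5009726941704414264562911955100112663510532618054, -426384396930408808530793242270352756766420390296, -18149267547859027683378365988248412786504644354, -1545662587821847668534925011678199593216738910, -164632504560995725771868720005231338996500740, -19653392245064052238013723374327986763175481, -2515901785771848445300716380281504424236658, -337747702437997326823910835533834314121486, -46941537225832836496769438749355406815322, -6700286458520688481785317907266989223336, -976952796163959109550446355711435651908, -144969852721966825639138889562812102858, -21834254310674297155116896450807264948, -3331131367797423418371154121747683496, -514025885715076256994290919989684578, -80133869670568492383945618500049895, -12609384668780203800384078149054127, -2001289505836593631481593531186409, -320198155731393828070242594913230, -51620704877852182020428986711967, -8382365374914654936056344230599, -1370623612216391429529023352065, -225618233870045124848062992834, -37380858598107147489711552564, -6232666792299783553172305698, -1045662541679387291786232565, -176504789400039707772873780, -29973142771157583609592260, -5120242211073385813772945, -879852650757929864023117, -152081366463667636986151, -26441151406907006181913, -4624032116736464038924, -813394914902327344416, -143923792268637833329,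 -25617184405106367541, -4586931104301000742, -826299060444067687, -149767474770668660, -27315745423651281, -5014032793223901, -926416120324630, -172340698178352, -32279178192134, -6094873761791, -1156379718069, -223375893690, -42060934996, -8932867060, -1300671453, -545055948, 64851800, -91747288, 43018878, -27004594, 14846758, -8380898, 4580588, -2481155, 1320076]
theorem a_chk0 : K.checkM true 7 18 60 1024 3072 tab2 (-1504) 256 (2 ^ 20) 15 aL0 aQ0 = true := by
  decide +kernel
end TWP.C
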