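import Pool.Agent.TWP.C.Tab
namespace TWP.C
def aL1 : K.PL := [-34390964204810090126410215572680670658064630807, -8093892512441877804050027603174454285284386715, -1905341156711226333122488433291382185490558140, -448667601318419422325012410012100707802136239, -105693434247951151845321460529592970392039322, -24910228222492897666446810937500460591122999, -5874207962925064153339003650080431086846732, -1386113899878176061679615528794296192753506, -327313000547027421876674422777516447508109, -77353481890468554039835033652327180390706, -18297308972989081913501216557493816497325, -4332363247809891155118426825368985160686, -1026912816903750195211428760269476896017, -243700015527048342584667086557003994085, -57907474560277482870181308769080873723, -13778959424495588062870043555981623850, -3283587931192587506847623442727987887, -783756831883107689784165911424463216, -187398934349046156728365862668711932, -44891232141093576536455383962915553, -10775150948926791080057008426755745, -2591880973969656171382765184914807, -624889265284094482457719466996939, -151028307518149499041379950931108, -36597960753625736174822578432106, -8893652852044362265493840711793, -2167783499055913043192402159407, -530101029903062227042158105753, -130080026674192814429660250318, -32039267478172506487980278648, -7923095000551297413483510838, -1967789167206578935855872696, -490994862136462689645791183, -123125256736249699902282244, -31042901079054966863534879, -7872528260932826781715684, -2009171501409357516173339, -516311500486879821886681, -133682170515476336933282,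 -34899557747770613951376, -9194419542169814485434, -2446982790037689081623, -658676056710330801986, -179589099778735194351, -49680131551077828533, -13968900330571897921, -3998876675312172289, -1166806595472159993, -346946835852512127, -104943817292319332, -32129796710122580, -9897696059727742, -3027219784597965, -913602996381546, -262501068135397, -72881391153665, -16629630427523, -3762839045589, 149850315904, 42021346453]
def aQ1 : K.PL := [4763850407197229201835488836377109837415320935437, -560496836425698351316434933975553631881191732575, -32983313207222302284740430226451357373980486735, -3883940401655931691117231611802729705002907584, -572110030851402559329104177209776788767483339, -94474654862708659973711723606877073804730583, -16734682043304046711980332769624418662051281, -3109703604136535687655212246460575429896447, -598505710435264299339623464484127689475112, -118357326597476853165512308325626063593077, -23921988525390384650812467911788190710303, -4923557711633544059602375482323235857717, -1029194243820615398539986024717058968125, -218078217644371831138866640602626769739, -46772901645436443457727197687697024344, -10142947911325144618255387390481520027, -2222044128235036449941465514086405415, -491442327934148974728824260252624487, -109672784812634118909527663783788406, -24686217630664442810051633006857829, -5602732723998655611843509565229931, -1281813237420581283294664268689880, -295557917295861164112904515251901, -68673038078835121845618045868889, -16076987166643608844652812139364, -3791931843318350301653255621948,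 -901008209546111362428167384202, -215672844949788123427462944754, -52006488625087342254605805840, -12633464883197113213490114676, -3091782108475966860947946730, -762337183577941359271734170, -189400207560529176544816177, -47420569059148707250760119, -11966869758674198179510339, -3044499825569559808928679, -781070914674312212933109, -202139128074977408985080, -52793210532785541747846, -13922010636670849854179, -3709452627504767911518, -999458811543938987899, -272597853661269111484, -75359695988746087211, -21147724819785131132, -6033650139734244180, -1752663727088395647, -518709746866394208, -156338481561671537, -47857519068125299, -14815247926869597, -4596431930683612, -1419081354741059, -426624933449759, -124881632749265, -33043172174726, -8414168059971, -1207254261914, -202378801542, 240731336300]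
theorem a_chk1 : K.checkM true 7 18 60 1024 3072 tab2 (-1360) 320 (2 ^ 20) 19 aL1 aQ1 = true := by
  decide +kernel
end TWP.C
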