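import Pool.Agent.TWP.C.Tab
namespace TWP.C
def aL2 : K.PL := [-38464780583388597204055404908043224285868794152, -8100511847201328381169148196402121406582153432, -1706494595725898060456743185146469313952587508, -359657424610799239807312167583706137969217826, -75842696261649613276509153994357616361411048, -16004009861248699143657511638440943383822189, -3379751532209433611962453423190340418930430, -714386733352627500988612650293903693563140, -151156808405664540791123776242917893768272, -32020084033441255882169134687711344545988, -6791633508759587597978856944143168750165, -1442586507755718809573208841280014337947, -306892838655436064220834508868682221139, -65399332544097377960236447215711853023, -13962699918881481806238564531402942574, -2987079793532865834083844047499521802, -640445088382555806914332046809916605, -137643629412436472917901712421928456, -29659023069577330511349744431962474, -6408821120254673485783611265294503, -1389062375313498708093067362974242, -302063359015410329306595774505996, -65921547622916965954464137913497, -14442470919399725791186777019737, -3177496880555957367708132458552, -702292638570582031826030648367, -155997556094866911344527002863, -34840315842653480889432725409, -7827686050847284023957216056, -1770206271049515291899134453, -403220408884898320662690207, -92581693471989591092827208, -21447085572789091737720152, -5018199645886648102606996, -1187522883788553816166608, -284676677739585163488931, -69264335934454317128829, -17141325857732378469328, -4323843933120683315168, -1113418067610163853198,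 -292747758062556635116, -78427801644734820789, -21298379740965704344, -5812350067651983049, -1574322206718387757, -416209387693518869, -104925262529445562, -24293752284843827, -4770866207951226, -595564841096503, 79125914490273, 96028582205962, 46552499563641, 17436571007876, 5579803564660, 1560529669451, 376481802805, 73492992285, 8840529548, -1014070880]
def aQ2 : K.PL := [4504568430716234774422939915972676219723042701235, -474217015936545604356196535246606031174044344152, -24972474893650363003851907313991296410443818136, -2632051205650606256537412258665296773115831822, -347123528348892724491909914168160314608488001, -51341473154181235420855791845732044481198072, -8149347269354753049603787958879558432206770, -1357747241360661894668047995668803944732404, -234446473935843920300701444352890473503445, -41626101654588581815543263817941553135863, -7559995415543033568953312761922262179437, -1399438890000771086305561350170962640018, -263364940344092438317939518116309950529, -50295725750818436799010997636913571160, -9733753957158346096154813515134772261, -1907050907222773537029153819535284899, -377956960142427133516765534060920720, -75729875261897239794638496705375640, -15333639897015053441339614161440481, -3136406304239318914656275035476163, -647920852017288779451103671056851, -135156908641068622759743044765952, -28466292915065859880406028854902, -6053020695918998569524147613111, -1299436212086553878526617783272, -281638879751982434586589176036, -61633856746406701899072587289, -13620476464182371918783027047,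 -3040148005742996233234568545, -685552951671907677280215784, -156237040329299366620855608, -36001923718269910795166133, -8393287708324402385892982, -1981311894062996387683988, -474071599723732382099825, -115129588891534079360610, -28424226303189500626107, -7147149397958086855270, -1833358721783044561431, -480239464150523190655, -128392065039097895447, -34932833770888854962, -9615390323061861147, -2652704798788320692, -724097056744953345, -192229227601773521, -48443124829339968, -11132883859619482, -2133942436336590, -237588869290373, 53079575873382, 50717759636046, 23696113327006, 8736916083081, 2768360907307, 767766477699, 183430008613, 35219633091, 4000828968, -606564658]
theorem a_chk2 : K.checkM true 7 18 60 1024 3072 tab2 (-1216) 256 (2 ^ 20) 14 aL2 aQ2 = true := by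
  decide +kernel
end TWP.C
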