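import Pool.Agent.TWP.C.Tab
namespace TWP.C
def aL20 : K.PL := [-1141655972845732731972243447087319776192317872062, -137072358069143016046989726576451096651725300855, -2327541108641122124808584912712867193171655141, 540051895780923175130475123742518556061189422, -2763528339391858230288053329863884691057922, -3903850328944899524805903537198240358046064, 112680252106125841453402344072820866820121, 27753701847697578496194779935706663616630, -1361392333330346355301257594222953819149, -187475610859620531458004286037190571332, 12985163371003476976578399972578915589, 1206675705509902007622532692263152642, -111533500637605694053493205202708773, -7405416995128071892205726261272947, 904727748091203481027489562445798, 42904915879784784112987743911578, -7081692404064329580558874917872, -227898242941044662978042019404, 54038799740352633847342984935, 1024410692799844564267878024, -403916075871904559711444624, -2759378106422318666237341, 2963266641405033859790629, -14183757942234504211722, -21349604723901280102939, 349318753376031052867, 151006920785331065471, -4279077172267258690, -1047380372472104693, 43165204578311949, 7109545630447378, -395584303909624, -47076639292133, 3416820650160, 302520827063, -28311526776, -1870677624, 227247854, 10965135, -1777298, -59133, 13592, 272, -102, -1, 0, -1, -1, -1, -1, -1, -1, -1, -1, -1, -1, -1, -1, -1, -1]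
def aQ20 : K.PL := [563716084157597915655499686838820020722147366314, -110087087490894277983116066895510982144550648907, 4140577642338260632047893397266192830166178264, 516062206630161116158044051889362339886602778, -25489882500849103213108414236975594354397362, -3841430431937633791644244884819938120928576, 200082073386743367956063246891999912246990, 27320206318471652310235260677188863953021, -1663326716368873848306289758077009459345, -184105896476905166306352105923681823840, 13856077121100759719967712179867712152, 1185863950840954565515836317797560126, -113295030434263034741899857424909692, -7302847441202346491440199056479543, 904563691086541927946659929421115, 42497830042474198410177815646581, -7055576283281163637879416208144, -226668943235415611202918132329, 53861117778115961767986404981, 1022455076313326990902445530, -403064818770607833516778275, -2766672341603996185486847, 2959953642467606943679414, -14093361156953758399303, -21339086870956257300626, 348761194194987466347, 150982762071093782421, -4276430724269189554, -1047369204881135808, 43154823624626441, 7109834923022887, -395551186076544, -47078863595155, 3416746538976, 302532191080, -28311520577, -1870724198, 227249004, 10965291, -1777307, -59133, 13592, 272, -102, -1, 0, -1, -1, 0, -1, 0, -1, 0, -1, 0, -1, 0, -1, 0, -1]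
theorem a_chk20 : K.checkM true 7 18 60 1024 3072 tab2 (-4) 16 (2 ^ 20) 1 aL20 aQ20 = true := by
  decide +kernel
end TWP.C
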