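import Pool.Agent.TWP.C.Tab
namespace TWP.C
def aL21 : K.PL := [-1210706823414552021967170777267952298038406561128, -138997437901649584416998488738160915010672860434, -1526365165218759127547151705358827498398162173, 525105009536014856877509625680340011001003472, -11985829554012652420177079759440211062737409, -3430998509538198499636855058404498205253230, 198506121407466610883567404427025624278575, 20837583316537025762247013718485713497572, -2037765968146699021368428836992102381093, -109296795941951082124530278303886014978, 17576550346876293986488420475505524512, 436897393019135186200766998408796268, -137479670675966112523671414158531739, -461027851240740453438155256550837, 1005156170702912666917249257693056, -15931211337796741306503652866579, -6948458876186690062119580006171, 246015126188460868463658121698, 45423077028606900170332938159, -2623703579100575407885123708, -277997800140123754586304170, 24095998617765344824073865, 1552266853243196997730101, -202594207415447484376127, -7402285627943592427263, 1598176430661886414708, 23519173168363329859, -11958254047286190291, 53653713663884820, 85199873364036662, -1976922423862394, -577300356004910, 25026650452434, 3694692891379, -249382907644, -21980814400, 2208140130, 117246901, -18107514, -507256, 140009, 1043, -1029, 11, 7, -1, -1, -1, -1, -1, -1, -1, -1, -1, -1, -1, -1, -1, -1, -1]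
def aQ21 : K.PL := [509770482769085449422982461024772463220862286515, -105573368188455188330542370053080145455371722957, 4871839069391747902359380517553444773927915399, 456035694926507126204553985642380738814040155, -34231578579998020882131166068308297773816417, -3110729306572685264032227854179016219494747, 282323655866097818029767355101177631842943, 19239271286669058900369218699029829647198, -2315218498123087907729020425668465828134, -101902572593231753318045767095293526496, 18307556023908659487323371251213800000, 407478129855978279061365675275307797, -138598227147439502127792432345323399, -368329609556624254716941600972300, 1002792756660590387815891200367200, -16105767293647750530524431116944, -6918677445534420221941159094872, 245677703416097513867355953017, 45264639051378134911597062029, -2618104969024733467962119653, -277388455766507257653021987, 24060161705114792651737355, 1550542901048709317159071, -202424399349136331112225, -7399753517602060712252, 1597527805212986731925, 23527693517052699537, -11956307785541485013, 53559111260493113, 85196209292884271, -1976414459748977, -577304582881629, 25024652003712, 3694778041715, -249377102865, -21981339228, 2208131330, 117249231, -18107544, -507264, 140010, 1043, -1029, 11, 7, -1, -1, 0, -1, 0, -1, 0, -1, 0, -1, 0, -1, 0, -1, 0]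
theorem a_chk21 : K.checkM true 7 18 60 1024 3072 tab2 (4) 16 (2 ^ 20) 1 aL21 aQ21 = true := by
  decide +kernel
end TWP.C
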