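import Pool.Agent.TWP.C.Tab
namespace TWP.C
def aL22 : K.PL := [-1298050402569219430183962006071571583079793099536, -210456356742457125830201270973822131893229904006, -1299980191786442012217062149539382893649116929, 1629474638637134094478651148008570294613989342, -108283725138768992453809618846027479668234415, -19327599467804432648440220951211587901291503, 3026671033213823544783727895893801058566148, 164681077799165652992125150535275723053663, -59875902945720866038860095769245817363163, 103528581035427786914992936910900744772, 988926630666193981788840488167858753755, -45402935259492332536574567688081662328, -14142987513663809759936133415223468929, 1333573930342062855308895969014596764, 171860208655383855260435633319187340, -28539517905894690193568425516088439, -1572667445744972529644804037911254, 521229669366348454694237139413777, 3709309962102429898481945103303, -8480136603219250319153113609341, 288539469449395952810747983722, 123657482146359349642097735106, -9676601306750710505584783814, -1579759825703643187221708776, 219338715842435142858862178, 16271141753271265667345326, -4172209896837479722749169, -89349181925086819135967, 70358327692657536476598, -1450915422984556075389, -1065522185233860780345, 66802496845822799303, 14302527252091999904, -1653396424279473690, -161019893861515761, 33025646891877892, 1223026685027147, -578101016797349, 4103123846795, 9075414580474, -437010932672, -127223686178, 12194005314, 1535163888, -257797877,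 -13995672, 4694738, 31647, -76361, 2618, 1113, -88, -15, 1, 0, -1, -1, -1, -1, -1]
def aQ22 : K.PL := [445796024130030990198609356046831829318403666575, -148477179345453266702662093140511537557321570159, 12689464316175755744810949576255868756842258019, 1214237089858992339175754294303978355506446176, -213433433371716274362111033297668702006027496, -14635881547367765007921823437659957724415275, 3869167146865315868759086499021150770948390, 115785670601757096954727768780018633335745, -65623671631246276816361007715444648042397, 537188824402839934303890710241589094739, 1018104326141260045335043451022678208711, -48449244654560721372511410284602209399, -14202784657434403576147034074062058553, 1346942181032792951809145715449289191, 171064287902838279715127475561721869, -28505425148551819655153946536071808, -1560564175767362841105075469588630, 519641126659823537568133770302331, 3621026025663229856253511359715, -8458277124460413969385745085325, 288731797976326926028981671328, 123444614815208383989859843700, -9671678534529312845942380210, -1578172415303283008455834831, 219246952096935512638004978, 16262915855000279325651482, -4171221716633002866146105, -89340038160627031241008, 70350824282967485496983, -1450492718671340766548, -1065488257483858975360, 66796064380420195498, 14302613588472697362, -1653336932797848684, -161023885900449348, 33025276008454573, 1223080142596758, -578100129937691, 4102629158470, 9075429543375, -437007612136, -127223968881,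 12193993120, 1535166857, -257797942, -13995694, 4694740, 31648, -76361, 2618, 1113, -88, -15, 1, 0, -1, 0, 0, -1, 0]
theorem a_chk22 : K.checkM true 7 18 60 1024 3072 tab2 (14) 24 (2 ^ 20) 1 aL22 aQ22 = true := by
  decide +kernel
end TWP.C
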