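import Pool.Agent.TWP.C.Tab
namespace TWP.C
def aL23 : K.PL := [-1420949243143949150356353616327664071614433329241, -280540642758218209682352619568359265809857435089, 2306812052036851745569788681767801978491478212, 3137195970773886372022602336025633441224951536, -469459235136103684080310095800797997058209454, -34578954650758319807986770909855487397037995, 17713001733345933829762988809949667904734473, -691515415762205056260649679582265536958271, -463029278433713495194858003346819984924712, 60367835648941991104080052262988117499439, 8337849049920114158491547703179114693164, -2398882937731942904020500738397763446705, -44381516998136633783933737990607689442, 70720256395021801298550571069918438066, -4284907587399583134166578060382053371, -1629879777421701567770894184207459331, 244949156919244640637945132393252898, 26089046655471068707834914354124118, -8781722305287840385484563807176149, -41193498030426468874867012879450, 245540514425706586696536122118207, -17837224991929084462010360198498, -5398961232401456803627169945801, 909416169598474172766501705604, 78811742040666973487670872532, -31193790412043235681213389972, 232296424909329396017046009, 843402252018830007637692042, -71516689924745896600192323, -17769766465952354641127113, 3346382293408470537704968, 232440717769575875653606, -110349386070662272409045, 2097412940436594260376, 2885458789214509336680, -280606605560432494343, -58027260748900718605, 12227352858288890355, 658801159739367876, -388508332402083827, 11790219893411552,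 9818968404120475, -1083381227266906, -187545982198147, 44392291507153, 1753182956052, -1361225117067, 56638658586, 33219959641, -4127897812, -598815759, 160208790, 4172401, -4746279, 251075, 111694, -15554, -1885, 574, 7]
def aQ23 : K.PL := [363717751778741278140101144439399423796944283777, -176812824189469390585376780831715367449812422186, 25522454616622285963270211208333636589047992880, 1616613455023410641936946801412814841876064770, -746153079294071747348382612360223057565350936, -4095223311371502118630669738853533675900754, 21061270034532535521061509406891403439771891, -1214647828403019523023204988771426949535106, -494257951039394022198253682002957844930403, 67629611249344714540911564441172465799997, 8497033705842924896026416553727979455291, -2473688869668354980347908484493300263859, -43691437685816204343698367805077799002, 71097656914336255697602945129070644738, -4297937454223137437376021439966589422, -1624729292071042956676028370665746520, 244529720742500656466278250329818772, 25911670601500575451422433387598040, -8760889325559483868060336669291080, -38422024786505889116642121572753, 245034757034138014385607544076783, -17861454028605593760676422118444, -5390264737568232373202053374575, 909379252222602138800159260311, 78701018801008879778352652382, -31188086163092630968168642430, 233209424752442510613892975, 843289075313349174862867163, -71516702678757491484087763, -17768603508768095872707764, 3346220250618439524191000, 232442169022986874905049, -110346076430591456512869,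 2097067360997626081548, 2885422792600490663459, -280598064625444941887, -58027209071868522067, 12227218622245815867, 658808420537903955, -388506929328590730, 11790035848625965, 9818963125529562, -1083378542853048, -187546138575863, 44392270191829, 1753187355746, -1361225227843, 56638595963, 33219967199, -4127897392, -598815916, 160208795, 4172403, -4746279, 251075, 111694, -15554, -1885, 574, 7]
theorem a_chk23 : K.checkM true 7 18 60 1024 3072 tab2 (28) 32 (2 ^ 20) 1 aL23 aQ23 = true := by
  decide +kernel
end TWP.C
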