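import Pool.Agent.TWP.C.Tab
namespace TWP.C
def aL24 : K.PL := [-1560280864128876849835045171809675487519351393949, -276123250395659053609198181681202343573803103602, 6281161205121696531412716374693455165439346892, 2153875130118409011557336512503654482603169654, -494275118216355587393248365597278983249254220, 12212189940959721177550048815087061691369990, 12760398672265382487724462852377719131459838, -1924083514307171423809724176476091844520484, -145848761831148044244436118249799282048276, 70640274733408613607159409544822586281459, -3447936344005065175902529931953458986759, -1583781581161323325600350124869950430049, 255571368149607117325052799021119269230, 16730331668633611815632215112349113758, -8510140749820767767579601218560023189, 409521009258579954061219392549236059, 184380959613893755890552113680093130, -29310024994589586363472607831238631, -1930789242013931788399678403230663, 967413336783787440652120995254456, -46095797102410269071226191400044, -20912459980284051944100767515334, 3315485820911389746569944238042, 219554258191060751220416152778, -109585803260826886052009065600, 5192930291136228430433609770, 2373747147091894674616870933, -375182717214170632412326987, -25086042097423701154507006, 12425061937119939656272391, -582880627255466904536331, -269770510150515197403274, 42436478806579779310987, 2872149350463981805019, -1408789473437957387073, 65341011826466389077, 30662221676774234732, -4799229463879329535, -328872064361859309, 159729717244952480, -7323211922744673,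 -3485072054261410, 542750648743575, 37653673147100, -18110314734286, 820648019187, 396110870532, -61379571336, -4310684633, 2053349289, -91948695, -45021008, 6941277, 493447, -232807, 10300, 5116, -785, -57, 26]
def aQ24 : K.PL := [281847585278245546851667381326942089535371011457, -150448478016658762846160253924554542107616938719, 26841777989739896641282806540237545169715394358, 163295555325194661094433013252314927341483243, -684600033085495841020738133037968903173719638, 49833586496204138427585985053549870995672642, 14136375668537969921816528702490747865664013, -2505902773244658721423676726304709829424581, -144115342281250166159442428628340359757047, 77704769773844444172369471395820274512340, -3675713241772485241765037643134248425592, -1647326911839811818203815306511115435530, 258635920756687169781677222860025440021, 17102413824347897001420759349981759639, -8507528338718451533525448030731614642, 407827244741581275472115102082605798, 183427602688598747869807702593154379, -29255729547328224514321169177993386, -1907948594850012309039832218923006, 965381300966213850114481203821988, -46423455383072827728375529567372, -20865497239407543326372359999630, 3318336025038583502082711362690, 218795271611160599419768331418, -109589489393013156909984177720, 5201654556075447446637302752, 2373426309436316903746797223, -375243326480975554441547858, -25081453361544797913432687, 12425020821732959450051386, -582870566566871181182633, -269764009740711723179427, 42434813373154280110529,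 2872112947239770559261, -1408750430877667818245, 65339306669876954733, 30661666729086073407, -4799173211324055624, -328867311666028640, 159728742173953175, -7323215988109754, -3485061401206887, 542750057851389, 37653625226125, -18110306054452, 820647221653, 396110871657, -61379550620, -4310687192, 2053349098, -91948633, -45021009, 6941276, 493447, -232807, 10300, 5116, -785, -57, 26]
theorem a_chk24 : K.checkM true 7 18 60 1024 3072 tab2 (44) 32 (2 ^ 20) 1 aL24 aQ24 = true := by
  decide +kernel
end TWP.C
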