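import Pool.Agent.TWP.C.Tab
namespace TWP.C
def aL25 : K.PL := [-1696533291284616182197373987503481723520398039968, -268467828679503245918552830876216204133608640892, 8796481953805551304492397821365831832932663150, 1223380772354403705539235523169997487835550076, -424685843135360632616462419744728926160774609, 39890346645919498154450015763843012136696168, 5682587450014933755816129766184688576626098, -1949540995625481911572848648300077286688222, 108786413120957113528389453684335164712831, 38912650326426395684546081406319891614498, -7819232286320455527738820409747674062667, -57101435949380414580816038805553125677, 209098099109853957839942680847070785244, -23691969947203997034929111586458301262, -2459002706129086119017003547202013341, 889960657468109791498040478312435149, -44684229892097562156834615845228023, -16909782444918562960618319265597593, 3140015840765909153087569910479701, 45931109557431196881924214951518, -83911370004324328125187339090690, 8920469607131809633955489387143, 1026021901835858645743137409427, -346066592006957933808289746559, 15875069521153224557998334772, 6747361703223469884721063337, -1206117708921332973083271241, -24072100551106167905349109, 33039560249950484766799903, -3358668382992178340205687, -423370365673515208530703, 134700771645305817001334, -5560858001843540442429, -2700578005798337931496, 462656269653109104518, 12055484668207202357, -13009348302474396712, 1257807111477445771, 174435667059635000, -52346118679821886, 1913398262481576,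 1079134546225578, -177160534134736, -5741858485430, 5116500702598, -469679525407, -71603015186, 20321725045, -645716762, -430578799, 67744601, 2643781, -2010214, 174835, 29293, -7882, 212, 171, -26, -2]
def aQ25 : K.PL := [213313173397268733854865470169464009061441717144, -123808585257197735236742063330130534642413352573, 26133679607776540390677617976604345503248677315, -1051615875370129455885519691939273195517949311, -518308316752990398106018942471196204728330336, 78650658290749763634859827058567013540254839, 5104650407046221486070813052210382550020580, -2465487565255004783730656135403878286920699, 138546715052653954921121925793481132825181, 44065368092473820920752888779272404499043, -8332744510423476926187306168188762825725, -95144129132769428509024782630317546567, 214452032579466300836828664100278247208, -23399625823244004297433935388897413162, -2489602656392468751491061565015610597, 884206997037566314973609527392104586, -44616014848102178308641584042684476, -16764742133795054213557650540049527, 3136323471803062124761471540920511, 43233780161656882555909155398588, -83738823191854455544833349261367, 8955846090115830006073147403364, 1021971847796703184839664350459, -346372186571731817695969015016, 15938088164008826677994146561, 6748492046963346638497877779, -1206812542659145405908116913, -24064458928054753572327588, 33044966621560344151320220, -3358659123037032900766265, -423406872098558783062727, 134695191510607166532300, -5560227250106224354515, -2700439769792019299968,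 462638404834168415116, 12053678588253380681, -13008970662374598706, 1257817171238039127, 174429946659423334, -52345998629885705, 1913461027218398, 1079130898172139, -177161019072380, -5741817720783, 5116503686867, -469679612646, -71603060351, 20321720626, -645715435, -430578738, 67744572, 2643781, -2010213, 174835, 29294, -7882, 212, 171, -26, -2]
theorem a_chk25 : K.checkM true 7 18 60 1024 3072 tab2 (60) 32 (2 ^ 20) 1 aL25 aQ25 = true := by
  decide +kernel
end TWP.C
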