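import Pool.Agent.TWP.C.Tab
namespace TWP.C
def aL26 : K.PL := [-1828440384778263134401476389381147669682088749446, -258952828065584756323779593082827557011591232529, 10048492490558881855556841377443779706863374847, 483910965026053715119842179592446100697891703, -311575791000860588015756578079167704632507215, 47710139690923177853213573009034953917733177, -71489489776457912315122907099868534700495, -1278152586861352422448043975745417607892944, 200191814858462253326460933769176759275541, 3633260021623857090032613682200142304317, -5608112408271883512770554811326226539466, 690934602231326806621618681033147047177, 42314881157641123556138626339494631137, -22369628247751051552418120622717407385, 2013118450268327265326676203777106582, 256632815469584414639414621547163689, -81885514292273261808210295874666429, 5056033194852448750048537180274890, 1230289749403073326836804029058356, -285151733979366197720004992060829, 9963895359391380526163344423327, 5321146897152061172480147426889, -957577745407163724177173180879, 5570579440336219729362586755, 21700393274472189867651763118, -3082590909197370856313679131, -89886745325541210990609107, 84529794705118419948784998, -9379643208043095304179255, -707939353485897853027981, 316131449810633602608304, -26347474034544898521997, -3832761939702246225631, 1138382215654949664377, -64790601225655519020, -17886546478356505478, 3948891389859018177, -117136818965029855, -76665833697874591, 13161742664861304, 9304729266172, -309838833283231,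 41875278505768, 1575152279580, -1195754539370, 125519896056, 10981843280, -4434730199, 345010591, 57100264, -15846040, 814050, 260915, -54532, 1291, 1103, -181, -2, 4, -1]
def aQ26 : K.PL := [157780973367137014837153701105473068351667952392, -98697495878609923329092573328932209515185022049, 23880345821495550037410733869465211428503811308, -1883944986641014118136293339090139690142445929, -312573297826414973126710506230771525829542611, 82272536413778385358993388702872112309584003, -2200022162865740138716736828497785983500862, -1637031415347111062858674212527196484441738, 246753383702688036373388327440494458378249, 5853281863073801487078228387088333868085, -6234493103446213372881140674240642868318, 688868774845650223108785335758995947638, 48579439417349887799970075903957369311, -22418171273397849182326968856523407352, 1952185827767167880777255644237182617, 255433970538158592769660132044796268, -80982783207273187371057348337133650, 5086708388282387795375330111879701, 1213009764053920625237947446125584, -285131692947543724470826992869260, 10247700626461585434242827126248, 5308137303809010873560985690606, -961067899986441906024731320839, 5904510075587530493889329646, 21730413228833309760106011097, -3087799926072472870492053718, -90043320236270067620377420, 84590079144614291302173501, -9379190782248356065344620, -708558463821639364178470, 316122142540773182538612, -26339680346896597411539, -3832522633507059833101, 1138250499731332802309, -64792103107221963638,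 -17884336368619189746, 3948832223985265876, -117167075905996114, -76663752259356130, 13162058901216039, 9266351689869, -309841267752649, 41875790276963, 1575167084861, -1195760315700, 125519761018, 10981912676, -4434727968, 345009541, 57100240, -15846023, 814050, 260914, -54532, 1291, 1103, -181, -2, 4, -1]
theorem a_chk26 : K.checkM true 7 18 60 1024 3072 tab2 (76) 32 (2 ^ 20) 1 aL26 aQ26 = true := by
  decide +kernel
end TWP.C
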