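import Pool.Agent.TWP.C.Tab
namespace TWP.C
def aL27 : K.PL := [-1955362179681486194915760853374190819419873107490, -248682421492532363945664795311573542446563662896, 10365814813295191405635181343036479944666148525, -22589645887863977235728312237512637960769116, -197286867394276772119263609813373783443626286, 42176306388008313294114602510412417112021795, -3168826169970679004067148759749366123441554, -514050929756841561758835261594455303947996, 168213711655972348074006745375913941527535, -14603665703525138705448059754725580937848, -1768777971481636056992635690756347444157, 612133823847533654877768541997791352119, -50778054957282649824760845309612083878, -6303202685095678718812140664992952507, 2052453779445766402497705601767069073, -162015080605257793737387444173931996, -21044369609966359975254477025515864, 6615158281261134606689327106475443, -518501243221317072848793240449150, -66971718438514809405926643867312, 21206132706218474813053376745442, -1691746503956966835434663252026, -210969768337883834974901979027, 68322062078246402731295030848, -5550160821403481749933264572, -668586951183534576099456740, 220670474041556773436092239, -18151532384681655575538266, -2128509299335048455944027, 712388100598422880913997, -59185471681865757797290, -6778226823238992265574, 2297657097377837910887, -192814671702454356063, -21561210573339436295, 7407825542625319867, -628204710394488022, -68534776172534433, 23883021535043897, -2046872488681628, -217786249391366, 77001488392992,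 -6668495001920, -691951528140, 248254189820, -21721286262, -2197946090, 800329690, -70741238, -6979575, 2579980, -230357, -22157, 8316, -751, -71, 26, -3, -1, 0]
def aQ27 : K.PL := [114149807750440201517921287427296285958995794662, -76361261319130164739961264000033727749342471092, 20685380823924455075082668870048889430804955906, -2312057187890842076024010831779149080343470738, -121220075263961323058576181757062779158676141, 68807495513384198405181064464059267673632823, -6212355529062415851642388557687434008159100, -675989501556713225021931031828235216725247, 217864972475110555845532579144308646597840, -15377670251864003460999254558666152699994, -2308700807101576352148150515030009697476, 643958998063255143359199597840715091914, -46179684525193697782215953815011307867, -6746449306029286840954878225169487954, 2009077909683045305501406436564650808, -156584301624930984754572522974627622, -20465128766193904866206915344269936, 6524459441391671346553721493927712, -525474286820843510924181164482827, -65258501563565064831894069377681, 21236841536594062520893443421895, -1718599163617114494452860135146, -210044938513919442211403931924, 68637681461826748214690465563, -5577578505639487171414240230, -671227669059078398540108625, 221112320246488108308017792, -18137803475288852829499067, -2134034757649117027599681, 712382287617444895565410, -59119805227356882580527, -6779418522517122816773, 2296805958223994794622, -192778142990246497878, -21549939785405208284, 7406901538961890454,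 -628331056782425290, -68516386878207059, 23883952662738366, -2047159081381590, -217785930838844, 77005101162762, -6668640815755, -691990358064, 248257251049, -21720902918, -2197994914, 800326066, -70740494, -6979547, 2579969, -230357, -22157, 8316, -751, -71, 26, -3, -1, 0]
theorem a_chk27 : K.checkM true 7 18 60 1024 3072 tab2 (92) 32 (2 ^ 20) 1 aL27 aQ27 = true := by
  decide +kernel
end TWP.C
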