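import Pool.Agent.TWP.C.Tab
namespace TWP.C
def aL28 : K.PL := [-2077125825751613322145339172737129148163606585445, -238419652659169382604303984667659234940762481343, 10085481543486947586137243353242165341230663444, -320495246779517808798164621245020073979367069, -105304070065365151530788909475457793826364391, 31023703962799724707772269592211593880210579, -3959019706326904460735785309407808078989133, 12089360220319020350206241461399984886872, 93486662940806773374104930228325845514335, -16594356140235917803002586423648640108854, 646257907225828673908725404993802149471, 262382063622200711672159198527414736839, -55552137431647899464553764122886903848, 3166118533502261222471066022394234955, 655938859006417453326142434307040954, -165891493126117857214564481833167817, 12452851335669978035552316718578325, 1392161249559077680645838324422725, -466323362215543950244643618160867, 45211243454005355227456987660682, 2242107605354373280075713246104, -1263739946469634983113269073683, 154611901938232496672547939969, 1090894658290872946705155907, -3304700585440942120781529459, 500531535550767888106194455, -12080903449173591834453838, -8239399624656121408474273, 1544477388996747224085665, -76639975641676569243938, -19180093973472186697072, 4572327260097097974775, -332501216950746337407, -40058063325558654403, 13034480837415805135, -1244345478404063879, -67403875689309683, 35785132502058236, -4278209331255003, -49222442092172, 94280086580813, -13867418499777, 279353666442,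 236422545187, -42918695667, 1984067725, 555221644, -127645363, 8892490, 1179661, -365787, 33803, 2068, -1010, 117, 1, -3, 0, -1, -1]
def aQ28 : K.PL := [80845987597725949514452366822509172489256007487, -57450256796944760137221355112761626291828840873, 17115297248278890727263356272502422630036256980, -2399128905726847663505140598297524380055457110, 25431473814660404983967382967094879044427896, 48011594965988940034293251475981696394711575, -7236469305083898025963615793266251870641015, 34448252193146967561624198648293908748831, 134359863196447192785887923566561341411862, -19525977466810122485680307719049731745874, 339254332302827059125015717529665113483, 311704163446087396559756638176635460602, -54465793492179173724863511995184688438, 2587711911791427866106866459711229331, 662246406946462921242625491107649420, -159212900904819550948990237753335656, 12195765488113022644944905136518577, 1307452836602974357893800656970479, -459336552161206186959146522629066, 46133081202804429549446400668028, 2093168841882956380623071726982, -1268558750942901688455482698536, 156931622303595751813879974997, 1022059409244320586695342558, -3330746279258134891667336306, 502827509792010445645988707, -11882564871672680948411376, -8276986990285531383017625, 1543875311698413339265256, -76164381533986306361983, -19192534535332928388071, 4566951998484576655193, -332131517625524444466, -40003029420790763998, 13027234285030885209, -1244760580731510424, -67286501505634356, 35784931093249327,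 -4279759762854282, -49140511865525, 94295965888221, -13869269296796, 279245179476, 236450991193, -42918687083, 1983712745, 555237485, -127641587, 8892123, 1179629, -365780, 33803, 2068, -1010, 117, 1, -3, 0, -1, 0]
theorem a_chk28 : K.checkM true 7 18 60 1024 3072 tab2 (108) 32 (2 ^ 20) 1 aL28 aQ28 = true := by
  decide +kernel
end TWP.C
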