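import Pool.Agent.TWP.C.Tab
namespace TWP.C
def aL29 : K.PL := [-2193860017046521236861417602018477563180890707423, -228618235397585137011161018384345038853385941697, 9481894922431672326957896658060901028687923597, -463272657132363219479338696985136785585769943, -42191884702884194350017959509526791131563990, 19740497717349053338593023065979452131865013, -3425024179920552222147724732648966838002424, 250515996943198994981260155118434997993111, 29925896781842568058524682934076315125351, -11112242071835296163528199036662191054759, 1313105366548686080462555478160767726096, 8367935485690420776188927488413374590, -27916106538179615843847044837851257997, 4376632455677181181298997733429474443, -168684370972886128272428832557223325, -55331776560352614058902109748500055, 11975622189890206913515487319587196, -903176748161634129525001698770322, -73780677028066280142730489202499, 28533529962836540659877260059426, -3304286570372559540381232908743, 15332134410395629648676404406, 58836560563864464643105090818, -9999324561866871942100298034, 550583188037907102640475815, 96545532564708119624715860, -26235770035703383180222784, 2507274871333904666755038, 79390566120284433809301, -59935436198393402141614, 8345580407988982253929, -249134903444753529545, -114854586728475172812, 23472227667147264127, -1707093420748131364, -157634189100198908, 57688511296955873, -6525925730572031, -5089730242477, 122584695528098, -20024985010817, 999185083383, 209705590082, -53062027508,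 4794424720, 203407142, -122839905, 16361222, -392662, -240838, 46844, -3194, -351, 116, -13, -1, 0, -1, -1, -1]
def aQ29 : K.PL := [56102769914034715477029539632947843441013904359, -42107932217148103126765120065514935458473921208, 13608057391288294679843087829957911408683233827, -2246042790104048143089117100963218917579402594, 118987168940652014729736919594320040802704962, 27274392239207995737733266425491697274802186, -6372196546401676429001021034887122847038430, 406407020933840995825138466259391737774264, 55181240232301263584134329290481251004902, -14895788872094393205706072528612774037635, 1275597634015707900190619632305604590006, 53736417456977934991228626246430712440, -30109373148278918422435168050650445471, 3989264966290669339301337969005710002, -125620807120063349109461059310402097, -52727333612703964057616204560621782, 11331760765426399154075364003937714, -906881028943228463209400140208683, -64969248144399355524880222160004, 28093895194878214734682029719457, -3398128744382174648974432794459, 27137832097437145009699696153, 59319898447796761586236911432, -10183937194344846781501361121, 556396315218158585792099031, 98475738145166191391234531, -26427850687931925234776294, 2495603750042230919089858, 82389645579335836053898, -59967706341542256591952, 8311287737499665144663, -246860720005458820922, -114556994485410969393, 23427684552020215417, -1708385086350192494, -156995055493166415, 57668372402543935, -6532933136287012, -4416822524848, 122633552260771,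 -20036434156324, 999259732577, 209844099472, -53071190243, 4793250117, 203588900, -122835910, 16358743, -392570, -240812, 46842, -3194, -350, 117, -13, -1, 0, -1, 0, 0]
theorem a_chk29 : K.checkM true 7 18 60 1024 3072 tab2 (124) 32 (2 ^ 20) 1 aL29 aQ29 = true := by
  decide +kernel
end TWP.C
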