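import Pool.Agent.TWP.C.Tab
namespace TWP.C
def aL3 : K.PL := [-42991916678001862681105846111929519929163138811, -10120394675243988259065143061445222002009020284, -2383463630900659506231721697910623293761491838, -561678942318110647684883054181896564764175988, -132466326158605611873046206637361583364607080, -31270241064708954446383058492678585036815834, -7389887686468311650346199748119394469686980, -1748638629774011309484446789102572984954366, -414376802133053705917297778691887655307524, -98356887809705919371597998917799040154128, -23389067840838754301647652178904496148879, -5573260737520135950274569464312146739398, -1331034142786004949624600137321409520690, -318679418106437295383300559232243586972, -76509095556894008457483830501044207083, -18424026826590004114194513050580502679, -4451405654327753181665325183209272902, -1079423568146974251492080830957802517, -262799267659573021402768594670362452, -64263800304892945999046671146499439, -15791063061803010632508892722006890, -3901000605692938088244378637038935, -969408465642686118139175499314546, -242485988865124313004378347989390, -61100473290149273865418911592639, -15522777254665701546850551115111, -3980422922340165631854965730524, -1031566701819937426313564717924, -270634863658688402209642626320, -72021530351187707664209612965, -19488100015121094286972579610, -5375629264072344531760423773, -1515116409335037030210670331, -436841342396898298426311506, -128691666470427506727017781, -38555551678543502528303848, -11642078634669000152301473, -3495211284479599386312170,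 -1023926749930763227750060, -285075476358271506407014, -72258170906162470205805, -15166926967480157354073, -1774706261409854749012, 516423179526300238121, 506366949244130367528, 254218615872475988193, 100560423153547341606, 33856637421136196162, 9799204930657687662, 2354352262840314680, 406927100370347967, 10621379568186143, -30036753800295192, -16758309043678460, -6171415293469794, -1771923365376273, -392990566027665, -54450430514128, 3924055371689, 6033164758395]
def aQ3 : K.PL := [4260864359036089032149257102761305152175635700263, -501354827995919401866116760670287640064649923884, -29514060646827804462634519761947534438554077568, -3478468419746658583941769073358630897808969964, -513196018394869445138774048612681662787739374, -84958183027612561506878067428750329500517173, -15103704264960909488451119309538184898346692, -2820617337406019926958098222551055708470742, -546423982791916902199738249695524120886203, -108959370149328179010563162072973825493400, -22250566455792276421242625354111398738780, -4637221381942154130625526324588341765830, -983932297402639767302003833997875006936, -212185408276921739985379550604727545612, -46448321216133866636075631736379697902, -10311908764049799173440636174795775703, -2320289065517436089081324071349481087, -528908701312826893531768527653266546, -122101315263535917232769650372984123, -28541586299188565921566968643824774, -6754844589191578807137227049374742, -1618579533971416529003643666072805, -392714097406066128463171161755919, -96500336298946968080558189103519, -24023073255953986169004998419587,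 -6061464639854619728412536775910, -1551178539903150638316849014972, -402974994059149398190209407914, -106405732844832071716796739439, -28603835007273312603812052216, -7843386910016827278845707398, -2198328257902544097954647685, -630775557483604780125786277, -185318834235582555138017312, -55613013163831222343910890, -16944657028013252465935781, -5188824579047589890712816, -1573849046191959154161915, -463647039099606651869501, -129022888455120121066284, -32362921636921511288421, -6552469217438362046165, -615536887230262874319, 325180811403579847263, 267764871894855862430, 129520081068866149423, 50356173266882476901, 16757632223111336159, 4797627448329708430, 1135746537994897044, 189638726002595488, 1378109419728951, -15955216701682428, -8548148419055250, -3097863254999696, -878918145493432, -192061637949654, -25581532371847, 2428933720714, 3119859453895]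
theorem a_chk3 : K.checkM true 7 18 60 1024 3072 tab2 (-1088) 256 (2 ^ 20) 14 aL3 aQ3 = true := by
  decide +kernel
end TWP.C
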