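import Pool.Agent.TWP.C.Tab
namespace TWP.C
def aL30 : K.PL := [-2333160402280055307019074847778668415306931438982, -326005132662528280584122857462547088271040886810, 19249346021365231356027656070162723160872175434, -1710844511021678359781716652186435810035662630, 8969156258490753738694775468819886796529720, 69697400632975089003701721343587266918880772, -24927443755922941650978044159692499941721429, 4802547862511585726691490461321523735148083, -276100397402634496796512726244596914288581, -145762358995653844568924162929826271780635, 53047568497164379801727566246494777266376, -7775282846974013987089656853050063340912, -226189170054277708532197870518129354637, 373122707022930789347337396489999649850, -83505942211576698092679973709376644910, 6155142184060125267317809493455123405, 1634584584018790718695460799220694977, -627393794864085305022130196842310054, 94201356638380988239819703431223558, -365417710261004438155224261298702, -3370111952849622294334059536321303, 864328865213937616595078311746650, -93969342335010276192772320524038, -8549077884210073074979599368859, 5755825304601024475858478056655, -1148121990004828696305314831767, 73563489704318275563361535862, 25121863365904061901292630565, -9194901157625687743794177186, 1375315691322116321482559194, 1142884835157806172934999, -52404693756662061578098232, 13195562717968049992403496, -1353949592643885175029649, -155903832238646041637829, 90510874312250985774200, -17016298286744252359109, 890414637097195353323, 417369414744884805665, -139426746360040413936,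 19552445006540531284, 319601973548424825, -820993908893610800, 195963587661126620, -18580671959207948, -2708842971468952, 1389233466523641, -249379537794800, 10606690750830, 6746348680372, -2109739563606, 279176293841, 9082673362, -12859372339, 2913710788, -251661337, -46464275, 21289378, -3635223, 115511]
def aQ30 : K.PL := [34573002903258371698980827845524745380346752678, -41394596814707005381497007216153612060354300452, 21889111063758763147815440995375296238238951700, -6313788419783735095199839458062123037436748254, 864583870194291166762776077534483258824160964, 54765124761681007892118385674632177296225141, -48458839784514395764900786646724810440032580, 8731420733238490322505884163377258411615001, -149593501789909284754378350784379805286894, -268573237599219183161548728515716807952113, 64455412648195408477397474418860317353261, -5939431294904141024082144058177510837827, -705320575110468202400748054821694249839, 375684661918216318351663324136763909430, -71785908238196137625189187465042052541, 5001283373476466138466671728851304683, 1433289434646204046194378344166342404, -577205925356820420169056335213204028, 94910948252719054040376224195366631, -1857415254335116416133987887682803, -3232820318207467509376959164133279, 891847206165243412131356466761105, -100899948179444173061069859398821, -8541265124071430631727742444378, 5946287387501937322281523469637, -1169660117338918118082405273507, 70816909520793114532599652185, 25999293512611719819653125213, -9217027498991115325011834706, 1354453577937126730827413310,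 3933037229897895166849961, -52143642229507666809770505, 13094126589919137770079063, -1350411679817125578782466, -153540390453821314862159, 90168594422212460775648, -17044627017128258101271, 902735785178943339987, 416832901006566726480, -139705560978574571366, 19596961397835303790, 322398510311339462, -822501853638573796, 196049896014006970, -18549217491508634, -2714532272550371, 1388993352341288, -249200911787183, 10594198672275, 6742861774449, -2109033740842, 279195689170, 9061551422, -12857658186, 2914100476, -251749148, -46465486, 21291885, -3635457, 115468]
theorem a_chk30 : K.checkM true 7 18 60 1024 3072 tab2 (144) 48 (2 ^ 20) 1 aL30 aQ30 = true := by
  decide +kernel
end TWP.C
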