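import Pool.Agent.TWP.C.Tab
namespace TWP.C
def aL31 : K.PL := [-2517114663279021675778908930765053964280648942941, -407007225714426351328915112633264145934307744925, 29111372240266497694735100944668348200712603933, -3635309298979182806061302618391032963543364820, 364361162890757057320510705237973802494919684, 51985515027008371426538919071498569174788797, -52407376744981381548711869158496441240371053, 20243098942761201573302595528518163400274012, -4725005648249376956430634880963431252975736, 391025126349899836409330396700948480302025, 197400311999066278506801070859198575846600, -101203416712538322570364977279387779217246, 22735236311168852414716742410120641753071, -1263857229917596223816356461501904844664, -996278924657344466255827954516284638018, 404745918449625547237160070287006409701, -73769144697050188834394375553672879145, 953414879419499005875301662244278183, 3777148662782944198373944793658603726, -1280944048297998237088861420026567052, 215925546937103840905636008285616292, -2036975091943843090988500325560836, -11278075877106937918763355092935714, 3997014524493974492600835706769005, -741149580205468564817532852098715, 25329261337241240264815380545675, 34987912396105865139491598485145, -13710025429263555834076115210801, 2674998662648339293203183680957, -109709717617530052909296377352, -120018601901270360304014511069, 47355633388499435862509232347, -9112976909344062324894287946, 350769568865257172493126393, 406394947078669510837840296, -158026193713720483465318493, 30328795041477423392032881, -1237938124571944983857376,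 -1323583098246009206297234, 523536748427245573487187, -102600641278596876137612, 4812586382004162418773, 4303105062914620350950, -1753637844061804895610, 350517447442216989506, -18071340455748852791, -14178538557704483963, 5895233274477699059, -1191448005533973036, 65139462883723432, 46780653964216205, -19741806478896123, 4031952914814361, -234052386444719, -153459312314007, 65975338801039, -13656040734827, 845219891842, 502330332501, -220672273897]
def aQ31 : K.PL := [16723370917287276012722356685726015693841217163, -28802322953420662433807121433513780875193676647, 22474219310792705846080171515080313863406100608, -10117583177138143139830809923265016473651183195, 2637813936666413500036312607484549508972269784, -240396120092691217811913312139648174343294713, -97430302155704265821282172411138765186535325, 45205181634584010772222628122071965759734840, -7816400112690480994156613545123425951541823, -158984712807066293091341982552633467425555, 439892738213085988194558555344308229669442, -120650168822281067237425025045475920577614, 15683369012434917672610862089078682019162, 740325208319592640422252486541488511912, -1023611122178625801195027702858159466275, 323358447260170449507237998569400927597, -59563396637220481556378315868218868047, 2261198701581992997708199846023711796, 2926771013719278363369527849877602485, -1199581665458092235011662970405599314, 241233834000074379787186478620118230, -10117598356041569722243396931731097, -11045113422137346106501545955304318, 4327802471135605349857412266920485, -809827324418756598126291201707616,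 22341905025987551457786473776411, 38617650227563421446750691335540, -14210281053991510936062027162194, 2599593319811771768552958210691, -74327797464063092422044494802, -122762913739081204552992940558, 46253349642987838706485909263, -8802326568741108268432465240, 346827436961621694821204858, 393212709900176848687901508, -155603849841323584430684370, 30506015272432353129821395, -1376839814617919237158312, -1307795110802558415234394, 527077855229354893297739, -103918203894507600641569, 4879587966127504839623, 4350839150014560860832, -1764860428765083032757, 350304138621478335116, -17530887877809475455, -14261911878453248630, 5885332799689589571, -1186010688984090551, 64649534557109904, 46621122897643157, -19692490015637153, 4030644225022506, -236038347827622, -153060116155878, 65995936453225, -13677477349217, 847973157521, 502819636651, -220879764290]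
theorem a_chk31 : K.checkM true 7 18 60 1024 3072 tab2 (172) 64 (2 ^ 20) 2 aL31 aQ31 = true := by
  decide +kernel
end TWP.C
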