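import Pool.Agent.TWP.C.Tab
namespace TWP.C
def aL37 : K.PL := [-4162395249644090347790900313326535476258016956812, -507884640232423822070957645195754522698260218986, 30065545585455121063550118716682285536491455333, -3492955164218668220019376791263928743920678166, 500012316119832861537492911421269464981261153, -79226951301959572678333777986435131620219866, 13316113562095875642699264982778610603473382, -2324309059445278904496686068206486864768781, 416302194441658432240911210887771068702843, -75943573279705281574022837903125298205500, 14039317176209649873354726327461566801107, -2618951802354623086900259692766531948609, 489996606339026537276029349341035526958, -90548404006389574271041045966830632787, 15732936056452527944277654062672829801, -2104717945157048437292234548597102584, -88668252956177237962638228401524128, 261450497757683581416988561584839773, -160577898202923297181037496696639873, 75892923354719161589350291605174163, -31038193875979217334840296866454596, 11248172928949708018395657572870292, -3596857013663127257418825179202919, 989433203061881809952344461161642, -218702532167021609207864856560207, 30134127530843855674318577398079, 2859354376573665451246053829127, -3887874591365347990945512265091, 1672644300991422375259512921527, -499258419252024238220539509679, 108337207898449410905179147063, -13527701310093761295513781132, -1434458187748251485602615061, 1495145980330494560538857036, -529120604060889723805185144, 122494317130112610227076169, -16999044260290413703792623, -484319035324866904654665,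 1131525875812934880339639, -391392041739163418091159, 81716444987509565397980, -8788464965917683518273, -1066838276284540310813, 805106630154648309002, -222893949034132171110, 37005472303825456966, -2067424772994603451, -965468925390573470, 401197055846107080, -89186146709214967, 13025359700210204, -1079722237670274, 395691846280, 5486549049253, 842118031399, 1178920343268, -1331168501419, 667632435320, -225189389809, 54686889518]
def aQ37 : K.PL := [81965079303075393493610669566462863032807, -466877419789816650168703923849108657319872, 1301195633936322902923095266195808655399101, -2361272907317018456322728884911848453349962, 3131495168263334827963145509627283775228403, -3228042486791321556462930769069400657189064, 2684492944461058207997860093278649339954268, -1843771133560500990905458800688495785672562, 1060862698078067870089869598572794818702932, -514774860208417646358183586738975274271995, 210358017731056992437682353631724757514618, -71429092977526287929476490905629814380154, 19399001379876133377887497782035782544585, -3750061291046955341380823693343125400468, 244426107516045099583561432660452916913, 172036015137596772575129640886735934155, -92666497414850185875397449046297457556, 27270405501357424189572410185415922773, -5117226371341086946907368713834776932, 364040206456283415847972588141435958, 146559557669341832891734143371143265, -69953646698734852545709417305131538, 16377250439565033056889686609911897, -2073152145688170951356227871031791, -71313231520385295732515995515475, 108381729405457163968119926286289,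 -28859616261757345672881269256641, 4023185332242386992022434983721, -35781122721733986795859275625, -139252790250136177523729419843, 40449878516469333848212579197, -6782420940574631516501729723, 743722254364582282698959401, -69766505368613645166664779, 18287010080011956508224347, -6750971151850341495774414, 1379130945628983898737047, 82299296309647615277636, -195187792192623448710214, 95790102987868185042548, -32321889677286653983393, 8376289183539062853625, -1576942106000921996202, 123436084847761733569, 57757133422306548770, -35432519564282956637, 11977622342807758867, -2895259338319641805, 462272611522318399, -8942513192148717, -25769506316468669, 11230255629270966, -2996713659785460, 527426185298306, -31762305816469, -18170615831937, 8797380585630, -2324277311085, 387933085158, -18033744428]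
theorem a_chk37 : K.checkM true 7 18 60 1024 3072 tab2 (508) 128 (2 ^ 20) 4 aL37 aQ37 = true := by
  decide +kernel
end TWP.C
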