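import Pool.Agent.TWP.C.Tab
namespace TWP.C
def aL40 : K.PL := [-5131743798877188629238991678902800943805399421566, -620839024677552193791876676469792537996278342704, 36935447279216604424884762754412142274378095408, -4347986572515363914791040072978151281298561293, 634498708000092491296847883255814222388318370, -102986048708173893771860895329456346378387768, 17802491875622137363282413332397824050541713, -3206829666858519396007317305687921077445797, 594498686263220012409502569868605342376215, -112546033468847655953408011581347990015898, 21645863036979636865114920723001343181432, -4214343425233040411944269802967748358253, 828467674010283373294681651869651848406, -164127823100475607498840493150876613533, 32720548238887719209497108458262107523, -6556981850646857438312865168800538513, 1319622907690527667169138175615763760, -266534328823819548056980865716360215, 53996757351971985031026780271799950, -10967104837739462954009617751636022, 2232324456170005799614291014625603, -455209609524266461373452255782761, 92956841558343594733629585212870, -18995937296214446260394334211995, 3877535473168130729095644679826, -786321311070813318514151330094, 155789859723271046954726272325, -28577328401827842997367800155, 3879975611506408681734640254, 305646978018226027777290527, -642508642458624104409374801, 420799342850757486403311401, -222604008266588289168989220, 106356971059260349403168182, -47269308163279532237286134, 19702176076165364476003162, -7703657134053898172622580, 2814341452240896529722257, -952794942117538558724814,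 294599997656794496012890, -80911796056607805615003, 18525748529115667368115, -2848504187055779122969, -155230143291288510156, 357418026328811126320, -183861560593283323247, 67811805911211706482, -20026796286180972183, 4668981478607724369, -721210557521194864, -18900670714994280, 67490163905101123, -31577186995049952, 10014581743552758, -2365124120499490, 363292174082242, 4503119377102, -27886490461046, 12138891412095, -3434407296195]
def aQ40 : K.PL := [105673782135419301724881340209280514, -1113151218566624244524450514000053946, 5795546488989402328973961007074894562, -19874263694811712612450644980497752572, 50470326884143851113097599086000439463, -101173927191097293214794161290576597912, 166645295344820414281057529633652424692, -231781340783371437367716711981443128714, 277628746410274326333108364250387212245, -290612400595359768759485148868285923955, 268825632452510404008163245039035439681, -221641559429328343861934979936871416094, 163941490481515311993496820110653211706, -109314208164658152622704181997914843208, 65923132596699700549616498311531791283, -36018961738381084247689945762397159666, 17831083276061367847087019121771178466, -7981269432234497293137109585913229345, 3213513006231019644855013097544089586, -1152065036241416638787319762978377085, 360494561054298792599183865564125940, -94291148796411567607948146356018002, 18259721184253574380930159019151307, -1203966867866262633335588702597140, -983691757437128918365976790150020, 601587260259603046675673204343515, -216008915501952991467436264193294, 56163711052588888150264459562153,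 -9855319963102437813958249072509, 404207312219445086889725781378, 500476770083855245211218232738, -238448547795958698545564510237, 66340366082201016862400410304, -11971545737230726650714763750, 747413652279995243865651526, 401731897619761054717725468, -191468093320708976989716990, 48232082866165028594898066, -7222541949599680141974722, 81523066076691680505737, 326951451094176168759684, -113455462723237337330420, 22104444329194437045246, -2002826162735104121115, -337542410404470884814, 190447712312606614845, -43997131262504199949, 5440427078837740292, 143257149430077120, -252810827840455222, 67028704292109666, -9644190822945147, 318061896358582, 224945810793519, -60459570180500, 4514716623238, 2126327711725, -1103829815698, 331399641905, -79006121142]
theorem a_chk40 : K.checkM true 7 18 60 1024 3072 tab2 (780) 192 (2 ^ 20) 6 aL40 aQ40 = true := by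
  decide +kernel
end TWP.C
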