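import Pool.Agent.TWP.C.Tab
namespace TWP.C
def aL41 : K.PL := [-5433436254630209518293525063094381990011655972237, -586876480312356719417714084485062485524902456186, 31251300115348459312933339050627121801752398818, -3298052440430864862396730249041188166869332004, 431982393951490288006020621928664004099516649, -62994786970671681118978907335244736147005633, 9791692179147732572958808407977063903437648, -1587140568536134557892919476823946659275914, 264927680297824800112623045391605928745496, -45184314215248401549849929950552000152802, 7833077624035259152827245243604482762076, -1375260799923315774803861339205535609224, 243897581006685817520590395400382483218, -43606777505541475889746188798309586543, 7848399316428122977923209039606562140, -1420330728237198583661901536441462109, 258217262503410420223682315066544994, -47125210312667249368828702400667887, 8628560031281193722569969230444917, -1584278138989110917936774882890459, 291581546213828478431165153349003, -53774997952970056223601846570589, 9935092543717961130887229578757, -1838368439613696339453086062796, 340623722091055143146856386727, -63186043542734320368899722284, 11732567427867059148155931098, -2180128902981848071907374495, 405188902511093613994826478, -75210782256971440901066456, 13881819878748450605784290, -2514413857372777221581122, 429027677051156574158680, -59170251898993630847461, 584723505815355397049, 4902959055863709467245, -3211086032231229624050, 1603528252041332789621, -718081791531593729217, 300262117189355714125,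 -118689335550447231989, 44486095019064367335, -15794874923142461096, 5293733166355093846, -1664535272967061796, 486101575912768175, -129561557620088766, 30455350489448464, -5801697167503381, 625807671410467, 132361239913787, -116909120193319, 49226514803526, -15849069179293, 4187436576116, -889671686240, 129624387908, 445091936, -8951228139, 4043206587]
def aQ41 : K.PL := [466341723970286082712388057909151, -5201167002510608410737196713627222, 28723735560794808407066151941842207, -104687922262429641560742323766072481, 283164472110635336129629773422352396, -606035128178079582138657945325429906, 1068524983568109671577624165727528198, -1595488371558333915457283851372903050, 2058320945580149311602228792738546843, -2329084016875045806636087527413661356, 2338680282795329195618365504986139532, -2103085198164824308106571408991929845, 1706143249100177109894416952738829003, -1255957950086252603674246140112003005, 842814401912515447287038808421447175, -517392629764502193561771169509067789, 291305560346954901514447763605624112, -150662925468664326811178940191133648, 71619616704571724523344048808228054, -31270581876617849175912689736528011, 12512480381948664449520605315395697, -4567655128339106507685266563546909, 1508821355806535008931241355389482, -444349892904465894820643648280263, 113299351998662419757921021473239, -23333626375654078631039604242598, 3014795101407150270384596311480, 263064679220795612091657260955, -342093704481569836356531181754, 140154861957518243361356771026, -40274622852714826782823062341,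 8633115092891816695252203565, -1186641965540132747160729998, -22654310149330460783969916, 77464037770148838203422039, -29268958740425996432722527, 7088043475222702231987833, -1136667293576670945828256, 58959082229037869004624, 34651802700642358681700, -15017304476662936280533, 3573514734589960752155, -530978816406140390807, 19238718267691235487, 16424389582152797351, -6043665941961590835, 1228369548122895567, -139244045986353622, -5256728185115737, 6808178603947208, -1798834189526715, 273233809592373, -14242334670969, -5410280929872, 1964856798794, -353972497231, 31199600934, 2941717238, -1721021366, 349128351]
theorem a_chk41 : K.checkM true 7 18 60 1024 3072 tab2 (876) 192 (2 ^ 20) 7 aL41 aQ41 = true := by
  decide +kernel
end TWP.C
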