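import Pool.Agent.TWP.C.Tab
namespace TWP.C
def aL42 : K.PL := [-5765755276878653257070471345218239346873727732297, -737964403016094443509888261838109846295474884972, 46669591241265813000760562835115990290153437132, -5857515326889032147807173913804310463226467624, 913440145269873628443779645455352493593908418, -158730810309232619850086936761228312360160586, 29422843394226879637444197816725440496259079, -5691128340609421308327118252838875012281582, 1134278226237616938118053828238442206021005, -231108503368377263292304929381536037840392, 47885195853462620728066701884651870842675, -10052645529399194643737189806030344719588, 2132548330502285498372366947455507911340, -456243673067888937817382013326255964151, 98292009032411849805002270812701994711, -21298665977837474305470861990294889887, 4637622744192701625577715315102325059, -1013964967192205032443342889911281169, 222469995000149346972185584492761383, -48958082848232594553600873650438665, 10801953395279530976395454974630148, -2388663798948942858880856664675131, 529244254479428689579064354438962, -117462292030259846263575596250322, 26109019117570298862969519489289, -5811042044252368814117998988514, 1294855543842326015373468171402, -288824495107506303264667886123, 64482418904885389344506376170, -14407836338125801816252670947, 3221564823728975308583523183, -720790005351835192944957944, 161355600802189237666132433, -36135197738737945538349769, 8092941190570844947457930, -1810995418118427340615490, 403835254906653497733943, -89034715848893454914629, 18960977755540095978623,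 -3615363359319991310570, 423647295240698459176, 131190629257410740802, -156521729633139680722, 103781820888237567918, -58945739486210352976, 31011583226990921958, -15466050459772727439, 7366381347318589545, -3356762711433453253, 1462358064829615866, -607632561463826773, 239897689819661587, -89468581762640443, 31235563188074416, -10054312190097924, 2900670625654673, -702432789233175, 113933098207427, 8512972776870, -18219186305430]
def aQ42 : K.PL := [570083714502705407966934651802, -8996125905570494427409142464668, 70405338741084117883916429497570, -364259623491289829576695728509603, 1401197217590938789497764414013422, -4273309266145960218043659672701371, 10759436561383977730434642787890024, -22995970638386478364974452777628085, 42573018529080375811831474099213362, -69325011218790077519456565245127440, 100486593953623535668488990274861163, -130896405319818228139532338847243915, 154419605973806426885390609259110525, -166027372442071769664623027677424950, 163539960082757257361326432971303842, -148218601004133884697604232589252547, 124035909600618538790465646552349332, -96115577215899283269056447571334940, 69120520284601994969275633375091706, -46205407479203323055167079447159598, 28740451495997733232082812630211310, -16640529402734983610934828781862833, 8964816971520405698687795751395716, -4487790250457877519856922342378999, 2082094040200183435645029923099390, -891226509476316304481068179636909, 349321002923294072820737527506469, -123759158501194283939518491655373, 38682263380382794312081878054415, -10113261037813014128736474751132,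 1878083805607029911442845901598, -23989913973457692284968257457, -184840732293444068661538892294, 108211983719134341228461970833, -42059728494458090253746848713, 12519792530962825115870897921, -2748560301671865438532449834, 300725323950825845020489126, 87035794785682820921181420, -68575374015617683360583154, 26118116695459303508829307, -6931601533886506123213638, 1197648598594029681344629, -22450780930550649307684, -78120134416494848507931, 35911195666752138604298, -10015711681365714096686, 1790183500013841358610, -77821038396850667542, -84536659483671552373, 38918345925791879075, -10141608372913885696, 1584647525470878254, -5153530295375900, -90026204263982769, 33718693368923076, -7326720178929020, 804147877002256, 105352874374423, -78984698604616]
theorem a_chk42 : K.checkM true 7 18 60 1024 3072 tab2 (988) 256 (2 ^ 20) 9 aL42 aQ42 = true := by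
  decide +kernel
end TWP.C
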