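import Pool.Agent.TWP.C.Tab
namespace TWP.C
def aL43 : K.PL := [-6123749721029284822425278412889774694754456905807, -695275873653658922759537068712585106530120291956, 39079352775575953588624514281220537917181946378, -4364633422484016178473092244352440446411724394, 606237349601028572634854321028657393799762232, -93904975525650126232538732001492957001476384, 15526208593033163594252824865226665085747155, -2680314921789878863440259662248013844611992, 477023039616557444343650198561189234241821, -86830287186569376036664019250286228574991, 16079652730447477894033911576783098137368, -3018175132505585929351116976070559398693, 572672572388969617265031678182621649111, -109620155110271388573107509585967175266, 21136334418862443854888808340244120230, -4100189802777458279564634842548406229, 799467045400674679709854713680782197, -156562332687346862393766872775535259, 30774666175139920069494862653300804, -6068700000538717910204048148155602, 1200075708918566600865437159764366, -237890212373961830522855548860898, 47257184200374172485305451720700, -9405252147526604782004378066205, 1874944824940344521590512089374, -374316909177659346891946205997, 74825892129398282996113296199, -14974896246282293669756581677, 2999998744677478837335668979, -601556267834388778344025557, 120722361658637720955380150, -24244808783336460737335033, 4872332618656910647888147, -979745910807001762515780, 197116419416209449521588, -39677306168087776829333, 7990081447756487299519, -1609649495454801403647, 324388349706570961677, -65393199915912651830,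 13185959213956770581, -2658972574494576501, 536178923672712943, -107861836586054804, 21703200016530108, -4226098031803259, 859758766418584, -100844953671530, 41785866934597, 27206750533669, 12204280027852, 15526440522781, 7935584278139, 7455623955420, 4513459659091, 3510800141494, 2269270181304, 1600585157705, 1044588834877, 696425558796]
def aQ43 : K.PL := [166663551129575112088626424, -2793307509663520516204208892, 23249565382575728136363386150, -128111054653971569474550364956, 525654755093346903084026280567, -1712750603198661064133614755456, 4615285639106320183802403630704, -10576559856344100835616686543237, 21036583119749089699577129796738, -36881693319683328352412523794418, 57692298440044150807806125272476, -81305919241160971541365071196830, 104058506759943826218359904758925, -121743874154622342361161941323572, 130927167882362776572939828962325, -130032364078586803051376893927168, 119737799555347436469732700149083, -102572392770053310112742663059158, 81976388153308429345644778203449, -61270404711411221015766988841999, 42912576730235894579524638639411, -28209414458742836155423152575946, 17427062783994581044758196741359, -10126525144771055403702534971871, 5537586940896642386848650590541, -2849947495359118784614137776175, 1379829457299716430913555810094, -627820209384343344941639318744, 267957379475710690488858800715, -106961518658928499581588421285, 39746684451868170770260562069, -13648377870317814184920651928, 4278011862802213378710723644, -1197073504639306087401691208, 285266600732154567580543826,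 -50580460987415749703853390, 2362442307425027588304357, 3111947320847521139474256, -1833590397882663786564510, 687874230898556115765718, -200260956714757592003298, 45467759119638215828357, -6880868841991740278695, -72644759338551313456, 523347873541834183541, -232648229163094542572, 68292170106523890409, -14530338589188709358, 1845757443830724601, 134665995082431579, -169377690971144994, 61058936875750895, -14569288120540661, 2247921322997539, -54877507191749, -102782623097068, 41739006547190, -10084120396101, 1532696596628, -41546806398]
theorem a_chk43 : K.checkM true 7 18 60 1024 3072 tab2 (1116) 256 (2 ^ 20) 10 aL43 aQ43 = true := by
  decide +kernel
end TWP.C
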