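import Pool.Agent.TWP.C.Tab
namespace TWP.C
def aL44 : K.PL := [-6462128220170979451350985056714726712098817534236, -659193577524343694158043038040918921910425773592, 33337361122735788089762368902976137256082318854, -3353234655767570212624209973712632660809225803, 419762849375158697752506935763201604314965933, -58634726074317830304156470103854256410179880, 8747031818301441884063540229627894121218868, -1363037007680186451098011643874770725114824, 219060757498223797674275256596241855824489, -36021348488929606500810542043586697590742, 6028024008423799569884390162725355230174, -1022789925987951183152500104144908930147, 175475231272818022446906844495659132195, -30379588961067257521304126551978181063, 5299192311107337903855219894883214501, -930190067549231890792811978833108680, 164152931911789185712586681627000889, -29100625386137536875394263734657010, 5179126163562806769121374103108767, -924874944016140476725729429973680, 165650081558285047435278573856374, -29745577637310603408424966462770, 5353522936566902689193799175017, -965445406222305510469560079824, 174416357742800183261692405266, -31559663810502288412356636930, 5718587293947253299763120220, -1037508089919433185835357560, 188444638147030956489023369, -34262238191293271421755657, 6235098557755594693699223, -1135605889203784874098999, 206982740939263882665805, -37751314769747411396728, 6889601760291862630702, -1258042947298868249302, 229834818870827072147, -42007415434460042952, 7681777723297272501, -1404470937566645354,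 257657772183101143, -46530060759798685, 9108103112997861, -1131172308791583, 686628904438689, 293566209501477, 305763631359075, 246249709931814, 204177120775537, 164373603081368, 130240365178031, 101304647796665, 77435521352988, 58178737083372, 42980071461182, 31231183676918, 22328907428476, 15712211454722, 10884953358710, 7426074623656]
def aQ44 : K.PL := [30267342054408267876939, -535316390330050921062592, 4706571689460485654864034, -27424381250193951217723664, 119123628870090648309559059, -411388099034242387340038067, 1176409605952859291544618430, -2864709203618180499308096643, 6063116948449066551439533848, -11328254827003765842027256617, 18914310910401068283799742685, -28500434240885735614348605832, 39070775637927963805848299633, -49058456093908944909610467191, 56741667208675327825826980289, -60745953354182343730069352951, 60445488799532726998404670707, -56104870558071646761759713343, 48728124189500026463331418304, -39707904854942069049735005627, 30430881334784007466693287996, -21977520147045194716224704711, 14984195204332324465278294820, -9658957233804108851536586430, 5894064165102283418230377876, -3408245344393015145083445852, 1869047219051303348571239981, -972570079116355514749583299, 480351829475929063651210449, -225185064760964471402168778, 100166590693755386036267952, -42247352746452140357416152, 16874965283322781136633600, -6371462973244574758366737, 2267632466435336854383614, -757585887854121644628155, 236079418074394426331613, -67928478431509213812917,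 17734852203750271218300, -4059834032009529156946, 748792574198554272349, -77791367631064762097, -15653244757758122732, 13139318613203949290, -5204443260069197117, 1557838598085812310, -375683798375105096, 70029341054698896, -7595740699098270, -962856304419800, 865143865339252, -308068908006607, 78219056801523, -14673520685175, 1610662666963, 149008317242, -142269231957, 46812029244, -10498850223, 1593603229]
theorem a_chk44 : K.checkM true 7 18 60 1024 3072 tab2 (1244) 256 (2 ^ 20) 10 aL44 aQ44 = true := by
  decide +kernel
end TWP.C
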