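import Pool.Agent.TWP.C.Tab
namespace TWP.C
def aL45 : K.PL := [-6744410735527301881487082848352508172585770879947, -473863675602652445770752588965227039910930682141, 16522649235842152941224765607872931888049361109, -1146572293674996727751086351332200270414264623, 99071539097961665352866612210127010815306945, -9556290436254741413962294845936006334988683, 984786913433846787558210454925815968813948, -106041491383499895749889880716366754081363, 11779985237173171893426012068170881515055, -1339263406572221927405680145387650383002, 154992682053694894842370161392109093404, -18190681723877892221298958533186224435, 2159204088255225341376943505893626090, -258677032140975586133064247911799087, 31229207479994492316698070551869630, -3794639168329237144291579973637153, 463620473587849591207652714961753, -56910840961307311022439628959563, 7014353565701975315331104650503, -867578820190393196699125571334, 107637948518694681887511618100, -13390416257750739439899981415, 1669769628540455078351389959, -208657762035016915688083495, 26123193454975880974396306, -3275998356291787669954761, 411443503460634257512209, -51743879211960326071070, 6515253533790751166135, -821250288057790221919, 103620562533329539209, -13085852991586907537, 1653894479511893668, -209185175015812407, 26475480873880556, -3352836404935932, 424883333128254, -53830812091733, 6854318000915, -849024366445, 123406371542, -4128395150, 8856963243, 4760844165, 3465697163, 2316959266,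 1535928815, 996040035, 633847476, 395780191, 242608020, 146048814, 86376739, 50206163, 28689886, 16123397, 8914137, 4849882, 2597416, 1369730]
def aQ45 : K.PL := [11132675045715501154, -154122303750373456914, 1061430986389937313165, -4848102428360836672355, 16520026584664257338958, -44790694758776436775210, 100642126793247432705633, -192737735453053496176690, 321104407042864393412942, -472713048691478581515839, 622518641786152884690664, -740642277110899849005928, 802600539325205352261541, -797584749284349917119680, 731035982750443954319850, -621043939606566334808083, 491102648875199307404729, -362821120218621805890001, 251238398653634891800395, -163525382579117147107374, 100294347098321617555678, -58092403873588711691492, 31839162300162425272184, -16540608482194197206854, 8157310428487911690977, -3824049829740034162555, 1706001082020069747674, -725001595925041522388, 293735100429525301085, -113530434246815852356, 41881113647332166375, -14750523622411306148, 4960567675364540788, -1592756065123662357, 488105268084644033, -142675079775988038, 39739015515517203, -10531165192566314, 2649720033544459, -631044631402514, 141619890190524, -29749928198090, 5788001023715, -1023921593649, 158800942844, -19683344065, 1273174763, 247112759, -127957348, 34650099, -7235846, 1236271, -167509, 14649, 502, -583, 159, -31, 4, -1]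
theorem a_chk45 : K.checkM true 7 18 60 1024 3072 tab2 (1356) 192 (2 ^ 20) 8 aL45 aQ45 = true := by
  decide +kernel
end TWP.C
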