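import Pool.Agent.TWP.C.Tab
namespace TWP.C
def aL46 : K.PL := [-6977349324616870286380848332161162815792294801110, -458154232417011468381170701546069868260344719157, 14940311191430307993296539853873131454619436191, -970070948415712723629503959696762604806617614, 78456562007509257789930658809276104533989601, -7085632903486243322511766360329294693092166, 683839013637489588109319314069646946820112, -68977957824684867579227160281460480247122, 7179476919526932010771038714899308720732, -764909735247676384020813848274903525144, 82971193653390526063705089653759433627, -9128662464839456855156998908608223333, 1015918725230697467421101720016335424, -114127656756537424177017227108988383, 12921665424990499139657968780176477, -1472670958824464761959177794761846, 168781781677977087653385236206658, -19437159000052854484059191572428, 2247732821877382969883858764676, -260871831967624954646751896390, 30372780645425360188788059179, -3546105715580349341236180307, 415038330335917628777202746, -48682625230679830714991651, 5721442317700263500471797, -673586137452206256599169, 79425279755002589753792, -9378514174122597188521, 1108814667483826755825, -131244332456079683870, 15550771257908955748, -1844299383583105509, 218918237453677861, -26005784684014551, 3091494618303567, -367731155519121, 43780372961067, -5204169459536, 627863389515, -68649740348, 12990927470, 2092311907, 2450127969, 1665530300, 1191162883, 824201288,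 559968629, 372827622, 243468244, 155997653, 98111039, 60591293, 36758533, 21913827, 12842247, 7400678, 4195168, 2339964, 1284638, 694367]
def aQ46 : K.PL := [9731433620195631, -139376399033179884, 993518551161847711, -4699361628307022580, 16591742199288660219, -46636295079928514240, 108698119878432123296, -216061225291716897034, 373850310455701594484, -571974336146316341446, 783354524258857923375, -969964103450654771981, 1094756779137537962198, -1133999828322701328992, 1084322082675705240730, -961857890042514536353, 794945916215135949828, -614421550333867262470, 445581229529510389784, -304075030909321201785, 195770356435638122704, -119184826610714862775, 68752887056602135782, -37648719683425121996, 19602336607573636422, -9718449999718515719, 4593902576317636297, -2072824673665293797, 893676365488700313, -368484628686522164, 145415260562369037, -54957734679284232, 19902110424942166, -6908589407805289, 2299379087390556, -733857662380508, 224581391583981, -65886881439771, 18522443819189, -4986221343601, 1284042114395, -315864687487, 74075129475, -16515218045, 3486717197, -693016459, 128518444, -21907463, 3337950, -426545, 36761, 1188, -1513, 448, -97, 17, -3, 0, 0, -1]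
theorem a_chk46 : K.checkM true 7 18 60 1024 3072 tab2 (1452) 192 (2 ^ 20) 8 aL46 aQ46 = true := by
  decide +kernel
end TWP.C
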