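import Pool.Agent.TWP.C.Tab
namespace TWP.C
def aL47 : K.PL := [-7202807929614251208266198932909395888428486493090, -443904339317466579645966408096404361894618376287, 13594631342534960878686446319118927129323681703, -829301565958894213417243856924410434006042053, 63033746395004129551040059880811079231792473, -5351424207486009065519587850857004843326980, 485611425015858587087928614175398082435984, -46065551703605019674909387884396599235217, 4509910212212716998797915373678052227130, -452028515094508671884322189979984678305, 46134863713898121130895043530964999622, -4776570139056286040244593540050695944, 500301383300104412127950631988030747, -52902996209528649143655619617318838, 5638636252119065828083735183021770, -605026136518464945896198951296366, 65290608031743086299037933909862, -7080372504329538077385864188953, 771090511171342899364187331412, -84287331217136749330640292172, 9243347283868872348410667819, -1016574841811779948313106867, 112085783658117535048661176, -12386285220731389494632239, 1371532223394395450852367, -152143813644350400890857, 16904663648411961115499, -1881018954010003387877, 209581534172817447492, -23379325666715417137, 2610852404335012827, -291849973973769549, 32654362058545797, -3655627781479306, 410469267914635, -45290142371958, 5730967741871, -87698655545, 473894233968, 324882490275, 264382541912, 204240165648, 154896021664, 114852148199, 83361706888, 59251384354,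 41262189666, 28166200474, 18854694048, 12382566887, 7981399444, 5051201070, 3139936646, 1917850661, 1151403248, 679679754, 394625883, 225427158, 126735024, 70142718]
def aQ47 : K.PL := [6723872689582, -99413019368256, 731851518056695, -3576571181851412, 13052564651168657, -37940742408087423, 91493758186376298, -188257288509023266, 337368704288900536, -534873986406608919, 759533366946071193, -975694780909894224, 1143176683212836606, -1230058696870376132, 1222590742540259476, -1128107772039159123, 970546406046802413, -781489009474953845, 590904937651163412, -420805952593027339, 282980040418720740, -180118482115507683, 108743413049001154, -62389488111095097, 34074062882220528, -17742232568101638, 8819971361036636, -4191257199926882, 1906028090366294, -830351077538293, 346844305199525, -139026120163148, 53512288905834, -19791148004383, 7036765727971, -2406263639283, 791630907372, -250616247238, 76357777302, -22390006627, 6317624981, -1714856452, 447582932, -112251905, 27025415, -6237928, 1377919, -290580, 58303, -11077, 1978, -329, 49, -7, 0, 0, -1, 0, 0, -1]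
theorem a_chk47 : K.checkM true 7 18 60 1024 3072 tab2 (1548) 192 (2 ^ 20) 8 aL47 aQ47 = true := by
  decide +kernel
end TWP.C
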