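import Pool.Agent.TWP.C.Tab
namespace TWP.C
def aL48 : K.PL := [-7285567446877723477409419561352073090352976646591, -438892188350224877786328846220169663033586431445, 13141101421682882131979644741036355233271065446, -783845531010607749530274470426356078597487740, 58262619828661519937189363627333517025538835, -4837523689827844431363435990396151102080612, 429351020501185605056274273305205965725546, -39838151751251687552778771952286429623779, 3815194681139073872110221200422442726395, -374080317835842658058734528387019261799, 37350884478162333028529190612780784542, -3783390797089571998962005485803604368, 387712229246173674092303079801929627, -40113349475068420856646307908921240, 4183411603941836109221005417868735, -439232544994798486366004693675543, 46382060580124631261858002072203, -4922079765555063275504498589371, 524571412723847224418134960379, -56115273991083449700445475430, 6022540564785653000139842646, -648235856948218810105482581, 69951726909207054474129821, -7565779110779181011464134, 819961068101993761451714, -89027801094302238406975, 9682133601575632466246, -1054531454422042819237, 115008373292382519508, -12558170464423388279, 1372784185265200134, -150214388564570258, 16452794908049714, -1802773473360090, 198424843189252, -21179502965018, 2861152995144, 147618607239, 373239666864, 279275809619, 226545905881, 176963477656, 135419948629, 101344395382, 74234790732, 53248328152,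 37420453663, 25776138436, 17411070943, 11537637090, 7503595225, 4791299362, 3004914655, 1851668015, 1121495436, 667853056, 391159277, 225398440, 127821289, 71356974]
def aQ48 : K.PL := [413749241797, -6187604440962, 46081321805151, -227852943282621, 841462426015951, -2475502371373236, 6042790864214078, -12588063517165658, 22842733946010866, -36678274932150974, 52759347461227195, -68666653859948509, 81529024422880920, -88916633114425616, 89596651296583050, -83832839842002481, 73153770759268261, -59759762830140846, 45854626669584765, -33147179414952136, 22633169721674220, -14632045939528095, 8975248292855465, -5233582313329406, 2906107458091117, -1539081260645047, 778505713584465, -376588959316559, 174413959872385, -77420611355890, 32968744436812, -13479854046205, 5295797698277, -2000455860794, 726990087383, -254298323646, 85654550574, -27789954379, 8686697298, -2616423396, 759380163, -212358222, 57205865, -14839164, 3704510, -889326, 205083, -45364, 9605, -1942, 373, -68, 11, -2, 0, 0, -1, 0, 0, -1]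
theorem a_chk48 : K.checkM true 7 18 60 1024 3072 tab2 (1584) 192 (2 ^ 20) 8 aL48 aQ48 = true := by
  decide +kernel
end TWP.C
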