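import Pool.Agent.TWP.C.Tab
namespace TWP.C
def aL5 : K.PL := [-55168858180997424553226129757335274841528536365, -12503237986216297502786985584332332319372901523, -2836469181616986644785163625600881837294353986, -644330940504319866033002603136191703777161932, -146611752793908536381927000568016095049274511, -33428589008091143533162493368625694844519515, -7640583549626033257801097419139531728612882, -1751361463619275755738571405029882601074708, -402774879016109802655793258091003843231125, -92982631103694950292711653242833189613293, -21559255929120181596771029391196038629628, -5023755194119475979519562536617770175348, -1177323264719151490557691007060388787240, -277713610949811489662668196672585345402, -66003065274003844781380784315426457440, -15824290230743276855843880854001622995, -3833021586426482447308035948662280325, -939874089415539465414694104283658265, -233892539533120671552520903287316445, -59261446835195640506127150114836237, -15343576844971608343520153557056174, -4073134056215371896405641110975255, -1110175514747443073876117264730972, -309831159998103285478394840481852, -87749644233184941995487388652673, -24814200510123694107470015954103, -6839177937636390085404430794304, -1774116293652668401523933262413, -408355801718762103478827656277, -72062985926008319598535858263, -3278203130945952151316113221, 4869524643349567842751743681, 3046383955532626066712932477, 1246523714467128162941868742, 408492731522427630120053266, 110610530344384770072063504, 23720228478394547253067767, 3219134126093969910928776,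 -226008392346986091898746, -345529493976519201728897, -145621937801889839421887, -42700328708008209629502, -9310567215715124890046, -1281761251958639268415, 44948148698318170079, 99289644752670652290, 38518497105725457479, 9802968416295517668, 1689472637089672552, 108699335629669788, -51697169029559118, -25601845558517151, -6855609568750358, -1200649425386803, -87887043267008, 28271835690289, 14245602170717, 3599203081111, 566463622021, 26454870022]
def aQ5 : K.PL := [3761567536364912141014962566084759413535679428293, -425975682786677942563051034792006660017764060858, -24151032207351825499930740608032675706525645118, -2744512958466792421824156021929398916653508014, -391061674095712513521603375558631667794594571, -62659107700235788357326164976619402838962028, -10810285997889650742997512285734411070093365, -1965455393021863795122912543783715510914543, -372087226097146697788983792822171847487247, -72820461853961982705177324071898767540032, -14666832896441081460449233533988043554029, -3031490873153749052145605701223882172857, -641861619092224694182139416271609124688, -139073424516097878122316311334337843536, -30822199020283218100933176124539699321, -6987346365572009197687143010439484763, -1621131752425922755738487539455787249, -385352242195106439075348157639136285, -94015182742605692321164584265742067, -23599039558763480902342686258566280, -6111256193972372874463644354801261, -1635879460925625465170135964660827, -452307128381376290621530310456160, -128439215607314648087437093490371, -36999002459042485114953275185322,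 -10603632498778234651988496713096, -2942439654407175410483522392200, -760418031657793261041194839282, -170811273739244713168747910208, -27442217511971762011669526197, 472545261819390347190866546, 2913642834210468907113439733, 1617001671493803375473006577, 636356688067853059527112580, 204057620163213807851283344, 54271507179264215714391252, 11367679571091308714898692, 1444786174595241702143125, -157143931567634941983100, -182176450513445098758873, -74191221712162270574778, -21359190273622135388547, -4571257437192493279772, -603704246621233958723, 33278731419797274136, 51983288341229665565, 19600652932793357302, 4908471579947534487, 828921204552700361, 47846372801069661, -27505452527002874, -13092099100135632, -3453475952791929, -595907955788741, -41359634126583, 14746905276525, 7181620754022, 1780243154505, 270247247228, 8590207190]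
theorem a_chk5 : K.checkM true 7 18 60 1024 3072 tab2 (-848) 192 (2 ^ 20) 9 aL5 aQ5 = true := by
  decide +kernel
end TWP.C
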