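import Pool.Agent.TWP.C.Tab
namespace TWP.C
def bL1 : K.PL := [-33990977501519841464063827386017552859683660435, -6325337059714878965281813724508804513563861168, -1177341326075893889689469357401841284181210410, -219206288506245556054389106062868609600073462, -40829024647254290201946182258385714777654351, -7608239760329911390926866712807849854711964, -1418511306112429400431354294451966004803418, -264636410859990081129180848293171853204463, -49404892642405526210056282186041713247876, -9230601589827245731407572683527938817528, -1726103040589726269021435595765513940848, -323085950221684875508789068031746999841, -60537321238915547925677245855938159847, -11355925639076392595855784970997261409, -2132838778497104411299669242709780271, -401119050936082692963508373637197920, -75546413596840830594999268640737506, -14250410918470044394467467981346677, -2692551168373629862418080674259917, -509655053252008655481968682247628, -96654089793562410365196433992960, -18367698227223321875985610787616, -3498183631090476792651016306584, -667806613289516409112381009023, -127805783754032293122574646660, -24525533961543583835201681630, -4719942448121473933951204685, -911157634842404906001332684, -176475384766129955339420082, -34301369221756349647687626, -6692477619935198331747869, -1311087179968891664957400, -257974722085069370273335, -50999696606640926551872, -10133527737539495734260, -2024557467597422470925, -406881925045831641965, -82298195198084874826, -16762464648696481998, -3440227443810223710, -711963331768182345, -148704714437247888,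 -31378725012852624, -6697677416307057, -1448183870910683, -317731164232751, -70858148921263, -16089072724907]
def bQ1 : K.PL := [4791793272681622834359129688143899382831557330854, -445781881219411979857462405488641734988265011352, -20741879841821232523376098706307546536008899338, -1931181616680477035655148222934465540367960772, -224913641481115258847634606150541848343856791, -29364522682422253402460148716505154489188794, -4112244835877065639997327201322533788372378, -604106560449248528731675942601864142376370, -91911912128369265385755990294329353913073, -14367466177222308519776913837900490945339, -2295266591380554742850667182617399731570, -373363383260643613490386418114446221544, -61677909712972233810488760834757780004, -10327228600445821086017257222012909970, -1750094523639582031649404468444140282, -299833770524835265962967549800262313, -51888214945528643018601168738971092, -9064336646630824584504805223210850, -1597551042442748088563045828144324, -283952159507513383349852087107579, -50882102443807153689916941861888, -9189706516193441873459807623926, -1672499158133297247512264784705, -306681831580899742564085772567, -56651868130210675320032906042, -10541543776179834315280624759, -1975739256745759335788278615, -372969139756515661611782330, -70913125018699033009564740, -13579800222809968851474003, -2619303954503631782290049, -508894305085133253884836, -99598645068885164739724, -19638630478251488613148, -3901783488438612798270, -781246925068802687237, -157683160887295141616, -32090497697486042811, -6587385764828886929,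 -1364530209920833657, -285378501141226258, -60300649118395315, -12884157304459901, -2786667129926784, -610902347973782, -135943874508535, -30756203525241, -7083396894466]
theorem b_chk1 : K.checkM false 4 12 48 1024 3072 tab1 (-1376) 256 (2 ^ 20) 15 bL1 bQ1 = true := by
  decide +kernel
end TWP.C
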