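import Pool.Agent.TWP.C.Tab
namespace TWP.C
def bL10 : K.PL := [-91480219640853820187491102850055289929528970492, -22974378377144490415597127279970410449196494614, -5797403303464914782523559753828377362980255811, -1472830936573548861454113290412906215440221228, -377618539096181067175419060955865968651860964, -98022181183345620826835200329777545902392006, -25876302293118759642497173135031974346289124, -6989019766531555656898370727207298176264686, -1944623275582436696152571792718966833451112, -559653471106655562671692326747246202492569, -165712956217490325761435640432133830215442, -49433991319251943879339127732346610946081, -14286360425339727817432256643222977548413, -3764072589069619680630104889678819659288, -808666945853821668457209321686763729142, -94407147112588900725241627789018670185, 25594345813142637217484609458123396085, 22778370153811089938954555133269860064, 9628820863683155594018703664101587455, 2904155336222514899177828961630558124, 625736315472579046439109915831414031, 67884802322501039667649044494906054, -15436970822949567090494815983748199, -11483774629901232792286654932688164, -3808811949763974217862624641350255, -823348844841147903746985452434137, -94638659845011459767185846551379, 11184147874572009225909037019478, 9290202527278146968784350640312, 2729496393465407417649590857598, 480262738754261941013055562033, 31063045382980271541177003117, -11568857907264249914219748377, -4860928136733161392678142223, -942027000998777568885468784, -64982043203263436043856565, 22238255571619403897309925, 9292715902243238553085082,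 1681666883262103174425398, 51972709504387289304068, -71442503471913704240891, -27227431411729841646101, -5781405496266492251627, -625844357688030488973, 83072647448289459335, 65910796404165647956, 20468522707093780422, 4028011314076276530]
def bQ10 : K.PL := [2922283043456382181055327287799515390326594055720, -365830715258521992767355998882901500210802524738, -23038880916858269763929946067816943514895545134, -2932745355729169740954949917900601496371714851, -474022225642499088779842973436993330763347943, -87689019948222742240054662576455321834918885, -17894206604653585976440153814302254195590956, -3976212432297474772149350932515325368440552, -959696346893165776832047331986115179640607, -251076850208306209368326142222675180157776, -70222787267848551198632019249128295561425, -20277004185128257458128031101747172339224, -5709365008661811360563535115404778947189, -1441116114008853735719446460404181615628, -274841545085262574342501305806516143205, -11369999111502067274244758769126285699, 21907487587425893786619544104140003582, 13431228131141605170359442969677575139, 5185851523687662958486189865488394041, 1493437760838023015697203690059878956, 308896827258154678237668928089442542, 30035168998586942608062910788813435, -9015338639637312183220723048122597, -6016881596795700352636814299818870, -1935271619619852327816294106335826, -408364949443635078139412888560820, -44882930198625719933690106609329, 6018635675240915812224269162489, 4541304206436449417858758061222, 1256962229407126847169062047403, 191609033992921073462478992183,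 -396924655739586212086457180, -9884979545119767029196368949, -3201715236852118019978225510, -523573009021099982595078870, 5436243349972982002141470, 35062604401128588890531032, 13707113670505478760070007, 3441797728886507207758955, 586887750257193191259962, 32978610543977855120359, -23792831803331005765965, -12788277589340585742506, -4117279796893929822305, -970517515339878835551, -151672340699374042612, -1807353731096370029, 8963456084544237889]
theorem b_chk10 : K.checkM false 4 12 48 1024 3072 tab1 (-512) 128 (2 ^ 20) 5 bL10 bQ10 = true := by
  decide +kernel
end TWP.C
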