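import Pool.Agent.TWP.C.Tab
namespace TWP.C
def bL11 : K.PL := [-104627995672383333906759729587035914843562646924, -30101607393910954612820499014304186346179723580, -8725494518840822165416316508057684464468613964, -2557434898953927716529000138599116894388474385, -761703355883185367286868362414017202865184950, -232135574577859554772303973790414999595354548, -72982019360148240149768581888616833470283838, -23787035506356943389435822274333837517406967, -7980064343045809926225357931682730512671708, -2681311294459856531334864636399314455372626, -858388974987445740176926046655612077307278, -242032091861492410478238047783137419712703, -50940622474170818727238189571232822860227, -2514430697053186846086111099078911201131, 4477847661934317185576678802718584059924, 2876041330846464210062099590230415588499, 1117384760476942850800134567450660687983, 303210450808150020892655507153469402165, 47691658238410675673347239624903040436, -4136668589150072560003578346239796878, -6074079469042536529961960542867649339, -2440467009984744353964488806121691503, -608378277674448552324659909383529857, -81251130080157320308779115056340793, 8447413256664610125596121402105461, 8615728323124820309117177859859164, 2777083891786003676245359698572023, 528726227157917863800281453089429, 38816247575576250143291458731099, -12632606230901667500995928539926, -5528514281546341683511928092684, -1015917679455809492282122508489, -38575060018196794301525663583, 31020871317812399773484833577, 7502151589287754145979201495, -536755027071158957410193484, -849686892631466489975129315,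 -285531783236734822116455784, -48040950214022480622405571, 1107134842258769865266607, 3294612030812364300612209, 948367653839292643142089, 38302134736771886686312, -84595835926446519700019, -44241553242039508700148, -12567292713062262353761, -1525321776254761009819, 589861335292285477809]
def bQ11 : K.PL := [2733208690777063990340752728051146306214659975038, -391337429621498015922678203495250668267433187618, -28278534205404648469905153086100456909655230371, -4155536651735655225952832936703336848695884959, -783227274988969280195428617339395905023560796, -171684844776208922502191530037818976305034874, -42484357188409134660390073778823416305794265, -11732999595354929247505932402366415567179418, -3543797038990045269774470614595092915536252, -1116603797292570189679736615725918419178044, -339736392453016636938343105296177492019959, -88686480343686042364916852439290935645300, -14636552265047561098211549613699203265300, 2082134852090294458615717824491265976734, 3162058791432777874735032334237486101352, 1656522588362142853607492682776267768376, 598589219728758405197374971722183955157, 155175342602344168276377144982419868582, 22851476467958636220014202987993476454, -2694835205632410996309252815788432058, -3226814399999735682041401501079857465, -1259143003251346521450661455783597283, -310458057382570427210595271991046163, -42426651453257343500971828678055919, 3065568824116957281192272917507075, 3643592857683567431645374645589232, 1099749740951059015475319929044191, 168148784884867959958812639563902, -3827413796758323426899166338053,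 -8909191114113015351926004148474, -1686680244829224775077577241484, 378420334314405660110567243314, 360797415019091772443368317262, 133216184182509369467081190912, 29416815586169259768176818264, 1970431840805699580218444523, -1650814483795043252645045522, -961242696187396650642387198, -320624622984010193489330746, -73383731356726409105215474, -8959983613838477563025321, 1452113239313091460414769, 1283730743235702868457009, 447412747652942940168935, 99734401973467385330985, 11427569790518515355283, -1594956150067737881427, -1190054448300060230479]
theorem b_chk11 : K.checkM false 4 12 48 1024 3072 tab1 (-448) 128 (2 ^ 20) 5 bL11 bQ11 = true := by
  decide +kernel
end TWP.C
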