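import Pool.Agent.TWP.C.Tab
namespace TWP.C
def bL12 : K.PL := [-122236076616009595023137964388850437182823882542, -41215470647383049287356244212622085569529266456, -14082827772856949143854218484694199363152319109, -4914136191764819829160917904150977937580265369, -1768799291046710733417782976049190595067089166, -661745336423124037058658063099564250596780517, -255689325012786602760195152684677522083806720, -98811345931118198716931927410793495573797966, -35944961974885889144338069259377314687330251, -11177265918900251308676863809261535540143149, -2378266927313692864922556166044800835469723, 71125585558635288954649081144321260713658, 391287682289961084213279852999964949176370, 232386929776014097573399279546348651690940, 86218045630714994388548886801235602803159, 20070288429180509117242418251568468381431, 838270017294511418986797078332811354731, -1770970131937805675080225509933799542335, -977383358050186621476183574195348422824, -301069505534406932136384806319727623448, -51226121597208409407311597244881346335, 2780922024748638457761468946429504930, 5355015499225353508330228457827559867, 2056278150146280748841514360268613928, 466922689295810459973706935507543626, 52885265562814761211604224421816853, -6457956003033887500363148321472435, -4727794147969699901205265188051163, -1228775409901083145075527003098189, -214866974204704300810518854229792, -42661603122826760321027911882802, -16365651319724362885065091408916, -6732513782380934129210792623968, -2076431473562432087772138599091, -471744779205761934875509538519, -93033303553785937986047579996,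 -25967084465611294978965263448, -9819412449113021369841230786, -2178304495542717149350105705, 768732425909396023045092135, 1087183915148405155820888482, 639897659266205081372552980, 254567161130263439127232520, 68966410276827708637188050, 7780096673727742892118716, -4186958231660133301505121, -3359432122061196939444640, -1402450841302872921594867]
def bQ12 : K.PL := [2529895811593303382829269720630960182315032901812, -423187398983972311636196553230169093240612571032, -35950749487001939097762138478941202640720576179, -6291127908354891057365634544449154097217248824, -1444352627644264755198096224969217004361641922, -397712970871956341453491730812245727686888808, -125944638728022261756573884854034673968969439, -43046229098091840449245501297410088897294239, -14318935018763276183719456580704519929709022, -3947027403149168481334013630699297891631050, -540256187306454252759767769980766848264900, 264280890719047074697584688432928368908718, 266183293913838957451736192534178953659088, 134365703800134523630457452606814465453318, 46587839935507716145308384989391379583358, 10297589709856040732950750278160534052623, 274231937520899291016624663141612354654, -975974632807201317208686303124731679964, -523735168586636513649080160806977837600, -163281726599926213860332823486944920506, -30783824278756269667668323639887381213, -841172029511179130655253465907070632, 1796467334782541652491193207391121276, 751737956808417455564575689216575869, 181464210617307914517784386630140518, 33620941916510215459842657257290375, 8871420543986890744245978856160580, 4199108801518874657390900896501780,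 1777836328559024460672569730052030, 479265633111103303301034852016944, 26895764504691711896981245280034, -49575311793817183120817399968819, -31564693247380668483995376243577, -11692271368547379131939834643533, -2871968157529374066954976794693, -319261843489893210718285279796, 109237625117180644552592255692, 81673935991094533239601333159, 29740694739285613473721779298, 7397252843935172339119747288, 1192288791240178840938820983, 45449045269269053974643961, -44973428867392819932842430, -19876858385048912758682708, -6991532445753734431209509, -2977049656359846853056521, -1367820464578266576833969, -537109030892952950640809]
theorem b_chk12 : K.checkM false 4 12 48 1024 3072 tab1 (-384) 128 (2 ^ 20) 5 bL12 bQ12 = true := by
  decide +kernel
end TWP.C
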