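import Pool.Agent.TWP.C.Tab
namespace TWP.C
def bL13 : K.PL := [-147114946912318707918243414936342431813663881105, -60136526868210571572031128306906869122872424494, -25258210057557511544744094265819648397342269368, -11040978329862409115198469644906256921790449886, -5022008839353994357582125427563705763513292562, -2301440774269441333195056562888067878358642085, -990730395232182756443146515291177597015368472, -358696382510120465635096773010327653678962692, -85121093326435521164409704943433986911441560, 5801374155624296264969238683336665635160764, 19661347411319519530188845731368253940943986, 12012467101220738218031956198053002664588827, 4337096278311895013151908239801930390998984, 747983524862391019904193761514030967416905, -202512515137464504171202301211924545689226, -216141822967191688102997410741254719244635, -90151700156483371721980282376271641589955, -20656476094909332977974500174119222931355, -121051155137649751570221602701136395194, 2170970041225400125686556857892965554868, 1062684127442981477797086517288631980644, 299000846482654074414472709078548940287, 46281237393394999272708033178674011514, -2861816833677290312379348324303365928, -4750237661628733536738919478125639611, -2010796862166752293020751237521533273, -663021333416275952425082607114678491, -208928918857793188313738612792402073, -65391393149408496239087637374577806, -18575269762141426956417016373828268, -3735394603703500633388142925713550, 232120237033376005155574524000729, 817220842494866031829724112684437, 580974586701300168095357673505188, 289845905620677084062443655138669,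 108890136163657648201647627409125, 26814584851382496379750104717035, -3263289235745066296895299815, -4414028744682605965323958126565, -2877376800036484717313386248651, -1150956331652893558036174426411, -287081964083511285665677168139, -8603986580762437698093208637, 35197308673029456391333304853, 21929314963322478015148419313, 8057559653403333969619314737, 1777748450608999037635017042, -9503998604701352719660827]
def bQ13 : K.PL := [2308422965031421940994200169899205071247901781990, -464732318154610926116098743543542583460664509534, -48204851466821106390803898330872529162374596005, -10613554286196656560316924487371579271336797884, -3177778376208330967200497457063007844439964051, -1132668406783416009760499428996075143026363004, -415273298019205746797885698497137017684360620, -126822404292268606598587989651011870342432538, -16426775240518099944136563681754110712994947, 13894953007000167264491212773091380257407658, 13751662849738391295140708598468375900616776, 7140600349625079865239846717628527211295776, 2397530765290908520116270891240468706226225, 378916834148146286925490667815939641833144, -125914479355121298662147956305980467670473, -124830163526765626372328209254827896174371, -53409608742800698261669103807786427582408, -13962191618074799634976614366133236336976, -1435897421284312126991189387904977712941, 692927029731756211874848469657101494557, 494820174043432867573879774840442170081, 196373790816335062272805934052628712627, 63010093422156891839594262816736879716, 17685456023298264893492905311957158884, 3625343386227170438453723450839548910,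 -212452026118085679999035658700133501, -759824073771562316370453470408263905, -483179530455774219024155170054931281, -197053861977265917305787642020714045, -52832148907217874835446181329690301, -4825890564679172411239722840436893, 4077395678823332121442438828096672, 2966602646724965781963781641955078, 1204180546911839383993411767265448, 337105021539176999470834806468374, 53742142037459879287028128834146, -7566419762308786747387348142217, -10681233188816924082774030307964, -5556316257906990330505767395685, -2120294461485578771991748765038, -619200972864064025799629134722, -109066690917066702979125536365, 16175950442733551105146021471, 25598358337184076523575188581, 13866986601827865673877143994, 5106228925906727828126554723, 1270186364295513758705631617, 100872181803451223536152858]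
theorem b_chk13 : K.checkM false 4 12 48 1024 3072 tab1 (-320) 128 (2 ^ 20) 5 bL13 bQ13 = true := by
  decide +kernel
end TWP.C
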