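import Pool.Agent.TWP.C.Tab
namespace TWP.C
def bL14 : K.PL := [-179412859407627458981263211767620798918573974394, -68096929466022512389887481665947553914007160329, -27069634667366125355513378668151568079464918169, -11144380195062822097989177203338865871400975857, -4465935198609779384326274661572025991940980485, -1563026944594432718646218518840822347096453444, -397609193977708114726619350916630254532214304, -28630138340214100986902741073034925839255565, 35717556479940955143291993527406977407030421, 22519750660964788782788127187694934092110181, 7108113697245240994333855421564886501778895, 895663596147157921619743073141114788071033, -338112899265284195366147342507672995584179, -240510119428931551893959588694204832218203, -72459447737560874530516262802978099928269, -9232470068164686001170274882125861671197, 2291237464342695003779182652781633820579, 1684719601490752912789815707151170038161, 513136517334804705426905980603348142696, 86533850132276270013524214849693329771, -496383724143679661504408356529016565, -6199561393206237791265562579816872816, -2683683639424688677053786610070230044, -790440554556581658840336922308280068, -177494343417647938918766528721648449, -23359342580058147766572461856967117, 4558118890218480391598800115436544, 5031892998609196621854896774525485, 2339872636557211137208811807390900, 745809270619177797722117745084816, 147783040595759872488642880674997, -3708913822892226479668927939837, -18501594472832788964159380250184, -9307356705365201507752530045633, -2795426498723703896598740472976, -427107096248349390428828094220,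 78613688329012932839416133039, 82425722022201073069299796190, 32179360792337605638135183656, 7360733958583090019417525832, 400475128314814493871465351, -507272977173626685271708500, -275049135909278369267058517, -82008373417600661495303830, -13415080078702212041007557, 1043402136183517451406185, 1665037472383062211649243, 688133531440302888697154]
def bQ14 : K.PL := [2094849196802327015467558060825644923307005020198, -385743205644779070257083348904590450514228676122, -37690091101577065791142364632858475289606677675, -8100157725873887757223950310199122563148457287, -2279508987565607887173796242471162645533555410, -631357294235113090946757230325229805926742479, -110126353588324176835090039137101313756104992, 22439569886305417491860545861284317315380916, 30078516866569245080065943075020925720763514, 14458443621026472814076362038761615682553697, 4111273696750506685728052341843009734199911, 437390883483321679586827770089336913692158, -230972428256558033929619831053922967879392, -154254021450748246225100707539510443777966, -49134923708047288749293684702384077527786, -8261807671442052740798513983219822835282, 564119874420455363568148699177141669163, 957045733242861602585156427796818136578, 394346777193302401071162208042928101709, 105596087577897136279334298909375374471, 16859773406844692072722580884733500624, -1359814472636772347360506080740286046, -2368688076060003319963191549696502741, -1092905310571213039362112873206579834, -320030908958771678524707900356921699, -51073980568782097848613918898216485, 6587806007847765744451675698198462,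 8274090871927183686966525688894573, 3400017106582813402210986199256990, 861720237744119196696073220730123, 97310663447693565129750101026669, -33331976002086072020233906897738, -25287035578960650140741223492988, -9248590154924030192941647028309, -2168295775121042342289549968412, -193791890757974240515223268398, 111543665183902873581560675586, 74200781230700166440609162373, 26123617633259626387550297287, 5788001906701929529115421089, 340279383058015178381533573, -390367765111123241878627265, -225187030356499812339809330, -73418184087189010076653049, -14579110784378265615150391, -164247712394708062035396, 1308642675865251844160996, 659862011693136903418272]
theorem b_chk14 : K.checkM false 4 12 48 1024 3072 tab1 (-264) 96 (2 ^ 20) 3 bL14 bQ14 = true := by
  decide +kernel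
end TWP.C
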