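import Pool.Agent.TWP.C.Tab
namespace TWP.C
def bL15 : K.PL := [-221955991422521071975539986989879514691900805939, -106320776310552423901948594004354598991949899263, -52807165444009038839266551965663375044507518976, -24941391450143943183261576671662923213623619576, -9720290447976761780058512924225993669299021440, -2419958430476967156517140921424865747629421870, 85875352467504877172480579913617211689290017, 425112909283225742382107604637849403902630030, 211718375060445400961420363786281962692703363, 45495141443871215555537270913648146121703252, -6898217651402080547315984965250814154520865, -9119388980065921328614626860198751840157106, -3311805786827152771918621167649956896781238, -413962097157157068269730629056013043053338, 188910619195956229541610739270549128335630, 128619594560532687518213002311271448056241, 37462048408396526574985883013075188131818, 3683441586398631828377426653109753250235, -2119611383728224834529747753678677778388, -1382763781558895236900976781558109451841, -455660950414620460166395357276218895218, -80639785978712954866713981462507935592, 9876415922646484881052712672713133066, 15025935111518928726979899593691555843, 6975164479259210915399611947597734502, 1891275963785103028985179475565423505, 119005104124958884700863003532284009, -186335247095591343076378539193606422, -116310991628055681231087425014423749, -37330708670695653143311067732432176, -4368814406094375219189927446072626, 2595095776594408880026194354192827, 1905758645017620980497198358951015, 644295076161059669747433148712328, 86522525241505662421367213440325,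 -36877359991308999950769491287861, -29246334576472381328766281088726, -10128116956125161188457764840424, -1506105864773141371023795819662, 471234418650216427859629715961, 416744887498916840898375324201, 152340085470326024788472016479, 26671819982859398712387957464, -4796183568387475797857381189, -5634372005306971298962082464, -2289840197500680550242645784, -487891159068390128572157358, 28646157052256382734030913]
def bQ15 : K.PL := [1891378956729892845703086227664179591373064076514, -430861191777400793703071064607283352623000361851, -54119331769851438252326735709636242319639746626, -14388199808039521508285633022481934829830313145, -3970276474683120641138360565391346282384512873, -486402896240196833345532655568079127432390461, 385003310670464235320934410996960435051314535, 332230654233648305605579355845300047917176009, 134439031471634964570240104480941897351730451, 24253212167639561736592569668518853747672603, -6353331963014031150551435247079596270779125, -6501801414506872940558370653023084247132957, -2411077547842479381615233776198211879298739, -377693576368893937456064410933571412350153, 104558235753445246578341837896087107195475, 95460564678936823674181253335404479161797, 34955262915096503936496807203800765607853, 6315198512065185598920407187238352895069, -950533769651655473862495390621232037762, -1256312102011305018979523404545708333826, -534995584173920335152863219089521927306, -121531066890806743400390704123707099554, 4026389934440012312065706918169881162, 17322339534757789567195277457408314956, 8401843379620861640931505360019429405,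 2146618474601794323746738355912107036, 56189872186967884527978936410416798, -235704128757244956115335776437054996, -126922020772587233244370228790493448, -35769665727858135216341124072842562, -2684571678245055515555194130644463, 3018981601076793027613389523660573, 1874171311457916486035187149464215, 587846547871152608027131147315088, 70103387459166183323983629358623, -36596841802151479171920577938944, -27391592636485150168226866997770, -9507607582318303260586449855045, -1486839002940854600491661828593, 411627977583734320930097843199, 393776052240537649870647748697, 150658098905205034418656633383, 28538431858239455619216261517, -3961478430534573484610123380, -5541209250158489828570008280, -2346439964671565131380778797, -517711359820548631402323258, 24239371915338551998504573]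
theorem b_chk15 : K.checkM false 4 12 48 1024 3072 tab1 (-216) 96 (2 ^ 20) 3 bL15 bQ15 = true := by
  decide +kernel
end TWP.C
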