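import Pool.Agent.TWP.C.Tab
namespace TWP.C
def bL16 : K.PL := [-277550219946611508897159462795881524246342931060, -110978849630586767100674463177640801149137227928, -42522102663418958919429450681310366269614785558, -13216311513205430416237893412336140635595877669, -2559789990848338625916082912154088015485314582, 42823299741689098069161800070796556284028212, 221067092847929164557663460994114166367614829, 72005044367036759679658588117754462682846549, 6582634767918282692592380512098936176715744, -3196443945205848226645844735205533657188605, -1440708044443214546096359436089993571187180, -219646679233971960796842401541778753040953, 27662398451135540772537666041326283600926, 22115403627592673409436862847414341557303, 4981806693579375329507719934978266187015, 186711267797028939304761691394591874495, -242066234276663583781738560290954947018, -88693552167790669608895257092366661272, -14154591437583673445142203174525353214, 831817545407076022835810997431522411, 1196362427535365155566537462086869285, 359487901074845350812897592741708472, 44808907918147774076739774993652610, -8973000182331984851947022856801925, -6250452842629251609467717371448272, -1552401297210349914219362422853101, -100632838401960445641105764730185, 73946078045640138939803734750597, 32339701555029762025990933299214, 5868213400427603995891176749704, -249695347355805748937652051037, -487902307241620008157169882162, -146801123018991177185118027907, -15950045005710032638608927158, 4622865339119816586951513321, 2623433249493060908625094205, 565217981527315221115307637,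 12501845704014444695355284, -33807422038573006896094197, -12174077980431367767402768, -1815158216950715356862662, 208592001200920860528083, 192518113227053893467290, 50855158032245206248604, 4163889243320878885014, -2033333604758043877773, -969361972081945649032, -189892245743697945146]
def bQ16 : K.PL := [1701294022638461003227158475075000161795331131988, -323088608398356072288672846761577077883167504480, -33915233709093745296254374503263362373637411997, -6174794411324469706051800144920526574146353846, -559139919959629521691432157904541664616527096, 300744421498709841629612826940867163329370476, 181237631398214301644689254231105338837880148, 46017765394380851638475543904530980717106948, 2321841766550813219712535834913388842545601, -2723869857323270997484967446440398204179140, -1096098231994657527771211833038993090485815, -171757379886588459182404515133523619354533, 18827507087215541434230200255108482403271, 17744536671663824965491562618633311769800, 4587756906865457929886232771985024748948, 343408809221425297161982708842663210887, -190288624379643782194929055053054921893, -86977425276986301170816406055018599128, -16602830288832249809028641427587462028, 258347278526423970078701210205053840, 1215648742470562146989433058680373967, 394381905659404966736837724910845045, 50688573091545709132308967250820374, -9700657452103740012471809686895752, -6715744994666382534874751382425040, -1605667594041480458968394800698705, -85910612704370619515648277516436, 79795429452566032250287179421923, 32706921106753588933206167101496, 5622681339481390762951523607460,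 -318840929986140348418899707643, -488347787188904051109635281399, -143120882333565843027617819817, -15189702462211128990021206885, 4574349103903588675571923447, 2572295882548663249271977086, 557636268747790074545534146, 13772365783061712170259228, -33140256723415428704078199, -12109910005764063909142064, -1838681471828695686949369, 200392147514490028805645, 192160369055809704998709, 51230441502715299036950, 4258419645926087982000, -2034882124710835941058, -974822681922428004206, -190899721847607593284]
theorem b_chk16 : K.checkM false 4 12 48 1024 3072 tab1 (-176) 64 (2 ^ 20) 2 bL16 bQ16 = true := by
  decide +kernel
end TWP.C
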