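import Pool.Agent.TWP.C.Tab
namespace TWP.C
def bL17 : K.PL := [-345476823334556369635656703037765114612909183301, -164630104229335726549529267601492778110548772114, -65876515290264539503002235536739403268071951478, -17512803485077367666320454867697319418715713253, -1297699414754097611554412305483165065074739192, 1092328064421561915733511012264362153168915071, 464273725742552267311566066458146175624230212, 44835347312422383821652640387726967140464021, -26568048069155204570941673252558651469237629, -11376052561611602121389845297845174693811940, -1118264648401165621864309327953524548646880, 567238768316051867510497811170509400010977, 247715739322012153581101833545843757734362, 29348387287975450601665166291426895470281, -9746148218952452474836042432981340860809, -5101516826986631918475030922654288507843, -834615023146332376603468239053310534507, 124084481766545799136332979597645727873, 102969685148500520943230723358753455270, 23375457844541070805973733586442845767, -533816306168701808407587041361784384, -2028956437180630614135639817093050171, -615996008828805979875237023720410931, -36295914323463436770663638391839031, 38068042439249756347288795492774710, 15212367913717992445960851922293613, 1804052013330202361230644326860668, -652990158164833197680226079154207, -354025938726485451053134904188561, -60056820462070344951748977270095, 9386487273824700157744538209032, 7793794328611372296259581492463, 1717410673901571402194802722217, -79205797278852448792403774953, -162171359582326019635053282690, -45030192306076132375456320152, -1336693013628992055072240671,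 3164699069769032343056876802, 1110041950619148419471008721, 99983789836729464201776401, -56752548574782223966729760, -25998817647527685518823742, -3732724614896506148379407, 888711526289407494615819, 580514362325676258302827, 113569326162897404003234, -10267824390040035954640, -12337488295989989683716]
def bQ17 : K.PL := [1530476706682962324562120294994394554177227470944, -361781483719712641145192274941152129890804184979, -43440054653968493221985867670241065750007096725, -5988091525916160315495659578155251219565770686, 1069149196508042152256098745762721574046247436, 1071205449382829662668667667200968744557112788, 313650831462794762273724993864810408960705058, 11873587939291707186381464760595936487367163, -24294852277781573059116340766489376029645480, -8968121923328244580559488612049254215431023, -816017817118580209157515681094014736970842, 478967280798336058131918640363222126669857, 215735845127787472890718608903466425005870, 29357264749067044469494172990848166697777, -7893773495137850092101573442332377813489, -4816801096972880044113558091481092717577, -899302173934508726635790812414461540365, 97396974562997183779934632990417063311, 102677686076871178525261616570873571138, 24915350693507379715832172194125742958, -275731348241226201539760927155151087, -2080312596758571995813218795149662436, -639534555965562769683530484118884141, -36957535579153797962851925462562280, 39370339698570649329005439278534095, 15459301741030096130230239336321973, 1765594791817895347400512145000008, -673871027724613279316069099836002, -355059847197244439984099231609655,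 -58975522040643874168494076206364, 9620531910838136406765900190179, 7766591876801613063939834611786, 1699118566623176452910182746970, -80496940804508658520049391493, -161286142476846923573171099272, -44812256075785264802188717720, -1354785693017604955512333026, 3148822202985854482628901093, 1108593496107315805480773337, 100700078085286996406657737, -56552137074950361145702972, -26009633397300507906549785, -3746399254119597295025715, 887179619654389378106415, 581086067927876010782409, 113751709569013742567024, -10272886174925218411378, -12349171929578153868898]
theorem b_chk17 : K.checkM false 4 12 48 1024 3072 tab1 (-144) 64 (2 ^ 20) 2 bL17 bQ17 = true := by
  decide +kernel
end TWP.C
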