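import Pool.Agent.TWP.C.Tab
namespace TWP.C
def bL18 : K.PL := [-446489597867793939910375577899125518749506839876, -243858838798117994749941219478413662642235115658, -92277121620276521546591568061414103981185015343, -16180616150696479449911899324313304948064615620, 3207573277429894669631910756065636639718634298, 2441886231856445570528653415152123437275810736, 313085252421922682893682870713171020910370954, -162382100803871696620450075529538492938466915, -70542062871563058285900364117060038856052483, -2104002052530795492564462367482616686537180, 5985272337352085206749806966415719154254960, 1688643823032884949162296647831201020552352, -107071564523320957737584898066891109150260, -177783415096785169332112278317447871334450, -37197924453705125007131805495757445880481, 5884851499905550315432011811082444189833, 4922820242236827313993725608558839245211, 819560585869234692246327839773551151016, -220321788398281244722201486792722408851, -136256605561591501132863246608551233712, -17751974409913077140646734447680068936, 7641454775364139894047531269629163851, 3782180578131101346958765923230706255, 344339515259147127117926086664391755, -256399966912140077474067637154855786, -103365681431050936969642628471743271, -4787792872610693546373716359236584, 8301794602131142244695440074391360, 2742225387712134388869703712065942, -14412666563390371815884175785564, -258856683366716880231858357799184, -70100152847106219732331827132907, 4688501777356473453557640670370, 7797559646978073238830604912580, 1716262357629233976937871485452, -249539987334439505648979940227,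 -227983874706092997161351075047, -39788101330671947059718220078, 10152725113109144344724494928, 6491956107305486168085461040, 851314842751184088016895144, -366860065688442619880842439, -180267206948257247589831259, -15768970845462489780431899, 12363092177366254436561748, 4877490693062389993320942, 200555216074682759559689, -397014314324318662894902]
def bQ18 : K.PL := [1338082617345557408412721793962699887247045681179, -408785015679893466207614981731594411730793154280, -49190850131077829119690846274807853412534464397, -416323010201665924675166177898237513698810884, 4832702571704466448195726463669452910793150099, 1832273575258449636733865056302734600376122036, 90546671489842963240928301266679297312167522, -162602974810722517574315298760219238261323750, -56745760808443739255304540653505762228412469, -147654154880832735817290948269677780453970, 5405396287910563378224520308428456671133146, 1503689590678487863329764175073731037386587, -92573197825987303941308348291458976579695, -165163658704449611095056508981543067023820, -36833439466491208826095877879316445254012, 5140700650969158715148570108261358780475, 4827821632930504428592549047444818990545, 857391276467393939887935134398662946370, -210471901817988065539047464450107600625, -137683295722085863025741365380440361071, -18533946321361395414473190271388684259, 7651197123581923887589091424970981529, 3833526490385590871244078995323367848, 349195640027555118965860414719136913, -259171575283780287164264957608245669, -103973786300789151849863478208165281, -4675924664363671649058540850666994,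 8352590264655118991888675509950216, 2740527117187690745768652322722182, -17831373137143726272935109446314, -259113197299466033102829026542234, -69909678640596431451579848173357, 4725125609023073334555729468686, 7789319011934199370471954616759, 1713051485802143321324642283260, -249356213860348098118151630025, -227759615749610384413003474216, -39775961960241991080220143991, 10139716201586550409165210431, 6489797636050019916987568995, 851914730029369035116374612, -366658562130512572652002762, -180284013327715182755280682, -15783610073237087061224354, 12362605479583183355546969, 4878372409610186605698258, 200680116734171635590623, -397057242693711108683211]
theorem b_chk18 : K.checkM false 4 12 48 1024 3072 tab1 (-112) 64 (2 ^ 20) 2 bL18 bQ18 = true := by
  decide +kernel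
end TWP.C
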