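import Pool.Agent.TWP.C.Tab
namespace TWP.C
def bL19 : K.PL := [-593230742113907279320682850209097504881332747558, -345867952558099509670741548663656367615753328899, -108527608761386759741588000344001396517441672356, -3352863523209883703220663811551679568420969678, 9482538161756729863291753126927077610923609243, 2075923350776086764169893645019230321903076226, -672468168607980596895905570678635141045674228, -347024923304469301339290573103958761089831327, 10511898499361669396388199852463905363877376, 38768981605590228884700237735665051653326445, 6052400569428246646770775629563354807674917, -2877455300793418095574724210225671746179789, -1175272436923430623750029915166298054507361, 65005469481085360251308186055700494102618, 133400569375707199392418609007646795683036, 20271861425426391784108028583101954240175, -9593316187487801497124307142788636256285, -4070885069169653160693937201969866012877, 151117940450108310457517387929936746894, 454879269458193165835461940989795531976, 79019035127831338403493735211609882162, -31070190918428482206828417312694421123, -14749842378404960431047746460066429337, 183136446660169355734619664386651115, 1584952137930622869340176774441690873, 310404303604612351696731972179519782, -101798985463283648515704668083477217, -53701918230049227437756462568063883, -462766607397228563413266058022879, 5536696207107576561206971131081523, 1196263244724014062099744931956073, -332603635617020335866126313941999, -194326734055588172072457354143252, -5399797024121843461359769683431, 19248291935194686766358420037858, 4553917027437328926033651118242,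 -1073569450444477428960588176648, -699656214869105983518225069284, -32479454666983214621655551929, 66585224900666603843843124112, 17201923451851851243715374126, -3412507847585738679741437056, -2509797612442943815375533578, -162547701888317027079369708, 229317363504093859999964015, 64559918900976501310940736, -10650688324825095101845453, -8972834994645544906894869]
def bQ19 : K.PL := [1121699587529166670340550438445739532987791022101, -455303409686245881218336968070785910880938542415, -40321528590298999237087879505373239014702589391, 13606885074603503594420164523284542650085629037, 8813877688173933862699531590234852976068157480, 903766313579961100934157324836442782172137189, -788570162248189880134719522834670667430117150, -286279286410599771119803525370985250200374267, 23706630650158463965263534224237896677083081, 36205935567200804476986357516912555179831402, 5093781189222452354904613330982282002450315, -2780094330008815450917754992085439472138610, -1114318011470217438997432572690436738550309, 61238073328258604827404661157928159105495, 129515840065883752776937174347856244482167, 20411740086074507369543902513545461779230, -9333764531922909063662994743465624038561, -4072292745892672477024264225135001649102, 133426994967803064375924875106253064613, 454278184379826482859740798414360993466, 80198176041536718048750944502378929235, -30976249651980276674450698779012480617, -14824913045510187401193293688717581656, 173310021315863520674481054536780624, 1589488969204887301476784030894201231, 311268273749866070965055380452017955, -102059051960013046571531495608203698,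 -53770818072435618935596699051929556, -448714485793539546218399714017983, 5541868033372652728638665498953929, 1195564347792763399577490332067985, -332976079055722485327738544101173, -194296869446027842577703572646826, -5373836903452414050705581730463, 19247455097811240198653043959114, 4552160149807064936244268158084, -1073591535869398475132761672825, -699540745248909250619811680116, -32472874866132875361010138490, 66577864381008304673848888449, 17201160704287577586005729828, -3412054061877886634146952048, -2509726933893519065924883632, -162574621674003032988575302, 229311487517841557430276734, 64561441113851372043305025, -10650231650632880937815662, -8972915561919020407685593]
theorem b_chk19 : K.checkM false 4 12 48 1024 3072 tab1 (-80) 64 (2 ^ 20) 2 bL19 bQ19 = true := by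
  decide +kernel
end TWP.C
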