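import Pool.Agent.TWP.C.Tab
namespace TWP.C
def bL2 : K.PL := [-37478196165079711126598562096644014160253616512, -7690173554794054158140300116980114939741737488, -1578432670758406415217330275058664269995353596, -324110537416191699782392919949820196728630316, -66585949677669678583519432242785532731302760, -13688006776610251391133144462565998976158730, -2815869844440252632883210033503317069767016, -579758645895712102657562467660172888769540, -119479355635821408495051587471022834034841, -24649013713038319881883330124898110872010, -5091185525502470799145160194850334836855, -1052942233089092646436861231924386572647, -218078139337906378386170049143921901693, -45237637454873778125830532142520746799, -9400024862149372038335220139532345064, -1956878190931328468410175809809958567, -408199473392285297549097745743743597, -85335032869330730903816454193780490, -17881576723162050905909313592449702, -3756561771813651510262545630622147, -791353431684816337930151577782504, -167202077843397441236168589736899, -35441169171923576984278378692631, -7538459529685862302007691825571, -1609491378081000321951622974114, -345033432080588458860048478918, -74293118636839512818704839948, -16073659158001935553519074918, -3495759178246845976842988798, -764595623072521136908614327, -168272782549016883927161880, -37286080498372685394675293, -8323919256487893709402352, -1873716546959039569116838, -425682039865541062659317, -97715974407177067613058, -22695641520502670846098, -5342386689909046039961, -1276971439354502621597, -310586261487145058381, -77013709410649024365,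 -19491523605014641406, -5033289020018777775, -1322449227320804325, -351469967042519275, -93619057394578456, -24673248837246482, -6324051568333916]
def bQ2 : K.PL := [4563460420302509439866600838553294592136517333801, -468094623926722530895592226228505776288882738552, -24017024757176024646395004497577460379841602894, -2466204426876734287828558457969380921832109466, -316856148576770894727061239248665479803791678, -45650555654082886657483348167976946033171608, -7057428238594044041974863534897357881561772, -1145050271940183869105622854092756789954141, -192511698362000525040898009764671062661992, -33273804965704511272423770758777654011778, -5881482050846879178396141651421230715002, -1059357806955989029078786940496531303127, -193934478816675516342233777053988958878, -36017317345890426917541155289719430734, -6776555206845379625792994435082363754, -1290312197754317705976449854151379894, -248441979521431753177942743634283535, -48343379955157969066411355081735567, -9502328561949253754553229703423851, -1886039396326220107941434994154994, -377905465983064485012713562904493, -76426021443861574573726914314372, -15597811922835099738622478306675, -3212256807150003332585776476397, -667512847137038262275239512315, -139961339634886500286742227551, -29612112338783547072545761411, -6322304374169337293939591230, -1362315674636793328264992221, -296312847989159637884540101, -65071975709868908796348089, -14432474048883216341377046, -3234175902696788324453376, -732634123564371361755351, -167881733186605460632445, -38948617701951924485917,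 -9158848453905545361324, -2186048299607583539623, -530478872785121516674, -131107420573581450993, -33050962284713484478, -8503688819108538236, -2230713265041852379, -594532598769568314, -159948381048212918, -43014734802372122, -11411286874688214, -2933952817886349]
theorem b_chk2 : K.checkM false 4 12 48 1024 3072 tab1 (-1248) 256 (2 ^ 20) 14 bL2 bQ2 = true := by
  decide +kernel
end TWP.C
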