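import Pool.Agent.TWP.C.Tab
namespace TWP.C
def bL20 : K.PL := [-793071294713332231703447095393596172710240067431, -451682156639239245368260330735649497226467624567, -97580179237313750979604003076226287518489383872, 18434371666320213257978335840545291401541283189, 10841397123817254851388772110586548298500940097, -1363972190381347335166667664316035007879301620, -1382934118682820406239454023046874831029631003, 51840069402170581090107695620024673130728610, 166596356612252377411472481339014642939839326, 8796952569250562383141119158700063463968602, -18297561743520271135873884828294965610870810, -2776404822581669177813232196835168462361678, 1792550560695846672454820563237300765078135, 498342060419071478599884286445793514529066, -149339966718767308635296716451558915461210, -72182833833585768887437818019740230243054, 8977329044798060516875825126478116941166, 9131662022740817959230468724786155557486, -4802276527612655292740268185400610543, -1033554362228531059662997385321864701135, -114451913344804642792845182960780816855, 104408016012833506280786853073683485871, 24618348926861111196359214403272550897, -9106913362519914022574493303981778776, -3809694741323958987550673152739999883, 610138961876491008088794671985774096, 500652239109137264460748241764830537, -13627134813242354409917156787839408, -58393693071667528175593987908433609, -4941896051824813304054475051224967, 6084947472634379632933792699920230, 1237407638106615409853637702776491, -553830078123012489183045572542906, -202079489998036542357861330780050, 40472194426567477512357940785610,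 27449722441316177108117558415728, -1549161940904206141436229929406, -3290094274433705186643442211547, -189382913828363264207063764071, 352690932483016639459133145086, 60677497287341893499547530710, -33323608860975140771149350565, -10592862946695453952615907927, 2608837086024217714034532275, 1492943368396961916530756586, -130539821063770821758131070, -184078163616242429213787584, -5614530951229731725637575]
def bQ20 : K.PL := [886233079939347025706504186494818364130301598759, -480906759303307272229432985303723359349772032839, -6466746978639586508166815642436277148131852579, 30987948131906765948255355501657489955927133643, 7117573248173591898675420447356463161917649857, -2499843811499353534002232804010231767164184074, -1231364209402968809645896509204260167740774338, 131238467117469513312103184608458224325930925, 161052235154821133220577421845652886332499427, 4076742910922966622120999804881856470250913, -18050197346163478566719694952904850059799126, -2520630979830108631066884831009860979731749, 1773062227271348010147341960805453421181805, 484732135229642008907584422437566922294769, -147410686866907259615614342276101334878641, -71419236639045054882678824974280710050487, 8800718698492487774884298567679770451838, 9085189606222962625149622204995735230451, 9582203903521726346627320145881328347, -1030577065465719287247325680755310614384, -115524023557224928985646309315355434224, 104217123889301770731395274906486883487, 24693957295733652263340223880392705374, -9095101668119187033143982112372091542, -3814881230561523503895400122128984163, 609446283417155973986017776706965618,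 501004840309659896393175915910053117, -13588985679578961290911523978072498, -58417666604917328322138690491523656, -4943847129987355561903334935895661, 6086579536861208707707628337881024, 1237497570767914147398116622436708, -553940994895962408023127882093511, -202082875778075071216303972726851, 40479691431837602329341787336189, 27449780136181879568373583478215, -1549664617425408094034999024827, -3290087212737250199582234742208, -189349513449159735954759765669, 352689744998468601505697103757, 60675297874228395452727934202, -33323482317184407326055775570, -10592719339270236607425247539, 2608825525772482356039305872, 1492934067115471006940678649, -130538846265067195920565079, -184077566008321200838574386, -5614609110583956671045933]
theorem b_chk20 : K.checkM false 4 12 48 1024 3072 tab1 (-48) 64 (2 ^ 20) 2 bL20 bQ20 = true := by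
  decide +kernel
end TWP.C
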