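import Pool.Agent.TWP.C.Tab
namespace TWP.C
def bL21 : K.PL := [-1040388712328222413188341515678070840224798028988, -530685383902574977971558955489531368558816592837, -56561996172248821483767514579587678119791742010, 33648322311242325584574842676420009982318608313, 3172538685474871356081700904654935751647025017, -4156465853355737592855735805612546071869547928, -192965951800936979555515180068056155209739720, 517941070711686641789857303471185189255461322, 8781192186892043963113776081249908719247883, -62714797568366901587728943476955311486591539, 31052531593212759682294379512895403841038, 7431402203778552338063174703278728686433221, -81073249026444996139178130663794199181235, -870433323304378160169509662132664492391618, 15100865161700769215107266980800495535867, 101466306764797218860346199764682900370213, -2197689716603330072151649477376280153415, -11813542586652081410022416603979926278610, 294320001861795854714869337183456863380, 1375757932496895902518743914875106151262, -38102443424513593272433279855291198832, -160311606285556256331644074830313360877, 4857081875718415676803958530026050947, 18690251937357676251878475224734958958, -614042585825111015723126894484396137, -2179770827440571185539958707333952733, 77198573985079817160683138878750900, 254260772150667224372457073781499512, -9661944635287111932533252337279241, -29660020096695178444822062233996606, 1204399120081398658124550939899043, 3459860647538389555501952988127050, -149576080597231762962571987764375, -403577122305793943401694826770344, 18512350478856310366169158413585, 47072699264765394022217065526482,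 -2283964820638503542110962949644, -5490151058554205645099736861573, 280972387816064244727428108130, 640282880973065956784722323098, -34474304603872914372427152626, -74667610554442461447588687841, 4219751507631140522696264480, 8706945183402821242733842334, -515381853806338505286360153, -1015249711696395303822736685, 62820783318776498033301935, 118373264578852704989133956]
def bQ21 : K.PL := [648385639199007912110118759995343424182009546332, -461561645247500435874864178541012178681923973046, 46566743555786606688074148561548285642170461025, 36451668250588768113055691947176130425046339893, -2516633751402161884080791890146129126260413768, -4493151950822269733324267643227627595823805475, 154631375697551628225439427452542536791901161, 540885988232149388431866440186044815016371596, -10977465069039936184797988407574801445743677, -63663661068969465879609466067569989072971980, 1043043388766819447618098913810619349573969, 7428751378066441506454918861680718679677414, -126022234184245093377869871992841360329444, -865376843046356661996733460297207773795873, 16621573694065249110713251890014494258456, 100853422630719481237765227695436095055240, -2209525211673801154849343791389585428093, -11761341999327730111606147754240371452641, 290000960324218700104727466761154691833, 1372101674548759122818484336737284783359, -37542550635400400409753006929929922001, -160093760697364785087037073118042737500, 4806761302083012799460268077842190282, 18679485207051141507263982401448153608, -610194345992592263878273516611425460, -2179390265824101394758027777115103168,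 76935133189759783112166149350395194, 254260038391703726715547810836708027, -9645632906874232585279456283324574, -29661526751924500143874172115982090, 1203498379005013718241900694860391, 3460046230917977300406191090301728, -149533985827742646800282371763415, -403593330752704871160077511129698, 18510977098940712948040289929157, 47073891692925536534619266203049, -2283974031629209746182645407736, -5490228260618935538374359218032, 280979335260439084956767391463, 640287289568294123274691354625, -34475119098600443962377882847, -74667824577912191170038434703, 4219822098273611273168237527, 8706952823345246277979153094, -515387069585474361222488882, -1015249747781750914590911227, 62821124518975710372715943, 118373237021126964824718753]
theorem b_chk21 : K.checkM false 4 12 48 1024 3072 tab1 (-16) 64 (2 ^ 20) 2 bL21 bQ21 = true := by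
  decide +kernel
end TWP.C
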