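import Pool.Agent.TWP.C.Tab
namespace TWP.C
def bL22 : K.PL := [-1315596522253641063074801385304010978107160915746, -561704874568705495728635161399052613550744717151, -6380323561051320672349862383442184483432850078, 30190424454485880455534523595071944209227459854, -5866811028045486902016826605460003659706285564, -2399236114231705431966874851380768758259807840, 1118735449830691071082638780478591761797710145, 119728104947439672020938517945388904374931851, -152132559524137239473363125478154387833251674, 6195300302834401275000846645869825994923054, 17112038418820933519396841149303000724888262, -2850717223393217399850476293960950150961979, -1628931475587849294211391115955082152792818, 521651072260817717087020920377451167872236, 124209549879034957661847018369584861672937, -73914752318018693118954643610051188731811, -5459890665341388113656461114925940421441, 9013961127540341702904998665088556156407, -429890937158153326313665977135760041207, -970657052520033894191612817428587055142, 161330924562000770925477990808153376354, 91178880410017325600514079228755719013, -28840013500957230612045770875804569141, -6981921127167835238267817578950540918, 4075421059227149104061809322906469947, 318568039919941596047208934916814841, -498551450079997436265549215851407984, 21668054387338292621279192530318384, 53969715963870313008501511784145010, -8706333180513703721377605787999839, -5106026079834394158434206545979796, 1577822161089798326555275652603137, 395749041440616506268701463000131, -224604667805941378487534325840670, -18823027902194205749719150432188,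 27628063044211703835957646822013, -1067444581656249391919871090786, -3006650648280642078452850744263, 469201062647174542566183058249, 286310442663646942363569719463, -86324546368383805095642375362, -22440424970536707943544814009, 12379996695234843416298636181, 1108553155090185991390953956, -1531078626204086842868021533, 51745321324642446324414824, 167480032064676849239449037, -25262212640232137079519646]
def bQ22 : K.PL := [433511739464305067369401978447249733095492831607, -390233252038592787666928355176321338197214006245, 92331012540883401378502987789776729831523068393, 21658001903224631328723248361942122047954835788, -11080769996007115904197559545614237216900871445, -1710750526226859759741618228175722045996203882, 1411041307541049184366920414808055019004497014, 69272890526121697644473419772535718450286623, -165975994348302134521452078604716036472984874, 9310233832014480071792215601997472278307700, 17591366573136574144187874583873892758762932, -3000990557165235099834711134584963534392916, -1634854788854928861214883630683567192869736, 525950392758787027465186327595311832655760, 123525557838106816487336860132203544620793, -73795355257425893110988111931645041621409, -5395997723596577185645752070879971590904, 8984406606805655240987978891960210182746, -432382373411707996610400358998704699231, -967944695204976551657577341794593823228, 161274477134007062900666281812640547764, 91001503588036528653736236597462968015, -28821722110915560648321316161445545581, -6973216612633856013961447948668804887, 4073637607789457741013018500490829552, 318297110710372380643055442019271481,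 -498433738679774306256897093810883801, 21665802440425323927561377428795002, 53964308084494550509669259163025914, -8705234876091904025285410054683865, -5105919137467981630033277056497310, 1577725979144617573808309713692600, 395759009365075289380054748921092, -224599323737077247562009682186359, -18824498759122871778996268958818, 27627893787739389591676694330122, -1067328109897981416910713670733, -3006654021651136902613538224944, 469194453428113407702404410559, 286311441327139131582993420999, -86324294641580326948480429202, -22440514597336778503711900072, 12379995025659504342904429816, 1108558539916537612705809617, -1531079360976610894414970306, 51745110631807991450843402, 167480111495711788395973837, -25262211570994457076536161]
theorem b_chk22 : K.checkM false 4 12 48 1024 3072 tab1 (16) 64 (2 ^ 20) 2 bL22 bQ22 = true := by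
  decide +kernel
end TWP.C
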