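import Pool.Agent.TWP.C.Tab
namespace TWP.C
def bL23 : K.PL := [-1594694040749339102135733320174882644327077398990, -548911683059911020131789311057340649046982696165, 28171240353729480316260402529269924922142202383, 15273020086305729597149064486587904421520315575, -7740568545922215913257002688427867858971186329, 676394900489205252954351436516405790314467443, 705562111553689470253762889680968778120287023, -259984199471260544669584597255546646831681392, -17736124070925369921911335729152160763284241, 33321736770313960557933402385929932378678858, -5483283914939022369511446107021756848277458, -2428774343383161524549749698877623368685017, 1110417443876716055340591508256812408069878, 22066667844708768213027937222687796563956, -121841401635080804293554716778964427347701, 23390175847934943345977731523659147593225, 7814887623489566471772684143274984161542, -4089440373035169034524088991982108814684, 47641743985038225017607593794372345304, 416213315035109354215110779565983596532, -92839543191177145364131492388364641827, -23781256415081557763432367338073949240, 14701688658430206469933462875820170876, -624683262553645766994794186752486123, -1401385588505688997505622465824420750, 360987955655626322141553122854110766, 69985658526440330016689124038674584, -52423747869020159588913043580893420, 3761060732787184417013570204590539, 4674834240278545578550477398292814, -1378525700654780992618497311531849, -196818014328489590855970844408544, 185307321733653844283277549230754, -18559939091026562962203331854543, -15413505985446694447149636129886, 5187228901131392672806851603060,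 513513225879856259949794858688, -649376151786769462784732858109, 83417653072137559982691982205, 50137368701157167985799209133, -19276969683105550216933084129, -1163316147165312226549325935, 2256094179531181190601551050, -354562135224874879377956266, -160532637417246992982687726, 70845924646791872960341984, 1800228594273085275436145, -7769407968809265799622958]
def bQ23 : K.PL := [263461081678727869977064484572171472778578481937, -287471328249574254845321948548583697628944141284, 107359424124198537481466067766048122952468849897, -1365499164112523212667085835611275418883194390, -10405028763818542565944087847848277611898156381, 1907206897429200424768022692154093411061251488, 761164669738110382299325694714181298391074776, -333734022094938668507249600338404712616108483, -15303937868972781345310366078789853307464615, 36765728589907649933033078151789549673918094, -5802549819742450033629203245744033289890149, -2548569764593272031046049039621225717471275, 1125453792866677851150295651424929956780424, 25121215670333828424958375014852807449801, -121878470988365437661797382480319355467806, 23277101139362571100614910363699619020833, 7763272836175348947210934912267455681560, -4076385782010084023640337434681718977054, 52142266377283811276273386386785592659, 414802900639776897709375436045233780940, -93045813480167494854875890919793232090, -23672598575222137176398505600399910762, 14704583141409348234299512545545523012, -630815546629816729119453065440840599, -1401022789482920766568165603145631268, 361235531001146587461109336108794232, 69952205434890942939587776830577544,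 -52429746072008161328405878788047017, 3762282235380601115348076324761271, 4674849091780162600467296523323087, -1378501674534668742781141188637380, -196818085192553438690136976105009, 185300869184396205001388983255664, -18559020794114430046698032634128, -15413041407810748149864573108682, 5187106641552979347905968077877, 513495369920244979434003372011, -649366846207632971048893154777, 83417695441773647810960649425, 50136888580146578036471864458, -19276923849232964459121917584, -1163300597763515454747424914, 2256090918892932785184234627, -354562238353512524893383613, -160532554049675704776600151, 70845905870873730650700374, 1800233814120645180143234, -7769407393727453119295240]
theorem b_chk23 : K.checkM false 4 12 48 1024 3072 tab1 (48) 64 (2 ^ 20) 2 bL23 bQ23 = true := by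
  decide +kernel
end TWP.C
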