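import Pool.Agent.TWP.C.Tab
namespace TWP.C
def bL24 : K.PL := [-1860651610065873341467344177961014952170719852137, -512840795217730564409097393452973628241483432481, 40806718604810736712482979412407945074951880145, 2684515260440018621373613984235176220951944791, -4509722430726715624768472758262639353450987705, 1512291027337514639490453099145133417033946637, -70526121924163710034102756655644457838204226, -137878389602202280373342467770333651758586118, 51344115647665960630177162973867899463211757, -1417576340100195707604154798466384391395548, -4737456743087840159641544987268563810062372, 1492275210282753870788839357522502009543325, 36943261262792496956838965782623601379389, -151650013928123871417908196311909993593894, 38474618611651267524795537700463332379661, 3450553436798489559035534646771688852120, -4503970440868508215097411778995068320227, 929496001245300666005801327654423337903, 155913611889398106959904615065295040539, -128777771206673975963142928645027053413, 21544221054169855410398596209219683886, 5842671796106927566069613213909780362, -3615325143485270530970752519400605824, 470590165129172193009784633202134167, 202081206778639764293732249888496698, -99789345604851017678257372110742731, 9188407060669083836218603095520102, 6643179651967130118512183375575527, -2698934961699788497436563735619195, 139436097884751829644575588343447, 210002161403902632398448592176343, -71358254559793397340096901726112, 519720560332690965206676205835, 6433009320446278262957851431033, -1840019379849953159292766572944, -80366137021691404700914458158,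 191996126345750054292707349339, -46081715288194624111762771098, -4859470322554899185340258499, 5601631683251903711004697545, -1112685322751244252142059648, -206363000816280910327304734, 160061019753459874047720584, -25570468698483837441988511, -7630589728174731202762364, 4482976210237197489706413, -545560560644156482547969, -261249896897176693218132]
def bQ24 : K.PL := [145813163395479606652634956615242451756088996922, -185636122677274744937729121241990841726402898061, 92584642043624866827967350256796049538221140137, -16219808441499820833459671007920613013471080632, -4188420233718229001370876702065283736540372677, 2563599707251272007088703497319378488039951847, -225524449005895485505683139026349168377448585, -177713950660943528937020787630341427081522426, 63790517748465599415400829980008210597779536, -681345817181793496937353275012530302297291, -5375206985402925188624741867406594274536784, 1507078668144039117894437299726110206556238, 61922215822993928487421206783170599116857, -152929123374027256302835188722615727720321, 37467658683581126616260782936826422324477, 3471669539919692741650654732454658945518, -4443220501823033136328630465620764841190, 928507587641428539383610932047364542315, 151606714059463331959057678717567221279, -128422762153077387168237644202132434586, 21794078039602408726392121772131280611, 5798243400664720217834354503869979716, -3625494089266781161639663893482834570, 473937527191520454602866987983454310, 202304194010082127325059085605146776, -99970136089866174461560599556483881, 9191434844506033256814183155188242,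 6650954539796442844971291253565149, -2699414264009558752811132178285797, 139115916903642155849952247394376, 210025084293088555174321792783363, -71341774728017249957830969636627, 518474315678293533574411413094, 6431988584550574185987896408674, -1839896230356364434565869698816, -80308796063732612465282358686, 191984341108120034852362335653, -46084119908856437036424250555, -4858612994809100513385149976, 5601689343808051908276227937, -1112733488401980058296805236, -206362319448331020646515023, 160063240965919333187913608, -25570617828266713906802647, -7630684606843702314791309, 4482985571891399055886512, -545556050458527243898697, -261250440988415861660660]
theorem b_chk24 : K.checkM false 4 12 48 1024 3072 tab1 (80) 64 (2 ^ 20) 2 bL24 bQ24 = true := by
  decide +kernel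
end TWP.C
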