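import Pool.Agent.TWP.C.Tab
namespace TWP.C
def bL25 : K.PL := [-2106771347429495796809733792295773988451044891568, -471828182059106022011028932460424315163669013457, 39824060080723875292368437460791073384570584241, -2947633755866739281973787760301453809700434294, -1389436631843275899080580229373687867931943768, 898180033565209011475588977648474952397627372, -250254526275993505473757439240461779742776468, 12340861792606510520577394655224538308972926, 19289699073900086634507935396531459296036138, -7979176740911468942036950775190350635350679, 974498987619920505301799494486719118720216, 375450278165126217465105851538611446926195, -203227916810504644971361591583656967405090, 33228045103976743624969882708379310013348, 6058120010937468940289845946159230015122, -4545808168794575929767896534538209078860, 942661096401742475881891345142456582842, 61210922220523297798506529152399731658, -93139109832400558305633218353854458609, 24711431195215151679890390582020424039, -546475314130141624392708847758713394, -1773761811917715027894411045725879140, 611038569425121418495095367531965326, -55105940955028640757369362573837757, -30896146609978235284290714662564666, 14275644108490210676921586230007009, -2108533805251252943001544834342324, -461583175385629661755744329685398, 314952132073024029713380428024888, -63814097334570240247560154038328, -4650552460200904692244804883587, 6545086224341448286576698897091, -1717688017698717768266515112056, 28704218421322216040104944244, 127015943556722299320364112604, -42781025577269743081275902213, 3575166704805216487916777381,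 2251549881861035338520898403, -1001759703257504720052690401, 141034197257208221963195437, 34452248296826663163410918, -22176525621470704646306354, 4342276702145233885959938, 373616397861327036709552, -463572012484613153010517, 118246115917987909020461, -954541817905516743960, -9073198909198990118172]
def bQ25 : K.PL := [73927453865441076357621764223281458612939845210, -106567271369305871540410599016389798641510738273, 64875677484469579547027515055782775514980828064, -19033548111569519293445023221187379963819155454, 859955991403714711139536540154054213482484534, 1363508621290606340579485365389647559209878367, -457646497697863641105425545442042336081244303, 20214794267125086985082181265052267202909174, 28857767643797259684973460072097324277242025, -9654759861756514589047960943785112542291031, 730391370444188230448395216278930073543903, 478369148038272075000780347186419511131169, -202567612579144359133133378700999573913360, 28667232346245322275569381935394570846534, 6356978810777348239362308761578885410659, -4349319725415396612299281037995714373270, 915213161580664218045450273807443389293, 52447201344720895970261505277563655278, -90851758098996954643789274202862102521, 24994795979184282783720302622150500483, -707449736714439337796909248325480150, -1771260336071843218723811828453095143, 619512916184376014219763260438988950, -56241462956329516498120935448486566, -31199472626215633996218885277122837, 14367357372575309701377858779383143, -2103755006199892179884707977821018, -466524406751554518837238939370603, 315218905749554886899902203577941,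 -63602594360612127072682122689549, -4682660958005533714668578872345, 6537503254656769789379329915972, -1715413588062329301020954665106, 28893092831110005211243125742, 126879594346623652634957109297, -42778023532431636728999305312, 3582120071607215504456340171, 2250675927087428999696346636, -1002034076207537364418941342, 141108979293636604850017520, 34458414195651028625126274, -22180991585181044363086696, 4342432782262275031764437, 373824122535779596634094, -463600712228429798500708, 118238593232773087949579, -952379218239280744246, -9073027860535459948240]
theorem b_chk25 : K.checkM false 4 12 48 1024 3072 tab1 (112) 64 (2 ^ 20) 2 bL25 bQ25 = true := by
  decide +kernel
end TWP.C
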