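import Pool.Agent.TWP.C.Tab
namespace TWP.C
def bL27 : K.PL := [-2689898776950393667312655566765174070724399758507, -575242237379202688649496154599553339106017267235, 55753077592398931676967973195310544242679037938, -10003319138596149660125185825990973524021435678, 1902581031461332412067669980726021953155439956, -182607721249964726615992456826316073829757446, -137580926498156305729826220944549589228728057, 126880330724388043325207684800415391195531577, -64364610305822249270552273241116101944753207, 21326410855140174311527427771869999804919443, -3095363629626207011766653856204992082184827, -1354756637468545223092541954775535909612010, 1183247727848032901298686287047282113259282, -444582959542387419741169216794834450000035, 75658709531218661437773553849020242192407, 16845463446091771434514715944736638025046, -17016416104441296018897649457981550468825, 6205457133933935478725376833229229543653, -1078811909175895055079327817369850879412, -144317298988426984654908701609891611340, 177728572413618310632434247047331226883, -69741637070966777106691075009916863296, 15806897030549181380508256116254449319, -690764435034229499510566335706661891, -1320144953591746005277740732352616863, 765250929364712584325648078438034646, -254821311207677996080288013570322935, 45861786058495068423157862547746969, 6022865807465276300286069906706208, -8637068381046752316429805778658052, 3767623469534397054607221320565404, -919182828764623938887163998495547, 30793534354123129391918971642844, 89210943765852625820614203381361, -48038892526479508240490173106004, 14001511756252455832796898282681,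 -1666390876367464354994744389097, -707329400387713282775296616223, 536394283444693905102771749943, -191683301874367668080026801021, 37581799247166693103246669000, 2206794654484698365325968429, -5321155863161782182877485006, 2469728509653101031058517925, -662165491526025515113774842, 58772605066751134423709158, 45150259917671830050929582, -29703108434285135148308403]
def bQ27 : K.PL := [7669043572981947722341718232251484267435601299, -21172351505213630180480866032451563537115416578, 26961956435869623235421891705562044352280892511, -20498824113067785766607475875755063501841529076, 9845943327974829882722476129767494616679024335, -2660935367409164844685116206625747319765022423, 6770466953282411684998310741442626661040162, 340243530609259859671496437697649496821224213, -154721123821991250185237564881051766508191174, 29996989960754824204474154851097574736957117, 2886283907502234870406060234751724431370776, -3985609138210851165803649283960851755160375, 1410511941312168194896320394455739537470357, -272552307597184360954798975932979288043551, 6579886358544776780921375576533547380755, 20805354811845885904747814369749010765689, -11898833262971635885528575757787929669498, 4411290635935138216103249480119535393733, -1043226345863495254289016205787890836303, 12085730210037597365310351892200969881, 129536678285103683990822244087889168882, -70526011336414825090615668405347981112, 20588947155085867439566394495795648838, -2018071864475616043723003415101294646, -1381703781542010002225440848189957174, 908621748749781450478940405845183709, -291329222436884105851796447729390687,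 43180719564597615802462203823740460, 10226799431761647520585983160780115, -9623209845916338706195846666315315, 3665776465108002576540092989022232, -797713633477383246627771242131010, 4734045715553037904400326665718, 85546686062274688517655848735339, -44552266197171111206789567870621, 13325878276595490261927804172367, -1793502540692410932310953276804, -607513023489349020253376356413, 519149275985355355995262614884, -195950958294899590970774053768, 40431863753062347800960655098, 1773348460367791285147220731, -5460334040711640074017949955, 2550752807939517835271881425, -672848020161008150030009301, 54340420923642765658235470, 47440188340818834302916252, -29958974773305296432070027]
theorem b_chk27 : K.checkM false 4 12 48 1024 3072 tab1 (200) 96 (2 ^ 20) 2 bL27 bQ27 = true := by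
  decide +kernel
end TWP.C
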