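import Pool.Agent.TWP.C.Tab
namespace TWP.C
def bL29 : K.PL := [-3337465647531695265125711815776864772754735355702, -627767642519732944037744178415590655755799707716, 55879328914822527349358237240623857376878253430, -9624567951336835605191313723947568264414082444, 2021607601199761225375701032203810454425490748, -465178733955871403079187043416010065234956969, 111216551042529751463452595808975626450541487, -25774404388716686583071141559732962581786187, 4605546979047407937818865076355852933352753, 365977798096455108544330136164069426898107, -1126064854474025993980221209958948384446182, 866033290222341895409553651609018185031517, -485795399024743039227864196507538837873840, 216419236091754394086407721756108481544638, -74012718912333264399777790516718649782651, 15705995834245876386642133032127594690892, 1278907415503674600428385739315445885611, -3216364094796364509909402894676658097760, 1806917241740680680539752169007085245965, -634436690078006257480553397961464103856, 128349187556409637834409507222338928492, 7537448267669045278394079437450071627, -19144516710854212631475092321927343214, 9082842679495905535456386569636084153, -2539592238188468711834727366097485344, 333711864081293528170735963412001979, 76645776375072834190667339040688646, -61472034692905408946978161826985310, 19691854632968012314756017570365549, -3535619969461130777035978243900884, 198763801365050543794206928153539, 22271106488759288096202050644413, 40724934017693288173901423325137, -33088143646355802320484525278728, 10168165123081183098578381343408, 430357635651381784010240963240,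 -2104204327440708804265677369590, 1233653223716089484591668228771, -436905924301774162037716404532, 89574876335782254075237776341, 4388849279935066163996007169, -13323814328845266582435567644, 6782143634946721617799469552, -2141603682411505234268100255, 390663906773130932929474194, 22687530041302849471512116, -50676935274555761864782026, 22736463557714448338194292]
def bQ29 : K.PL := [158345559201510324655321087188871837590684960, -723191614399243995265542714501640985857876348, 1583455599450070210502168916490244386348237085, -2199511336352249021251542345877031127329609974, 2156965037535379022737024545227397888707848617, -1566129402126413615684982761155099592634037890, 851441003129409466140334295559899168930363846, -334926653018170088351908967341530403785049342, 80355250416537410329049389030275421417888844, 1566680363012899249610307030928859729016626, -11911252780759525172871086442132986732913756, 6125312484441641347724372399831733136847021, -1706338139161703779329138895789703922034522, 171462337234012093257035484359750590043938, 84087324728000993832234918011037471207474, -50335616566381755906984736154580421475748, 13779055640331153067507832862597459638963, -1829173212546064875941041504445604846616, -112033949792441795962729470563153763469, 82270444755844618616907381927285496301, 4257938617389532339968147968098057103, -11411562209660931125308950936416580453, 2920229113602662701020953667592574126, 864258504276289708233333428379720216, -1119624251024077525127841786745375252, 578411992911174878829178480412378517, -195555949249460455396351193032294421,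 38319944132468885718380093244420612, 3495397150483657625363839180965685, -7076723006963252467316892285311233, 3628032846584078118596467005196458, -1173696443052930237892825511818853, 216736033156915707111487581845291, 16692155986487776033672107532988, -32111212127203279321674098942771, 14536446063654010602031923239589, -4006436761704978907990105980784, 570626027195347841141022804490, 78666040096489188192556443844, -76778785820617545464353469850, 24995895997214111496995493097, -4633360263521411638893624421, 492492458395117693952081215, -179635622723760370383683701, 171435422359040214030772297, -90926885385233094548719284, 25985374745888877635154173, -311012286329756379351775]
theorem b_chk29 : K.checkM false 4 12 48 1024 3072 tab1 (320) 128 (2 ^ 20) 3 bL29 bQ29 = true := by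
  decide +kernel
end TWP.C
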