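import Pool.Agent.TWP.C.Tab
namespace TWP.C
def bL3 : K.PL := [-41174590630313031720385706542315945926108365884, -6961894575080982870311565638202258341122069923, -1177610086094976142206765945706524575453983317, -199301762532073491574486341460954481812493876, -33753342605212969968948506259972498115214629, -5721106672596136079892055891111429949771640, -970652759591421552853203660486552137198985, -164866734403892136370633950358126249653106, -28038467121659095993308185364486080041767, -4775258524839452911441251245359192821911, -814578942439162515797744336578575169705, -139199900200907142634333594963219817360, -23833839970270756254070022561641123432, -4089621868556027589392324436765737849, -703390656214871482403648073511000501, -121291696644800981009563654575983813, -20974460758616388130815566631274517, -3638217746556986418061195144067531, -633209849866311288407360226387890, -110612019031167029616555916248261, -19399958983223683441932153421787, -3417489002161482260274069333533, -604928251069238172643455205248, -107645462184593973262433836910, -19266992289069825336579857240, -3470740090641359564279680557, -629686444450540798662008486, -115153350984406982125944793, -21247235964551086613118188, -3960181235401697167287182, -746696437859014951654249, -142679698094432340563830, -27688203000679179199946, -5469904787325917799517, -1102627652265469054616, -227167007781850851358, -47829820707503950232, -10262342760188165529, -2229203628195943759, -485043477737365225, -104137568501278221, -21613943575411240, -4208341257483710,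 -728296025804671, -97250944241520, -3410778156299, 3862944623230, 1901597518392]
def bQ3 : K.PL := [4353853099711579563954521198800293025529482056509, -367980673711462549976022424209733720920222212559, -15558941866802341100746142216078915201681966226, -1316909647161456798241495069198623345529889176, -139505445044490400882113431794773148864466499, -16578811076456812995516374840697881203508817, -2115188081230515348174972698041323020926648, -283387348349131701607904703708724220335173, -39370077396245863014419610373581305703117, -5627384898645969042332901898359017505690, -823321880903004090122240153734547371616, -122865443443227743688399618701819246454, -18655768190154581945002476344862023764, -2877054709685345859277561302820956492, -450061789958137812317087035833032599, -71346328639319238606927256065370964, -11453594174617650970847148157979384, -1861054608659072769441823607219037, -305958354853865368308182865166190, -50879065215169576781996156277631, -8556917614227364323214218475823, -1455322388939091411568567360922, -250298515106555212026474979285, -43535020148411363278567493953, -7658735150403236225820833848, -1363031381774627610306850026, -245482919479700774927365424, -44760421556822546341586754, -8267738378181575750780397, -1548300579812148578686435, -294291312848143900644626, -56855915918830810137833, -11184508228806275247310, -2244667317664843547141, -460412255710980504177, -96598866579788866512, -20709694066848193315, -4518909438261558527, -995999138883233257, -219204753866895705, -47421688968541353,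 -9871734013338015, -1915502439046719, -326423178348421, -41266363137321, -336302933061, 2165590672921, 984853681025]
theorem b_chk3 : K.checkM false 4 12 48 1024 3072 tab1 (-1136) 192 (2 ^ 20) 10 bL3 bQ3 = true := by
  decide +kernel
end TWP.C
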