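import Pool.Agent.TWP.C.Tab
namespace TWP.C
def bL30 : K.PL := [-3638469339588866527803639306174758065284131113251, -578222984343293041176736722520559924747208557854, 43982754471769005396442702182406677255567933406, -6514756877282668568242188417204329944636197654, 1182388879502731139330094144531982463309980501, -236501701176117768970922744260290332090767054, 49981466799377244443243161534859585925074034, -10908857422365701083784075205687571470652230, 2407000699442261267198731875803560499376543, -513197158446231608945844911653983810833914, 90128821922736513759082266827004353841345, -1255849560100309716950481182640834609441, -11754524845882247229095010959104132689734, 9183362673645608802883318358401574202388, -5111933485968010272019187552786501434088, 2341232237140606850107809534077764305427, -895020553794175238388089551308524427988, 274088602704550179424354355935658206378, -57102226690028482833011662414900446445, 410475923335971402107652458938174053, 6694980547245788752383330049061595895, -3884020105711249399552444218236367396, 1406004030537883658636111169753524347, -340300674299133483385654323867023240, 33841643868415346099509002083045389, 15863065093100233110975799304829594, -10776766754513398258360691067184875, 3651995422129339105467109733845467, -753284135604478188781657464143224, 39420342485915965977454729397849, 40127782085705603405200439640637, -19003754553620339357818521031210, 4589675280906876038205698302493, -435846347966202470610327885209, -146159334317208758334631725900, 79400585866805626699257616816, -16699489408072425510291062594,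 -415915280784790037868518296, 1698403440519040564812495891, -711429748063745964633294393, 167731470657255092174975644, -12517397493308880373697423, -9861547430085845738725120, 6163460984548646317976563, -2205131699169623506515658, 545783532737719537791762, -71011575686626930025026, -15286815269192500642917]
def bQ30 : K.PL := [14538571595232879466326843752175462623633460, -72388761859040740034789598826771896773271130, 174462859148549305394141777025567460001244066, -270170285337839177209111325028607987134613561, 300666543830267104722319687861629058646041793, -254419199055409262218649714397964835086754982, 168487826385717782536079025382681992380130979, -88112583106330464564570182419337922112657098, 35863471259978141448790702594826606651724901, -10649995566338056649946745012259741133786462, 1731368384020631102180491015372822196469007, 284610118549127123381654956593928138847094, -330652345487643969982877155581696754456766, 132566585094292065608072582488184005655791, -31085118763894571726928917512510021493028, 2548284379273712652291846193117963149397, 1314903973843604935693588068052776909951, -692612323241401095459059656717557834764, 171819780371009832922090581008785412753, -19077025626962312708023076796127067749, -3058340977405810617978628211924386347, 1848505677302517290984737395837989624, -338533274014386739749562915532522778, -21394829227697888132138145001089103, 33366205098998099680498567547476611, -11492913883246598082377030264841082, 2155289459349799977597186026847141, 27101897700446506290991202731532, -230673021730897001441451608780967,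 126321748578974751742512729304051, -47272011029291768770997196846813, 13175816091820396142804829410456, -2267167499084349343214885692189, -164447895391348662412774692634, 328001421180023872952202977012, -156997032072737922289712771495, 48759051800291355800866521411, -9605569649547425805951122706, 232127690138568215864163862, 742239619901867262317445038, -366234153901586145046013908, 104890328909214837798169551, -17038228747479631620264594, -803154051816258409686315, 1610046807383006046196382, -588313350846691626063620, 112613987621882803146374, 302708840377262991613]
theorem b_chk30 : K.checkM false 4 12 48 1024 3072 tab1 (384) 128 (2 ^ 20) 3 bL30 bQ30 = true := by
  decide +kernel
end TWP.C
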