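import Pool.Agent.TWP.C.Tab
namespace TWP.C
def bL31 : K.PL := [-3917332274905043411615829635012195345107389549534, -538600697407007852586399501564841446764666799386, 35729197973258238873347110746700261522951549902, -4636523649102539871818986578903831350888356529, 739627618493827114194923745580343804393147865, -130361763947601484658783014571985410208439209, 24336449893942167474822385653946526512882144, -4712139915753718907738576130612308591622542, 934914237032947060263352406780107638338336, -188422365507956704266605299219873055392750, 38158791115085238489222808687135014186275, -7565216128096545206653609482830772759035, 1345636706667048323540778835907622060744, -134238605142578639757215006771569337668, -56885491900370331544677925882024280521, 55963185292095121126064731203776274178, -32052675405569167688441084695002641373, 14979169494518793635315067955874962277, -6034314090173469770822657369897918351, 2097617017806341511573587530785592362, -609669248051628007426439975309304658, 134168900246761199851182046981515667, -13323495451128186135850350817705917, -6040955922617684637032986338745790, 4510312666012678422588903531241182, -1780417201859629740547846873096084, 495300312609234509923829580331602, -90147487863038404603357519869207, 2265484890073026383825868177935, 6006587135581168849284695137147, -2844638092790824314164507253868, 796956575947429429045466298990, -137425112451619186743327615391, 2802543427162496738551677096, 7779815129137963453127685643, -3191645655133142947068223352, 732356422658764029833945559, -80267203147452561554585390,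 -14053338687744042341909812, 9824169930732669642558285, -2729188388500775129554147, 413856118693894367660876, 9072091192141377945374, -28012027623060917536337, 10269173450840216056211, -2423168599713120701724, 390379241743410248446, -22882864970693937178]
def bQ31 : K.PL := [1094975860182618480883319176195485883398393, -5869831641336863432317026314760879987583980, 15329662042559117259543089889088769922806503, -25932579846008384124028706975524056942235614, 31855990338465899751516052598961406215322320, -30173746967554139470505122275719620944741412, 22816903024065958200156142210685900358612127, -14048023629145635898948318182888481586315584, 7097916232797008554317618426645513635592404, -2927908856217619892105187761226613585299708, 959527398959855702561354873822035118647784, -229073807341714112176542623691006083094273, 26087101087897939235100840218848141183985, 8090713058786435372023037575574043350444, -6055769330202536768940948026567229266493, 2072547735862005119793115801743764648027, -436808736358800903158705982051036264521, 35233794195368446096097166545215975498, 14219204722540540493093437308873168369, -7336159648736026007550571776637200496, 1791474278248390885803262632929235841, -219432900015726214311484991783332471, -17783380264807653796093971068460723, 15826255757236584000124018888878275, -3908830400950641634585270980593637, 422898139525530259289761921345577, 59220132051441537446281730825859, -40215664546201294440594495413780, 10986259839321975726495468363175, -2106724009530688256701626329047, 307471101246169866394908701841,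 -22223040456968777677066538348, -11289109709955790770497301540, 8973930723708991833361277044, -4214046970556439281113247143, 1504585087667104685171511669, -414766297076447625627294522, 78873709524517382528688443, -3166544528126975324926979, -5304427064370494485704672, 2877995178086980936264623, -949102913393001430637284, 217260452040415192036922, -26496599907926457830269, -4459198881821181462136, 3929181412149144960168, -1386021462507404872454, 314494356763891851038]
theorem b_chk31 : K.checkM false 4 12 48 1024 3072 tab1 (448) 128 (2 ^ 20) 4 bL31 bQ31 = true := by
  decide +kernel
end TWP.C
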