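import Pool.Agent.TWP.C.Tab
namespace TWP.C
def bL32 : K.PL := [-4178237389889024816426225639611886143837993671589, -506015716239173359210758991070795191403446032844, 29740986809372269371141960237892947410715520206, -3431219274782576390527317179226945490528488293, 487825710114958593935786444583512073221593424, -76777144070786821067971803906869906915578197, 12818862314935606583206516159515345235958585, -2222852801362407965516200918069772423341588, 395547067049080141368715575316966933840493, -71693724060601469315150438333457239441421, 13169858827939100636154264290842850877310, -2441928297488382234179104329938976686982, 454580125580057026797581297592004924120, -83882021340531594777138827678248704871, 14740940928512016494073281431709103896, -2118060199985210162496990054472623667, 28342162771295587611173921456193881, 182780604965959248270909516392724202, -120843096637071084441487848691467901, 58639848188969138822240138877094598, -24416673265564136832423699800751122, 9006652703898634121436640792587000, -2942501960661833032939541082520417, 834401152378578858909304067771087, -194568829252560180650427265642823, 31281058566229649790541045275323, 143490139211475305952173284733, -2609248939657990115690410710078, 1264318572065632920279115174255, -403998226740290878161486007507, 94764131654014583541458236495, -14281926332204942532218791368, -158960224027650983441294590, 1000412496092074751962874709, -405642458861531571529551747, 103317566797179346826998471, -16884457077949954234219205, 599910949450772661545073, 713810533058169287154756,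 -296570062986397339720120, 69834893543811791580758, -9563641442709302322947, -175228438805627710837, 533301597314519934510, -173352822897799857470, 33208886355635413233, -3090873839083127500, -458564178843041943]
def bQ32 : K.PL := [68576691136255602185578417348060723472678, -392103146054157164283680298002035913714538, 1097227058180090238905309783442254759581387, -1999781190773834193076739904765129579463858, 2664536724444150564457810586720582416899430, -2760759081966148336184200778158415840496806, 2308897521867543892446940341544927070063636, -1595904686366129481069768208814533658127488, 924975857929829988331944360218576913932530, -452746802623129883792882234674797986219136, 187022110700082192639611980155153889312628, -64437189280244884141711142503053374608441, 17899493348006511747201062916093501874084, -3627007513546916088169861535933591428538, 314759746524027008440885337342074412212, 129198596147757000450426267513842139003, -78932278960018952869771583002740605980, 24457469730927467896408163787716756323, -4876610972618087520390213965875817836, 442046069759847568566806106289299176, 104234350385818652845739148441734451, -59209654169545280307515129103087938, 14875156747467330658890032123435686, -2097107324154707021814419092242490, 4558404015612871219217393450354, 86305768056543171826496884187184, -25492766703257198904915715644698, 3941477961226038872373359155550, -145701021283492921076299127170, -104300942754421673775872339836, 34228778296240187807455680415, -6071654017323399484730532946, 680523772620085925977625964,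 -53956196085764923091908537, 11758932173668279974721101, -5189258662550071991470242, 1364366824928220424957556, -89145086435148492412009, -100503294681782837941373, 61558993454303019605763, -22862919362906615888595, 6434173658468975818139, -1371324143926112769567, 173675724684139496785, 18688671877926088795, -21030363396852581743, 8224476311161827215, -2225078813027430127]
theorem b_chk32 : K.checkM false 4 12 48 1024 3072 tab1 (512) 128 (2 ^ 20) 4 bL32 bQ32 = true := by
  decide +kernel
end TWP.C
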