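import Pool.Agent.TWP.C.Tab
namespace TWP.C
def bL33 : K.PL := [-4483649535797666633861779511417146274784184819186, -708654172062445614529323299427753619529919408615, 54649827805440392188532997711548027959431124446, -8299262299213293005876388425486660160587957171, 1556801117502797988967754852084387375484950092, -323879009137746560352402561002642010726945483, 71588625603094203036840505821049895231789344, -16455302420608732965666608924936004115022345, 3885730361601098376073084676474327650846954, -935541265281909549671709802459711226058974, 228515357065978073406776905697413345179834, -56433711171008818595465965098381881985023, 14055918407335547643514723597627123886950, -3524114402594778256811349324142466666549, 887825881163296363845558075400902123652, -224121083393852554077787175342787971183, 56292135342074321877092270105529085539, -13764338035502022872678415941936601519, 3042219261686346567541156943592746316, -421146855895437778472969271468146883, -141819120489860157059877263551763909, 197937432648192792262028838609196081, -147369225191698685291990528187921510, 90971403109507035015393256079883036, -50104867681425738582201337601833895, 25046700637811359729640319512246627, -11351111817095721748661432885298238, 4604868656198512322357878298475557, -1623623958537733696888470813410187, 462706783012688714600727528119456, -80988783630847280564777212209594, -12793573413671590291775517886946, 20527372256852496009650581877017, -11863860417175788284155301760114, 4901879013427652991366008058312, -1537142241551048321771484042289, 322590743296545131254925062579,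 -3822609434478918252818095229, -36690689967387572853361570513, 21658956597928834453302387225, -8071612319453676802578530589, 2070334719343296302910968218, -252601799977710692813060522, -83316661540227613439287000, 69432407308833736028025593, -27269152104758856174872676, 6953971563864938705490629, -841222699950184307192251]
def bQ33 : K.PL := [1685848212264969963709498410786023455085, -15515725117116155177090044502141622412569, 70173431835529374759596150727524369748514, -207694369044794288431234706501348279029278, 451917801845473689521434754667622061039756, -769793678170991576629981147686501432970445, 1067146967980874660304406364827237647253367, -1235322453759696767341361418538544135334752, 1215277781674840457752131195702660310457308, -1028161474166822590264874096533738693353938, 753535211921321568019328792434082423162288, -479835841992437473307339822709591479112240, 264935201438999886362079204829252308330051, -125646686692306764240651581332528354372574, 50001581241823566043515897658029395849364, -15746839182395436878044906224209229868649, 3209046240534934314463742738470888482583, 143817395330204580770146673490985487418, -516377641500205692954304590074441143244, 288353937160933402579790080060254738210, -102908865215478304709822877435824965352, 23960163558306650896744842677261834587, -1691788791929164455092973414864336624, -1549122703431117624202514873682682194, 916817690837174007188641631682134884, -291071886318287590708864853022030057, 53075557713505728220066135782878953, 743623622671577087796761752411938, -4550431875966444972866826756569953,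 1840792045385256241901213247747202, -412152329424175771279727363556311, 32534430606355226887885557825521, 15603365394163099263837252541736, -8028853681600989541578026247805, 1973588388725982564478351709716, -226116051044293948627271307039, -31863897181101509051778108345, 20984487100280426718867220751, -3939586176660285345883592076, -398456965495147453550513473, 550952619979319336621751697, -227253523948176053462409341, 63417312442664033325439191, -11570770478923214361062957, -374308362938765434214104, 1761797188483258451674927, -1159279275834587475829370, 551102071652521916692272]
theorem b_chk33 : K.checkM false 4 12 48 1024 3072 tab1 (592) 192 (2 ^ 20) 6 bL33 bQ33 = true := by
  decide +kernel
end TWP.C
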