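import Pool.Agent.TWP.C.Tab
namespace TWP.C
def bL34 : K.PL := [-4825263390248839005879158793600573225033874614634, -659539765646916603663966655578411074087819425053, 44189074597236565418937477250525663814293866037, -5846626815385421027773400426088353480835757626, 957512689133437847592775435792405177451779357, -174206396925449776553596712128788572120781122, 33720778952225537393494739403746076846261594, -6795864479190770932296837662670203518397621, 1408447312503142128373297458421424860715962, -297884804815338573280311408360141940871244, 63967759534885763016851249895405228987334, -13897957510931751415652639291532857867126, 3047344005548986885526715556986304317168, -673074645157019606903489075605548367968, 149542432657243227355095516058739501609, -33385099859156085891704579216136998800, 7482597592679171594872034560378191158, -1682446533846608296415912032348837138, 379198208347304603970394564827989062, -85546274802864263862489638693989184, 19243589646242054542146418278722544, -4266435356924941352329340118007596, 898286905256782956416908323885784, -156490798694568381880031432475549, 5320362570474419221365008046679, 16834924414801172815712977611856, -13924440664991213807294367635856, 8457720532829770843035470960734, -4513942977540788770217754246360, 2206361346803770433698181461094, -998174202945234856821741980837, 417772332782958148392707374609, -160614005806825779041915844675, 55880516069819697147646004229, -17075614943499291273429958071, 4268226321164825773205168009, -671233062892107960126760456, -83026989832359920637424631,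 128715192604349105289229739, -68385933230005716618387446, 26347052513855723080155760, -7972275902329343913505780, 1790463115910408601362208, -190307391456734250932254, -72435870722766027406893, 56968269441017805102800, -23099973486480671565218, 6690255397201623051959]
def bQ34 : K.PL := [14166270888712112193775905167081638467, -140313195448388864249440787962055779905, 685293354241448427373921391180606986752, -2198802057606065931150359778744302802721, 5209472978812803001141876758123987268077, -9711558925443388564990236997855282495663, 14821628504825830340672451997996737661987, -19022322752588146729437790389229398293226, 20924651193837992754047471260284830897389, -20003135509480635791151733856566535794561, 16787303207599398195278336290433555409138, -12457616166442051903971360966238915675902, 8212779746812610696055440898379305658804, -4820622932680030626601156476250204799286, 2517751670385630222842049521213813302090, -1165001026537392910079827662549231809474, 472648562197704042093241836074675014991, -164465272856915008363267069429411103980, 46646146000387214436228442849305055416, -9211999911020136898456795940870483201, 190663837898191131628963764502121909, 876630834805883877444213342248022991, -498435652120876853313312968774123605, 177790428635170902203935529548031494, -44483001451724822107592300750859061, 6239102268984103793937018700400225, 764017207134289275461887371227903, -851008399813359121792235446936585, 320601095251218334732638566504361, -75993349655719570077813746302149, 9242449204127440767544552028878, 1402012465644365070142610473580,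 -1166947918397974735172303292990, 364763198126060907249132559715, -66886988231421845939860379612, 3178790543128782209985880534, 2680654610555919290738176361, -1125091640421771062715902313, 245605346797417952878300764, -24669603850124740653766451, -4208578734006153524195969, 2571210335138052446202362, -614653181642042058745825, 70638322476573367042120, 7204087988404169291753, -5787828742451756676503, 1617206701916612043610, -310733280248649324278]
theorem b_chk34 : K.checkM false 4 12 48 1024 3072 tab1 (688) 192 (2 ^ 20) 6 bL34 bQ34 = true := by
  decide +kernel
end TWP.C
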