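import Pool.Agent.TWP.C.Tab
namespace TWP.C
def bL35 : K.PL := [-5144661953410971052223067009357109284203830641119, -619305686295847684755310034019382740608808388050, 36665341196610179926305937353966208004708936841, -4295555469764371384683964771947850946169777786, 623885889124018060561233732829330270242806160, -100789667756319026493451330870793573792186865, 17341969390839228274212883226905596743587686, -3109481856423922350563513242281909774042306, 573812864506288285692249307784994328755881, -108135455272100065230689596244125110284492, 20703389794546463992201301371754329049688, -4012676885437989377476030083778705928789, 785282205796258070419591306590400416034, -154876586240881669427926954215073832106, 30738613556112647383258862419315414507, -6132449937559998375798864987821319323, 1228716963650334249492561932386735961, -247077002247732927951598373511700313, 49834352135852094324038307507124559, -10077196729106509891020377824154987, 2042193546913845439063987008462668, -414621185424987699602758903128223, 84303194601534275454795648212593, -17155985525031749077227345367131, 3489227938847332791112146939060, -706172747957604155379929489891, 140358717549128104524768992165, -26281409570362284134242056916, 3959019834227228077778797014, -20206916317799447162183975, -413806066661785181028532382, 294395909127752824839775160, -159908047450599931904836266, 77498416294266762560999637, -34824484053303243811962439, 14669636637111618806446328, -5801982020672906381750001, 2147908518902739768511563, -739099210746162527028039, 233468975488250180195960,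 -66161213026348111065157, 16010458466736983136080, -2862434729141001128348, 102065609630311996102, 212739551036862668450, -127570146209017575391, 50367692668500143276, -15726409226936913875]
def bQ35 : K.PL := [84827975723551639253575659536992183, -895814102720056905458708107711334082, 4676142161760784113853358234548636309, -16078858246725063261162671038439938918, 40946474380057076008745635751867342388, -82321914166694852673457191830247398598, 136007320924657197397093814486459751717, -189772291157537296547917251194744104857, 228073490168619553407968851470156299580, -239586075488232536315088528765853826640, 222458338109297763960387956415865961080, -184148914436590083515670424099533217195, 136797028320968181788837799087328297954, -91641299280019340260740562869026886238, 55548635618674779051124659497307790469, -30523492766457101692702619516899551259, 15208008318326550847451369539914851278, -6858095278667928041629961520807311542, 2786106576474380671186685115870213592, -1010201110755328052565296999279705437, 321051782979648453456821073754585715, -86070940228492000832887104961295900, 17576902777299535841972600332723973, -1622377509369043885352052512097921, -699387418427551484166164758934080, 492848757631913612938599009796262, -186017931745537096775720231176231, 50503013150102018006715589489499, -9525873702222996694218434100303, 671764830869360744282751108463, 360176757914904518882037579741, -196920986408399177458718584082, 58313647173847360400892167885, -11350157471911812158141560433, 991277156874559797348774762, 271524042596948374101430481,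 -156480907814417762831226171, 42567573508919788112365691, -7056095445404620914156774, 315850168197589811735222, 238070713572639162185881, -94934344781114310573644, 20194770855553592160580, -2236262654851821589920, -177960896637049862273, 150849213741590882620, -38639207306968454586, 5466074368673728922]
theorem b_chk35 : K.checkM false 4 12 48 1024 3072 tab1 (784) 192 (2 ^ 20) 6 bL35 bQ35 = true := by
  decide +kernel
end TWP.C
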