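import Pool.Agent.TWP.C.Tab
namespace TWP.C
def bL36 : K.PL := [-5445649313778377501741698513577943313037701425122, -585578621581407630671036372267597854262168784663, 31046291123367435691598058244387919425946405622, -3262325562104497059075017219587648697897179444, 425483686146618224378124109896663811056578628, -61785158487745614552694554061510903013423088, 9563419774512183431591788579881416728320320, -1543683545371252378638185039719840193048071, 256606581855941791065479787657521302510857, -43584773248357136887699153191757713951178, 7524789032854355878098045676094203948767, -1315737204584568661363349826232398639915, 232391640463888965756255378896810601510, -41381102970083430841327929150373421077, 7417709922052443666698168136696421253, -1336977477526828527293330518981701015, 242086454714558855731133855889901354, -44004137391985790352390939440218610, 8024862031143582146352859424015706, -1467551859004527987588888038414542, 269022310710714049620554359899129, -49417196990818433625654467972664, 9093729823022402942812785859069, -1676015151478469706748169878635, 309313176137283923837612492451, -57151358093588322466511258358, 10570306252947932800905010329, -1956526946250253417538180437, 362270624629656382243651864, -67023324347507351919106538, 12347379456999973170972457, -2241879716900318752731535, 388747624139890495960619, -57678601236813453524492, 3385085302163158769305, 2907750411653740415062, -2171241452825045596767, 1121810589387902377156, -510326043838398173090, 215663762157041707967, -86042910410553996945,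 32553972387251587552, -11677448074267403214, 3959982211348836188, -1262758990422304217, 375346143197189325, -102472109341612700, 24991504049658704]
def bQ36 : K.PL := [369555412155917260172606096089216, -4130961865260587148720147720933243, 22866241127147380473180002195520454, -83538089116297982271576319311849040, 226513447426871040045048440269224752, -486022500885444801666585472778245697, 859183690431174856141406128730620641, -1286414795334482764881515342123436605, 1664310252981265692901807154753599872, -1888831545569451681087077196052848773, 1902502159248895498275530235320089446, -1716422972124777016601609180808980660, 1397243867247542594865498352340302247, -1032306310902057547121857822475518580, 695414880903925366298692168456571469, -428677721706885578071245017041183072, 242438837989605042946554178291778284, -126002449547136416897984925208657705, 60220613448129782538276139144848906, -26453083350113436934411508511527906, 10658512569561519297016294213625941, -3922886908278651647857510798136886, 1308999307424621679170880509411913, -390666829093521977081736851985080, 101577387264987931713500839892741, -21670064666430932211780826265276, 3111072751564866414439532654092, 86779136301775347258306610795, -264677900777093848452755682799, 116672268977335087103619105849, -34955004070134974201080837245, 7840741897810409937977543352, -1185010575898340560259668229, 25101041629159218426244099, 57981258889004526228053614, -24276497182897659789951045, 6232467390081647092758169, -1080122024310446296482273, 82363026732013192739496,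 23354601230183638351094, -12160814165258895134212, 3118252209537944185178, -507738977633093249619, 31861422091149284029, 11289699412799138859, -4932374487461612261, 1090511470593541632, -141331862185366885]
theorem b_chk36 : K.checkM false 4 12 48 1024 3072 tab1 (880) 192 (2 ^ 20) 7 bL36 bQ36 = true := by
  decide +kernel
end TWP.C
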