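import Pool.Agent.TWP.C.Tab
namespace TWP.C
def bL37 : K.PL := [-5777274599022955423764864091368149216807671868112, -736510254571314582793325554692900159729877425388, 46396352228501033125902697696954595732444515642, -5800810611230959600457089911321528162381952758, 901146295243091138721191250740649107523532154, -156001356305780359528797152328890192816669716, 28808056626961876706067273671230220188197701, -5551353065476196793893275833748429029808688, 1102298410415260783759737678880481113921167, -223759655326581907143486463350548181877818, 46191267796206622430157800558778997719242, -9661346182270481459294878912029423215893, 2042021097493830978380261597493022389571, -435278517455544536797850448438143106505, 93433411880698548105671861177986397909, -20172245750866982693203367205206766512, 4376420440256224971227419490398653874, -953393049696174524824548238048229104, 208424739453943250745056708125720013, -45701889947069809389479976157945318, 10047243299560008732641736929025376, -2213794164831086162361015575746863, 488740689943661357754982585231322, -108084476963410935124013089187615, 23938676470510161117929981061775, -5308971464148870691922772949901, 1178762800976342084094349989317, -261992984921236887201872269248, 58283980606543501420106684441, -12976588880295806863874252993, 2891241072644704495009383953, -644591032119955228794100332, 143787989088908299161704089, -32088237138635400402611069, 7162108905947639384526007, -1597722201370868949121387, 355492696091475723681240, -78414040672836994757225, 16842918594099924804295,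 -3330467296104400443830, 479231704524626566521, 48631585399387185454, -98869063075337570216, 69929747879523349613, -40629589918159841357, 21635315749113629084, -10885851573465234921, 5226599540798496436]
def bQ37 : K.PL := [445398199964285737639751374860, -7042585903094987629931297960764, 55229376795571431467329170482656, -286342636528307107502336301046400, 1103846662291969649631835934184151, -3373914687205179552333516787430861, 8514268117019893940951526280356662, -18240110858099963604816063416549233, 33850142018567896535832740055944235, -55258810184993302246853972852241437, 80305201396516007446425460835722447, -104888871242636305262968090034322267, 124084288594669685628142878975119193, -133800687043569097619518313045036945, 132197889076644826917304814415567215, -120196075794029887283044749432202789, 100924302167581228449343424750757238, -78485154029463761483410256384560340, 56655810740987685847458514295935926, -38026791990005304757683521635676148, 23756818962840171987451197728888394, -13820648871662151632543258217082832, 7484797435982734087437557690752028, -3768941712550281813584686532436879, 1760341007857500632611858307817593, -759450848015958180288330960863304, 300542000531449416643570674231134, -107809096588429612855195405634658, 34298362247061020885122213279255, -9238876748667218377955682749391, 1846220293806480410089566220674, -103383064362972925898243777000, -134501490978523018635779597752, 87612782993936989225956113898, -35626458005262010587059838826, 11025104840227647172039012591, -2562018629915088344724833273,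 340940456486252117233239882, 49947432116378030311906900, -53587016940604001508867555, 21927661782039672046226373, -6154234479159512132490639, 1166371102059921071499025, -68039754585283233436887, -55291212132847180354335, 29178733027617826891866, -8727905749953105049102, 1710309072315372260343]
theorem b_chk37 : K.checkM false 4 12 48 1024 3072 tab1 (992) 256 (2 ^ 20) 9 bL37 bQ37 = true := by
  decide +kernel
end TWP.C
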