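import Pool.Agent.TWP.C.Tab
namespace TWP.C
def bL38 : K.PL := [-6134603882311219869323318008776788167884738948889, -694057831409868694502967632450605898148084296168, 38875645058528346180516457129760353666717260338, -4326971669339196673333349448924357408611692948, 598957526181638685403220224023460978015928450, -92463034064260312729415052426616197728360771, 15236282424699151648142927286262003244171350, -2621442896924316579438694946353250780589442, 464987303872777255653933819329100478493012, -84357892728069395128019617644126206179168, 15570013167515991744122180032401619903746, -2912857499886326373778002584123879614320, 550868529215994062368555810838344300466, -105100003481487212097821746663639188461, 20198373746106636074970978546469052947, -3905426989860398105952239959290769343, 759007627264666298847053130741773753, -148155179080728143731226052969675185, 29027501803007160308186739689608357, -5705600133345884108840983697486046, 1124620750999008787614165272551557, -222212296315947899550883997200992, 44000292149257291987239080051042, -8728836882467168555098718924759, 1734500901291592249746595762314, -345165484675728167939798924069, 68777021516000668926328021985, -13720198574437452645331071810, 2739833920315184858836742037, -547630212746256593885761978, 109548933092999531338759821, -21930559316715457298458692, 4393185549541226529376308, -880580046849774212460028, 176600518240564749762049, -35434484307851123487037, 7112968013756084753881, -1428392856490613445569, 286945614211163050123, -57661684404290525573,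 11590258474117668478, -2329912839838263043, 468422072649652102, -93982754800972187, 18884001042771791, -3681370234255414, 758405489732498, -93545943159670]
def bQ38 : K.PL := [128235380995481212902195005, -2153054765073586969756131096, 17952953339367369806307300708, -99108044972815592317662704426, 407419285838179498308470984014, -1330063178933442709067094499699, 3591149505214335387268048748025, -8246258471612392158262959927114, 16435675321576313840263564311900, -28876650051635449160117689718309, 45269206087313053079388539688852, -63941625398882197082328045501499, 82024788645022622090767113415961, -96195037962172947345967860258546, 103707015357570733912888993650402, -103262019791080844966961455303672, 95339507793919736939445729856523, -81897487347860697133545264306627, 65641480116563242696598925556835, -49209263036813251559263588581983, 34574145374670061417107374316552, -22803664102018245009551127541233, 14137159892968764279214708093913, -8245613922107163383358584496613, 4527120049822620140523271926914, -2339989441733341389117770568402, 1138268189131500281248564202696, -520600228627760541252829566709, 223486466515722526251402989917, -89801600876055336885325332151, 33629650565776589322082465411, -11657327299235755535270216826, 3698588409626918799921642195, -1052797355659384311801498982, 258053304406817210089809213, -48801345687819163117171945, 3869757517228748309405274, 2140416433518720550254988, -1450749658034407477144757, 571512201408827021506973, -172579008015664088707829, 40960633097725297246760,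 -6820755722544143706008, 234729099867431645510, 376146361491574411263, -187274857717143604264, 58137025898143217617, -13119145710147755261]
theorem b_chk38 : K.checkM false 4 12 48 1024 3072 tab1 (1120) 256 (2 ^ 20) 10 bL38 bQ38 = true := by
  decide +kernel
end TWP.C
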