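import Pool.Agent.TWP.C.Tab
namespace TWP.C
def bL39 : K.PL := [-6472419993582226703850942823623859962274499170825, -658154234584025088846993602381836093050512768700, 33180790906289667223860087441083444194670991034, -3327141964354896220794944049907878393414482631, 415213862912537791939333076589506620227528678, -57821633540890726960434713304375589983144088, 8599435663762955882584008225168288552869991, -1335968267454830338900673234896948749470716, 214060842588161480262552400022454973937177, -35093057509269930341584052149785638851995, 5855026641002948135851187178990657806379, -990459554513079648711055308695914307151, 169420511466298363316099405090890101536, -29243889266108428685730177507791264138, 5085913629799567289851191501462804403, -890102156029117707230293805708946089, 156613165396619535126045029352053002, -27681897984910749869305781632050360, 4912089266966885795673774117701126, -874603388102139563200240109506726, 156185320310254770603286047467482, -27963614142951347761300568054091, 5018046778929101929078685290318, -902295120999642993509852142923, 162530759134791824381767846187, -29323087981564930537748102213, 5297811641155726817277327179, -958365195664426144203515323, 173562699364865282890681309, -31464629865312212804138264, 5709336724186736724043028, -1036827476211239306347027, 188430219326845459775303, -34267863741517763258858, 6235747902802634614043, -1135350849594484279058, 206819953477338670692, -37691177293255719330, 6872984043557685162, -1252535358428482144, 229544917504050797,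 -40927769932844847, 8374183188719673, -705525401196967, 865256036647453, 486840250187340, 464625693594175, 381039246570534]
def bQ39 : K.PL := [22954206772347537636091, -406620870083978554340560, 3580856256486215871230212, -20899440372128511090924143, 90933618028193727028835864, -314572529784448882230479950, 901124154699340604105921482, -2198258993784372683953910691, 4661037399285527500326728315, -8724789724443978871261682788, 14595056588609830314765432779, -22034800004293160434661221979, 30267205403650397048833843399, -38081884485054082791469958715, 44138136734418470392405719417, -47354508635729754380063148293, 47224408558729589432402112919, -43932963027003313461271089062, 38246166397506299420213783464, -31241878118907427123517089358, 24002879690246719362066712476, -17380265056330271665818213662, 11881857713737881179782944964, -7680747820947143716527693802, 4700729425871524531666509337, -2726590710760474073417553314, 1500091877432766855418736169, -783261564816937807520826263, 388263042685652008190373376, -182723803038408272413422019, 81619918585792421694325991, -34581711630216830611616961, 13882148391440631183639818, -5270662158273613790139800, 1887701206591443645411887, -635284954898459753588798, 199714601846840583174255, -58105126656506794154163, 15400226644888220284982, -3608006071951634583635, 696245261018390963492, -85416700717112129180, -7946496612756465008, 9916769701792933200, -4199775787037628621, 1305786042294435049, -326404243787919036, 64116371334623267]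
theorem b_chk39 : K.checkM false 4 12 48 1024 3072 tab1 (1248) 256 (2 ^ 20) 10 bL39 bQ39 = true := by
  decide +kernel
end TWP.C
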