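import Pool.Agent.TWP.C.Tab
namespace TWP.C
def bL4 : K.PL := [-44977158102382611927380713500301309002426233401, -8307847467747695314453911306997289409376757271, -1535376077619139997416934229510635904356199528, -283954692058612184785505862279157858405497242, -52561904259184507857727191490006773167909540, -9740080585048238949760079867224554378779363, -1807205415180718466135053055884753712378289, -335809609912638929741015611148599159052897, -62504341628579225082598900580200366392219, -11656120777962871347147399970384772057344, -2178338685249648515269961999779460624298, -408066974709166835400899859906041418117, -76645560107468351828290382171292692256, -14438297593609747004203165895324119896, -2728683126624625641214080472379930947, -517542265493891982935653810031544198, -98550036378064270764020367829021424, -18848064350970597745106050177551258, -3622248204009815277054715084577580, -699874153752996352984077030007970, -136035787153766504944470758842963, -26618251659136945022154099187287, -5247501508072733995770505809191, -1043263603251296384437022115171, -209419467322359628262448244251, -42506660896387011112878873400, -8739920672073911587480259249, -1824513214737584488318711017, -387723769542180632935079422, -84106673573486336184487225, -18665019198938268954665679, -4239826043001010145129772, -983322409513532037948283, -231278838073781572616366, -54526865789313285169956, -12670690986732024164995, -2835229405251641768010, -589959748295391638571, -106899104007296181929, -13896250716434593279, 220205854215110459, 1009055746917499523,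 466679238707559548, 155584350705684021, 43118572548236373, 10218526890214536, 2028937390362347, 305102833666017]
def bQ4 : K.PL := [4165799141075664368664787453476234772274352753958, -384602661683863297771743265287184646344934978313, -17766475947087193617906029181448260281181778944, -1643352588510662065188521559734476911860834421, -190321708476952509321970160263665551795890131, -24739567584716516469582911860007511431078703, -3454615845625626851042797092113864555910525, -506951078727681701853741239455289450068926, -77208038744352524343342757092270694555059, -12109967515100586065107305352090209233015, -1946388312030949754405835171326855532852, -319484963823946572327780610021280651141, -53430094622373969280855216155566311349, -9089044072071609881758688339771427684, -1570864271856349422968130267563413192, -275605848307386184264562685876746373, -49059047220071714604314214863685864, -8856595860639657237541813770732586, -1621195812952732434348788333133272, -300875490612733717117605187410876, -56615620150027401551925878148955, -10803241549109407440278148654934, -2091088078881737888636550221509, -410770225335236622915965796972, -81948402065897237883951267821, -16620081036647511111562610943, -3431442288472513237730246821, -722523709611843134120189312, -155482517231535931482792714, -34266394693299289946554820, -7743864803016068531123198, -1793176580723950887179641, -423741839084603471979398, -101338636647748834281528, -24210141885232110955316, -5674951368129072169899, -1273492052613753848166, -263489569297673584146, -46643549251365755478,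 -5517849209962196431, 395177322853279953, 556238782199801528, 241133495871950573, 78467873662349663, 21438570972794488, 5020940531648750, 982941120261108, 143792797142475]
theorem b_chk4 : K.checkM false 4 12 48 1024 3072 tab1 (-1040) 192 (2 ^ 20) 10 bL4 bQ4 = true := by
  decide +kernel
end TWP.C
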