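import Pool.Agent.TWP.C.Tab
namespace TWP.C
def bL40 : K.PL := [-6793593537250990862806641769028345480010795409422, -627277783957682675054179763497856281089575162560, 28747891668370890832749186578436431262582265338, -2622358700820925530591044470151790923857914424, 297878088371915661686488241405742520245747888, -37775214585111225643687067060025335035131072, 5118148980761507351209918976247639472889057, -724639155234568815470359454430597574919356, 105848832661950574484058437610299757903567, -15824169487271763258131266495256486417284, 2408221608142482369605189419428780248226, -371689260696371216371957564894786469074, 58020951814478888225283569658415329334, -9141605885806089943790146656922192125, 1451481596774023043554514711028079688, -231962987132853154278322188515394264, 37275152489174603626785105572904949, -6018257547218745507279966862592174, 975645611835017454184693646983839, -158727159458277582000307507192686, 25903249710542756611364265352122, -4238748612463397076223686199270, 695284662050390406000855033620, -114290597082552486129755607659, 18822576047610935943485958457, -3105130939424694793448578832, 513022220186084005489247734, -84875164462066450556542235, 14058995664780355826580610, -2331337846854114849464683, 386979028064475909275501, -64292479395126251844067, 10690233551831286589122, -1778836180855203763685, 296195617176195459859, -49349341242141376145, 8227614718967122280, -1371468627848849733, 229739413524601885, -37438156761523203, 7179101746046602, -282133403718900,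 935066054691535, 684673238929449, 665311179188914, 596939995883220, 530442977966365, 461213481403227]
def bQ40 : K.PL := [2618291900530728055, -48683109152220053536, 450346206891285225476, -2763236477788288636807, 12650281348738336178121, -46086559555906451831555, 139161654979584572417268, -358194249545537283682267, 802179812524983571327157, -1587673276735714068777704, 2811393594863110693120856, -4498364538140788100859928, 6556881113044124075998495, -8766078275956359117538977, 10811383365088836503782676, -12361383503305540931283354, 13158695283038969890744775, -13089659521218457882791847, 12207394225992977198738784, -10703761336797238124774064, 8846330011535796978598588, -6906715879511188986197609, 5104105624271192468944533, -3576571426509007914272071, 2380040794312634264855566, -1506129684609570674161904, 907436095303030277841388, -521062679016643474303332, 285404387525436365649571, -149223708722083026328199, 74518503277798767158666, -35555994622331864145514, 16213757832005506267718, -7066361685893030462029, 2942913581444433913353, -1170712536721722754458, 444535812793437552876, -160944927492364006816, 55472771871089802207, -18161108663018363671, 5629588566758715078, -1644612183127176684, 449632701818712376, -113761308263117948, 26119698575844476, -5231008649553022, 823407044082585, -59114831911283]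
theorem b_chk40 : K.checkM false 4 12 48 1024 3072 tab1 (1376) 256 (2 ^ 20) 11 bL40 bQ40 = true := by
  decide +kernel
end TWP.C
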