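import Pool.Agent.TWP.C.Tab
namespace TWP.C
def bL41 : K.PL := [-7100355739550691366220527462215251147026070650099, -600358640527183435823373480393826080242530669040, 25218316696820086051840768647614066208471140030, -2109663829250736870018825952074862826814477875, 219870639676253539654948410090562450437355981, -25592196987340282557387713612871560518347093, 3183671772318312769029878355310616804465598, -413979388547317131191814970271335263252074, 55551900692907598040736501214362529202009, -7631219878598368435800486703533060865265, 1067395831817463811722366867944668278682, -151444565364827939259027924130596289671, 21736294460278476189189042282067352025, -3149393837551161231357191074147876430, 459930024350955707413668345650722320, -67614864418167799695675670532179538, 9996539591280931008691970808127136, -1485140922274149745408178639629555, 221570602387766520272525171265117, -33177820982441330034841886689782, 4983999691398806938650955315102, -750821093908956574627599488346, 113391875535620709106444521795, -17163007654213098443364960005, 2602954102024044504254729757, -395467534310386593845328282, 60179358805182876961902136, -9170809218867558762307228, 1399363228888138827038937, -213777682737037104242017, 32693090094591627845866, -5004589520180749490837, 766773843731220423090, -117564633460033128311, 18051097994053299322, -2758606858421280825, 439070102933438972, -50319969437566530, 26644446529286126, 16203564234596473, 18801052948596760, 18930748022247146,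 18956067899492918, 18522029688052343, 17722074561600217, 16605233076026438, 15244817477566760, 13719626646505717]
def bQ41 : K.PL := [194391209397382, -3777612570817520, 36545547366707820, -234656881537659179, 1124946550445818261, -4294603621334527541, 13598728751640582624, -36732723390315475874, 86397631765204451858, -179738685481300300564, 334829058297074260475, -564111793709052982665, 866609470067399262898, -1222288299381994671869, 1591989043670124900874, -1924368545158649732367, 2168172621914663765538, -2285570860973398182772, 2261677512907712395329, -2107051450068594256514, 1852932130923690465648, -1541676153332613921781, 1216128113469518577200, -911230389869459772308, 649632059513137126871, -441317378881446142412, 286066014500452514271, -177149405485160930808, 104916017465287820438, -59482698933979740235, 32311334041261978061, -16828892130535442818, 8409444423124798766, -4033842862159621121, 1858201432032670228, -822286111842042371, 349617297830212900, -142833848650538316, 56066708980276912, -21140364393703631, 7653664271121581, -2658846120301734, 885478771628735, -282332019868035, 86032698960409, -24993029336436, 6898089631671, -1799854901496]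
theorem b_chk41 : K.checkM false 4 12 48 1024 3072 tab1 (1504) 256 (2 ^ 20) 11 bL41 bQ41 = true := by
  decide +kernel
end TWP.C
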