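import Pool.Agent.TWP.C.Tab
namespace TWP.C
def bL42 : K.PL := [-7248901383756145800989255580155298921508835355874, -588131784106416912792692360696846762449049586696, 23714699951121550847995635406557594582932185260, -1904847125058337222411512058047421168313906183, 190652993556154380629336774074191477761539411, -21314938764488179733902508321437161005102812, 2547219556499859363876772936224280386141552, -318224103858338085848390773251057785836100, 41031647091988495680542715527893049748577, -5416575592478245765787816706209071833172, 728129665952072022994400949352739761361, -99295100269658920468350526413705168056, 13698922538192480407189256471102884789, -1908043147958935773743520624353099757, 267882757407015132032048192047127345, -37863133938667863341978980908991898, 5382367477798276246447515815176619, -768894856169327739926852850644827, 110309267639337490850293869377390, -15884440507209858033316438127706, 2294820307250397397980392025403, -332487286751419245618504231143, 48295720717980918684118245325, -7031168257713900337995339590, 1025714063052666370003536356, -149904197681583509846468475, 21943722714138609224116063, -3216962972369196572997172, 472236600752850416041536, -69405958157944998973673, 10211969380293106304296, -1504017079059721342187, 221722040660089075187, -32701241978217973867, 4841784201777390568, -699056989279360215, 122573268952930715, 3925759045633833, 24105682602776489, 23392299160625454, 25289605569670159, 26217541249129453,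 26643236381102943, 26476942214555045, 25754490902416588, 24532134989847256, 22894429399662103, 20942923146843544]
def bQ42 : K.PL := [1434215956761, -28454268590648, 281106327525192, -1843713911050210, 9031050600006156, -35237252408503500, 114072471496506660, -315119421565070904, 758236154865828336, -1614252431635157891, 3078454774747113000, -5311453084450626179, 8359409970274380235, -12083772458466860450, 16137119290894049323, -20008745550578328388, 23134955519535784442, -25039164048564285189, 25452100811833380668, -24370512145575759035, 22038728997712028868, -18867395974067526617, 15323525951918326273, -11829131553321937918, 8694400055818228615, -6093856513299044637, 4078677542258679370, -2610185398348801804, 1598987803854845841, -938617381093811364, 528449831743420982, -285594402088240775, 148266957311912396, -73988841275579016, 35510343611962789, -16398773539550068, 7289499090676473, -3119862790043550, 1285890566866268, -510430682789324, 195126848492814, -71824287423155, 25448409355787, -8674973624771, 2843034921980, -894894677849, 270179409387, -78096428636]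
theorem b_chk42 : K.checkM false 4 12 48 1024 3072 tab1 (1568) 256 (2 ^ 20) 11 bL42 bQ42 = true := by
  decide +kernel
end TWP.C
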