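import Pool.Agent.TWP.C.Tab
namespace TWP.C
def bL5 : K.PL := [-49554040819070882028426081365024140577626584823, -10085894235650812564200441721976323247922144228, -2054271759198237909897040504790377488448786406, -418808323076346223545747421213660325584401578, -85486016690376216058901678212065396135951849, -17474679036819710260578120790708101108751954, -3578278976943997225250429555687834697591120, -734196428005767516620381563874602054662615, -150991577492532596328387647319025083039941, -31133904390094693099382118816340242625079, -6438779631129578110249021193189838464799, -1336055107964212950242127433836103864748, -278274645549416784358762025284661626930, -58203407739481826484568739907397864654, -12231215787075829966343046942322764960, -2583972139777544296821486471296571252, -549149721212491171748522063683891506, -117493516356860399631474682991669985, -25331174623760003979168942849201633, -5509315151332692149960919010706161, -1210428811674201420930243709331302, -269114303891312853976371223985155, -60680769102248073549406574405258, -13914648967459558886280057090368, -3255103516987162296768242266082, -779185276270842491324086723714, -191195441547604558980677857460, -48040172088530008332644335618, -12290314848406681267488087730, -3165318487029833154872286230, -806405977374403375671207574, -198267917861966987789927353, -45354684599807229482610390, -9023033045952128681321711, -1282832715192692260141773, 24015656316671435533515, 111687465011767636340252, 55759863709409314404223, 19948708182330934131381, 5875891771137322564020,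 1456963486868629595713, 293165485370166656176, 40247943829581837874, -458266358773598239, -2710522848300585475, -1155954941080688219, -334884087783000160, -74089770220516128]
def bQ5 : K.PL := [3968838045688885157160483373950689562036509712917, -403705252522723187259212058788584898551761299736, -20551520805782492541083357939497693539233176934, -2095743484392755018927139803054851746222658140, -267736144003485488103499212027112811554995166, -38418748003329588913664172518322561330386996, -5927629275845344880325057787300900692184726, -962174578748867892383176344676100227264255, -162298214866926076340601290006344385166350, -28235564367380046715606115038094148267664, -5042054615544922576232830323953004062984, -921213124472515796700553675097119483172, -171838646021595286401284855266821056737, -32678419080344386475241095730495106794, -6329447506774870933968085554219302134, -1247893728169869695247132206490988082, -250358432831355011447644539447769357, -51108251541168453231996331399149250, -10617861097334187098879881051731012, -2245871996136758692745710579978563, -484012103380736502578906679382496, -106401305772453476204145359792701, -23898370967884901114659176272367, -5496066192808314406288163175840, -1297329548378645267873405514885, -314944814489083499661286785842, -78656379100687440918279162045, -20146809752772577105851786174, -5250420702679072514589879536, -1373426698830025967307505812, -353676723430888394531524856, -87306008163023981587391787, -19847997851817870544521818, -3841655580290551690262297, -487135794903841829057377,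 45726979313744921010740, 62561044233565869611390, 28999667473141240725902, 10087730429923940525255, 2921786132723520065562, 714034069693551180662, 140964186125129448369, 18459644316511893722, -636040479962268229, -1436546329669176433, -589791467819681804, -167913211668500229, -36597742642920330]
theorem b_chk5 : K.checkM false 4 12 48 1024 3072 tab1 (-944) 192 (2 ^ 20) 10 bL5 bQ5 = true := by
  decide +kernel
end TWP.C
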