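import Pool.Agent.TWP.C.Tab
namespace TWP.C
def bL7 : K.PL := [-62220478560437329509881370081910160910506098396, -15908360773554277940620034884375824618320169825, -4073188118772404568412110611974845868006461201, -1044909423441710209401376481710586264589291304, -268712313795021817261515944480017544169298839, -69311689316150999409031761705333079963389549, -17943272745910548701285591219911634692919965, -4665168913507127587232485208314006178381242, -1219088668191223503984659987055493769925419, -320470109567499140449975502977532464945286, -84835114958668561891214904843675729054024, -22643819640696904195332001770518788828757, -6103837347889785862693045363445403425554, -1665093032102892855169155145465431570154, -460948843113080944240266947760965276022, -129956174273863807883548370735179483799, -37471885848966191912896788253443187151, -11094240824553131578240426991547975616, -3378171087626731024652923343252769398, -1054083940904215578869170729616332641, -333158837209406898856265461547220753, -104465635970407356382696068238918722, -31503433818918390100715836584809360, -8717110509321943805558085636104132, -2020695475691554120358065437702036, -285104649102122894622467175652909, 53333788895542372959464991814754, 65843574295751511220689408091097, 34287421177256423138754329515906, 13345040922318552316792119267227, 4185774870312321895599617110427, 1030133015206000302035769222790, 163325540271788525547786076124, -8110582605530172280208336025, -18808759997082616605223788012, -8839784023896147438879838967, -2803700983110565774678763295,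 -639664005221245098870219587, -82087984554263040860365616, 10820641554398055666428741, 10974347262223893870233110, 4083252047652518110285404, 1004142335520922457726231, 149018354043070262182027, -4476699198504942831394, -11487676621436188537190, -4342951943801992478700, -1010085545592553753957]
def bQ7 : K.PL := [3542172287470668980447546387384953096299781269761, -452402479560226956148461457583737292466268762701, -28944328734219324743680420647127395450558947919, -3715371979150662171977878398791238330429605110, -598818907427083780069744664667248125153001372, -108728878968682783947311352963147400930950417, -21306451358456034393427294389790372729587692, -4412377851699005757366638725071878020402809, -954659065060537665928302957745287722777578, -214371603289854158356575937445573450013052, -49769857874532879437505454459749768826326, -11922035823907949950896606412641885547135, -2944280749188261859852784599514370683480, -749871942980506190569329146047178552304, -197232308375483215656101586646856830461, -53704904223808733697749722691199610111, -15185434126647590962591603464324956071, -4469034591870166194610808990979575317, -1367346449207605951892420846606851120, -431561435034068434646299943332946210, -138198331369419106274890658373931772, -43755735801997272665475190309913807, -13211164917450779470658178956509481, -3599898209483384991967353262758764, -787504296311647434934538213312527, -79392238039862759920734504873009, 43467810109822192159561314804031, 36931679428183415863406952505463, 17922324794621786653954984288803, 6754351895783334799894460882364,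 2070723609420438815087011333928, 496514517414914165416430915670, 73892914449467616892163813616, -6492386141368080111427048843, -9997718343226831559988126374, -4518630666309117747381026300, -1403405635982820358686301359, -313009004578016256512271082, -37719719254026147176949450, 6448513269439176171160487, 5722467519705990319872962, 2074955403871829030237322, 500940583670432449349419, 71869049176130502785868, -3284294521035217871531, -6022185121008194486390, -2227485171092651165153, -514013691375258556033]
theorem b_chk7 : K.checkM false 4 12 48 1024 3072 tab1 (-752) 192 (2 ^ 20) 9 bL7 bQ7 = true := by
  decide +kernel
end TWP.C
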