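import Pool.Agent.TWP.C.Tab
namespace TWP.C
def bL8 : K.PL := [-71342852458622755804795068831432889604362420331, -20925211037933447121617684231605865041142766282, -6150784969010811945483321199488216354182751032, -1813327850228648967320426195446080180816715807, -536635717166682861662301603134107024012912443, -159570926885718066940261520697571374372154192, -47727806015046147021109985417081300414310989, -14377768744176930884904289318988424071893247, -4369202810137874801115389965136353042605721, -1342119376404303954719814685595466431584266, -417876668749870694703960712946054626664328, -132367248755301675434862119689357345571951, -42858373261135460517288268317901739736568, -14255527440870696251718848623163948632606, -4885900742754879854824855994303608106521, -1720864905046510544446207673542603077539, -615236411869531543939019485016078670498, -217978353646974655026922803264522975375, -73763299105939552263268286920880264188, -22511347400676244868929087788851464368, -5497524126730999422943940950144973400, -616746689046597948798652038454440041, 368182096564675201125532223445712978, 340614957070035879609043559874210826, 176953820327261798389851272493173896, 69737513072663012343025286023025042, 21425589180834164524052115041806529, 4592105203037909970314011387340576, 220688782057437846544219495293522, -386194647262162134853871166177093, -238783966269257033916676939832010, -89434495744005792500937948778669, -23379326483011916989758279629513, -3420552759661216080136372083632, 453614081468324464933026988815, 527228098605861854322634442386, 211715060945392620605155241103,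 54238902405997405396639563866, 7437247379317776260721662576, -976447442210839526229965447, -996711323355075010615252054, -352518872108684859921489794, -74924905783844048989312682, -5660316148253367306451098, 2972773374214065695530971, 1595317465876365194593049, 439088339898154692768283, 69715482301080346339411]
def bQ8 : K.PL := [3308229348462339933419293606257700311426484071268, -484471270393513942434337069612039547847611793465, -35574884792091731502942258657853073625868282488, -5249758072676542194097260364836513444910528622, -975066193175544808691032120474867184322363034, -204684963687688354640577957548041511818920636, -46564196349243451194997117099665055057794562, -11252865980072365300431753587395368797051277, -2859391838141019415576519253722550042455051, -760131592149015864820322584356896091880078, -211034655274600516277815064417235545074599, -61236761779002616900945887279592375767191, -18622350600739857138046257625565336585319, -5953327633263770626708533095606691789785, -2000889808357988628285284209970677941652, -701521768760837078353537845351794274701, -251621787242378361443944260392225176713, -89417687374810919553176135425507851863, -30080981054080593240115871107211563231, -8920143427490868027953770310976944726, -1966608655368961420887093382433902454, -58195177423473937379893290483691965, 258235601982278778340886621478891081, 189665905974618321628366533432481986, 92440352016175530420098293238823224, 35221517420798326335479226409716729, 10517234090813542070345196400280663, 2151825879251918730256532074481000, 50506830973246803993660677666669,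 -211285184494035623207227272174781, -123262567823932806751313904869679, -45002716041057627535330882694752, -11470840054692925141663757260402, -1571739194540493651185964394445, 276700295534847047582127941210, 276012467937633311672535964433, 107530436960221904186387291474, 26826689320816737670640743324, 3408833962544625276786043048, -628181619698026754465817725, -547783025472979247784026775, -192013317798487057715983783, -42351611947971682855637516, -4336773568404753512021742, 1049865548272852917047199, 695823042975523151019331, 210623738941468950195783, 43483500320880345256701]
theorem b_chk8 : K.checkM false 4 12 48 1024 3072 tab1 (-656) 192 (2 ^ 20) 8 bL8 bQ8 = true := by
  decide +kernel
end TWP.C
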