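import Pool.Agent.TWP.C.Tab
namespace TWP.C
def bL9 : K.PL := [-81279171735991524982215964143205632196791780117, -18119228913298626317937458601226645127699929876, -4052447453116804533655597992384169985258044058, -910449777038918372410147557665662772655253144, -205765737052345752312914629208669133418359616, -46860068064798781442227315790208239825799057, -10776276413812861221288293791637312166845441, -2509575663694785387189478446485449037335899, -594146456720510203001872145251429409981258, -143751622848787850785160781977178185902907, -35754597838263588826570195282091315835831, -9179806832345530223532414758176178004679, -2426626847585714742191286525776877194089, -650961065829592917354222588760841705176, -172127056057478976047430823642253387850, -42872518674917983347169088038898899783, -9343883012670758701487324144924551262, -1491614171670300195825602964166255634, -22003289408790523150617634045370397, 107469544678702166801016801722441032, 54969715806581538392963530560671852, 18436090391223609190697120149879972, 4668959101212822069053485914097984, 850275829156098214604625550299779, 68292963847388953667063260232898, -23502763419249628576686724003464, -13515072861798049931418738546087, -3987696700046739842572608058237, -793136457328294430655229159647, -88139657248480965874310453929, 7433957587862662332416298555, 6746799483690461716678913532, 1943741525700701353183347078, 344404097261276012903250957, 28342886723419993193087796, -5172009082245757646804532, -2680859883705663146510089, -593076196383425632898491, -70273868069911108897002,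 2270884306713043647754, 3327844247009778179862, 877406291732582777235, 129799456847787575221, 5119798455948298514, -3366401156905788827, -1228163958221120779, -261537310258143293, -39039375148258041]
def bQ9 : K.PL := [3099778136067507320428485419752882274056019696993, -344778812461718063641857648152058952127886347750, -19255711112464757149190509355999829087618619593, -2166481110277763421653363321200226356698194008, -307904500978582295668199438287725126664213069, -49705149238803091870970196498755850245418238, -8754067905419781386422694354743192009748777, -1652539155727315867454635699612778861998528, -332002948057280664095160247154380199865791, -70921585893302011746402317681409890259868, -16144445750019045410139397614377400929159, -3918184030783984008529772439305609262297, -1005064678166258853166903967136205704462, -265968577267148182868942287960753675178, -69677093635134248034116045257444658241, -17028639782594127891067524650171154779, -3516413512551259070804422068989824183, -454423399099564927626498246968037426, 58111427161127584543601758762752334, 68641114626622121700130116804927729, 30239380817432375829705238196522972, 9592049916793478664531300415638231, 2344673368219160476803004264462421, 410131699273564707568435177396987, 27842417509081945005638001759345, -13377567187689147569772241542903, -7044521414766948096404846219409, -2017292321530993665763173397343, -390708660920735104674833673409, -40836651505573728510796489651, 4548573852797838843910666049, 3492584282876873025990880046, 966071626140443126623865406,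 161608148672767582547272533, 9782504422536931624846403, -3907198918025084123695381, -1671441272782711629024079, -366882374166435510933654, -46825314725556136319719, 290248883270823270155, 2075135617342841484040, 699795941952408132826, 161761172945984920129, 30294727727155482453, 4603710884511439421, 402076499522124322, -86106878976401161, -64659990183388011]
theorem b_chk9 : K.checkM false 4 12 48 1024 3072 tab1 (-576) 128 (2 ^ 20) 5 bL9 bQ9 = true := by
  decide +kernel
end TWP.C
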