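import Pool.Agent.TWP.C.Tab
import Pool.Agent.TWP.Eng3
namespace TWP.C
def neg1L : K.PL := [-1986285607522940827662853512989059342165488466630, -123046758545542192947546420481112113692142858783, 2584914972984436267647116971645849812196719641, -14346365476170558770260587736953644314798828, -10731355779123057731601243352333385558346827, 1239029699893285934472859066707474996529830, -55429771659521878486818433213992994970358, -2768892853447801058683997983647380903465, 588796188843828390616475591177006662932, -31858168848797621256156920307379615666, -959466410865220403712727452876522919, 258636419232077427877326300012624984, -14222300919228400282398026596718440, -365787331186711466724529495423710, 104833678167365383285696585209384, -5826619759558642766426001846136, -127097602588292401591022807062, 40544060244956521344252546554, -2362470766151980228842446452, -38150536523234224767043072, 15473229753097247344538247, -965791503426271535002270, -9709398899552444722439, 5909829614517809707522, -395226470201945066044, -1809564931660263894, 2257496868888813452, -160859782452829116, 40234880592015, 859400189117167, -65075801633272, 305790572236, 325563494932, -26205895371, 233767278, 122730226, -10515414, 136255, 46046, -4206, 70, 17, -2, 0, 0, -1, -1, -1]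
def neg1Q : K.PL := [104923315905313110212933701131520837810810567137, -35649578993444550691658934997613120856230153478, 4952078933065121734291241154150110771943158922, -295270516686217757512199082460382497256337032, -4982122451043461637250292927504699406433455, 1998429972226999964484306509181551450366366, -104861918299758930031969112411945540462491, -3650506609244356889004996645521663598772, 777904260877346376584917869269572243100, -34630946950822361151563893638041228850, -1439621520457689636954710842649517557, 277266091186725630170174964980373554, -13289321039827205426481187746696402, -428002336400216658397324194324609, 102866384446506179432436795220027, -5631702688066463014329830222675, -121404575533094151842030425671, 39767535220391929221429284480, -2373460068037455532280116348, -34897924419288925283407494, 15439446185776163231379299, -976843318682413603055049, -9303187812969560889598, 5936445951824036375010, -397215789554466597207, -1844270639930356995, 2264290835297386211, -160898082606827191, 21169518573351, 859817397100307, -65024616925972, 303845847593, 325420294982, -26197235875, 234132555, 122692637, -10515939, 136398, 46044, -4207, 70, 17, -2, 0, 0, -1, 0, 0]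
theorem neg1_chk : K.checkMN false 5 12 48 1024 3072 tab1 (96) 16 (2 ^ 20) 1 neg1L neg1Q = true := by
  decide +kernel
end TWP.C
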