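import Pool.Agent.TWP.C.Tab
import Pool.Agent.TWP.Eng3
namespace TWP.C
def neg2L : K.PL := [-1210706823414552021967170777267952298038406561128, -34749359475412396104249622184540228752668215109, -95397822826172445471696981584926718649885136, 8204765774000232138711087901255312671890679, -46819646695361923516316717810313324463819, -3350584481970896972301616267973142778568, 48463408546744778047745948346441802802, 1271825153597230576309021833403669036, -31093841066691574422736035720704688, -416934188621334389207955468383355, 16762304636837285982597752070909, 104164455656799122381393193819, -8194426934478647263268912683, -6869850326191491684886147, 3744498531158688168664460, -14837096759860162908681, -1617814152544990662048, 14319965044761825612, 660992766331865280, -9544978016858570, -252837526331972, 5478795769196, 88236154922, -2879036848, -26298202, 1419465, 5222, -664, 0, 0, -1, -1, -1, -1, -1, -1, -1, -1, -1, -1, -1, -1, -1, -1, -1, -1, -1, -1]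
def neg2Q : K.PL := [509770482769085449422982461024772463220862286515, -26393342047113797082635592513270036363842930740, 304489941836984243897461282347090298370494712, 7125557733226673846946156025662199043969377, -133717103828117269070824867454329288178971, -3037821588449887953156472513846695526851, 68926673795434037604923670678998445274, 1174271929117984552024488445985707375, -35327430696458250545181586085029081, -388727465031554234764273708707022, 17459445976170215117762919665540, 97150356735224313512174052065, -8261098095622033007609393141, -5488538884470228176071370, 3735694127755576326757264, -14999664662077790620294, -1610880122877289592741, 14300324454443617366, 658687190318278370, -9524610392053486, -252283330852613, 5470647398650, 88138159585, -2876623730, -26289206, 1418889, 5224, -664, 0, 0, -1, 0, -1, 0, -1, 0, -1, 0, -1, 0, -1, 0, -1, 0, -1, 0, -1, 0]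
theorem neg2_chk : K.checkMN true 8 18 48 1024 3072 tab2 (4) 4 (2 ^ 20) 1 neg2L neg2Q = true := by
  decide +kernel
end TWP.C
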